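import Pool.Agent.FpTrans.Defs2

/-!
# P4 (helper19): captured functions, digits, ergodicity
-/

set_option autoImplicit false
set_option linter.unusedSectionVars false
open MeasureTheory Filter Topology

namespace Pool.Agent.FpTrans

universe u v w

section capt

variable {X : Type u} {Y : Type v} [MeasurableSpace X] [MeasurableSpace Y] {μ : Measure X}
  {a : X → Y}

lemma st_capt_comp {A B : Type*} [MeasurableSpace A] [MeasurableSpace B] {Q : X → A}
    (h : Capt μ a Q) {φ : A → B} (hφ : Measurable φ) : Capt μ a (fun x => φ (Q x)) := by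
  obtain ⟨f, hf, he⟩ := h
  refine ⟨fun y => φ (f y), hφ.comp hf, ?_⟩
  filter_upwards [he] with x hx
  rw [hx]

lemma st_capt_comp₂ {A B C : Type*} [MeasurableSpace A] [MeasurableSpace B] [MeasurableSpace C]
    {Q : X → A} {Q' : X → B} (h : Capt μ a Q) (h' : Capt μ a Q') {φ : A × B → C}
    (hφ : Measurable φ) : Capt μ a (fun x => φ (Q x, Q' x)) := by
  obtain ⟨f, hf, he⟩ := h
  obtain ⟨f', hf', he'⟩ := h'
  refine ⟨fun y => φ (f y, f' y), hφ.comp (hf.prodMk hf'), ?_⟩
  filter_upwards [he, he'] with x hx hx'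
  rw [hx, hx']

lemma st_capt_congr {A : Type*} [MeasurableSpace A] {Q Q' : X → A} (h : Capt μ a Q)
    (he : Q' =ᵐ[μ] Q) : Capt μ a Q' := by
  obtain ⟨f, hf, hQ⟩ := h
  exact ⟨f, hf, he.trans hQ⟩

lemma st_capt_mono {A Z : Type*} [MeasurableSpace A] [MeasurableSpace Z] {Q : X → A}
    (h : Capt μ a Q) {b : X → Z} {π : Z → Y} (hπ : Measurable π) (hb : ∀ x, π (b x) = a x) :
    Capt μ b Q := by
  obtain ⟨f, hf, he⟩ := h
  refine ⟨fun z => f (π z), hf.comp hπ, ?_⟩
  filter_upwards [he] with x hx
  rw [hx, hb]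

lemma st_capt_const {A : Type*} [MeasurableSpace A] (c : A) : Capt μ a (fun _ => c) :=
  ⟨fun _ => c, measurable_const, EventuallyEq.rfl⟩

/-- the subgroup of captured functions -/
def st_capt (μ : Measure X) (a : X → Y) (N : ℕ) [NeZero N] : AddSubgroup (X → ZMod N) where
  carrier := {Q | Capt μ a Q}
  zero_mem' := st_capt_const 0
  add_mem' := fun hf hg =>
    st_capt_comp₂ (φ := fun z : ZMod N × ZMod N => z.1 + z.2) hf hg (measurable_of_countable _)
  neg_mem' := fun hf => st_capt_comp (φ := fun z => -z) hf (measurable_of_countable _)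

lemma st_mem_capt {N : ℕ} [NeZero N] {Q : X → ZMod N} : Q ∈ st_capt μ a N ↔ Capt μ a Q := Iff.rfl

/-- captured functions are preserved by the action -/
lemma st_capt_action {A : Type*} [MeasurableSpace A] {Q : X → A} (h : Capt μ a Q)
    {t : X → X} (ht : MeasurePreserving t μ μ) {s : Y → Y} (hs : Measurable s)
    (hts : ∀ᵐ x ∂μ, a (t x) = s (a x)) : Capt μ a (fun x => Q (t x)) := by
  obtain ⟨f, hf, he⟩ := h
  refine ⟨fun y => f (s y), hf.comp hs, ?_⟩
  filter_upwards [ht.quasiMeasurePreserving.ae he, hts] with x hx hx'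
  rw [hx, hx']

end capt

section poly

variable {X : Type u} {ι : Type v} {A : Type w} [MeasurableSpace X] [AddCommGroup A]
  {μ : Measure X} {T : ι → X → X}

lemma st_poly_zero (n : ℕ) : AEPoly μ T n (0 : X → A) := by
  induction n with
  | zero => exact EventuallyEq.rfl
  | succ n ih =>
    intro g
    have e : (fun x => (0 : X → A) (T g x) - (0 : X → A) x) = 0 := by
      funext x
      simp
    show AEPoly μ T n (fun x => (0 : X → A) (T g x) - (0 : X → A) x)
    rw [e]
    exact ih

lemma st_poly_add (n : ℕ) : ∀ {f g : X → A}, AEPoly μ T n f → AEPoly μ T n g →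
    AEPoly μ T n (f + g) := by
  induction n with
  | zero =>
    intro f g hf hg
    have := EventuallyEq.add hf hg
    simpa [AEPoly] using this
  | succ n ih =>
    intro f g hf hg i
    have := ih (hf i) (hg i)
    refine (congrArg (AEPoly μ T n) ?_).mp this
    funext x
    simp only [Pi.add_apply]
    abel

lemma st_poly_neg (n : ℕ) : ∀ {f : X → A}, AEPoly μ T n f → AEPoly μ T n (-f) := by
  induction n with
  | zero =>
    intro f hf
    have := EventuallyEq.neg hf
    simpa [AEPoly] using this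
  | succ n ih =>
    intro f hf i
    have := ih (hf i)
    refine (congrArg (AEPoly μ T n) ?_).mp this
    funext x
    simp only [Pi.neg_apply]
    abel

end poly

section digits

variable (p R : ℕ) [Fact p.Prime]

instance st_neZero : NeZero (p ^ (R + 1)) := ⟨pow_ne_zero _ (Fact.out : p.Prime).ne_zero⟩

/-- the inclusion `ℤ/p → ℤ/p^(R+1)`, `v ↦ p^R v` -/
noncomputable def st_iota : ZMod p →+ ZMod (p ^ (R + 1)) :=
  ZMod.lift p ⟨zmultiplesHom (ZMod (p ^ (R + 1))) ((p ^ R : ℕ) : ZMod (p ^ (R + 1))), by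
    rw [zmultiplesHom_apply]
    have : ((p : ℤ) • ((p ^ R : ℕ) : ZMod (p ^ (R + 1)))) =
        ((p ^ (R + 1) : ℕ) : ZMod (p ^ (R + 1))) := by
      rw [zsmul_eq_mul]
      push_cast
      ring
    rw [this, ZMod.natCast_self]⟩

lemma st_iota_int (k : ℤ) : st_iota p R (k : ZMod p) = ((k * (p ^ R : ℕ) : ℤ) : ZMod (p ^ (R + 1))) := by
  rw [st_iota, ZMod.lift_coe, zmultiplesHom_apply, zsmul_eq_mul]
  push_cast
  ring

lemma st_iota_nat (k : ℕ) : st_iota p R (k : ZMod p) = ((p ^ R * k : ℕ) : ZMod (p ^ (R + 1))) := by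
  have := st_iota_int p R (k : ℤ)
  push_cast at this ⊢
  rw [this]
  ring

/-- the lower digits -/
def st_low (q : ZMod (p ^ (R + 1))) : ZMod (p ^ (R + 1)) := ((q.val % p ^ R : ℕ) : ZMod (p ^ (R + 1)))

lemma st_decomp (q : ZMod (p ^ (R + 1))) : q = st_low p R q + st_iota p R (td p R q) := by
  rw [td, st_iota_nat, st_low, ← Nat.cast_add, Nat.mod_add_div, ZMod.natCast_zmod_val]

lemma st_low_eq {q q' : ZMod (p ^ (R + 1))} (h : p • q = p • q') : st_low p R q = st_low p R q' := by
  have hp := (Fact.out : p.Prime)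
  have h1 : ((p * q.val : ℕ) : ZMod (p ^ (R + 1))) = ((p * q'.val : ℕ) : ZMod (p ^ (R + 1))) := by
    push_cast
    rw [ZMod.natCast_zmod_val, ZMod.natCast_zmod_val]
    simpa [nsmul_eq_mul] using h
  rw [ZMod.natCast_eq_natCast_iff] at h1
  have e : p ^ (R + 1) = p * p ^ R := pow_succ' p R
  have h3 : p * q.val ≡ p * q'.val [MOD p * p ^ R] := e ▸ h1
  have h2 : q.val ≡ q'.val [MOD p ^ R] := Nat.ModEq.mul_left_cancel' hp.ne_zero h3
  have h4 : q.val % p ^ R = q'.val % p ^ R := h2
  rw [st_low, st_low, h4]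

lemma st_low_factor : ∃ φ : ZMod (p ^ (R + 1)) → ZMod (p ^ (R + 1)), ∀ q, φ (p • q) = st_low p R q := by
  classical
  refine ⟨fun z => if h : ∃ q, p • q = z then st_low p R h.choose else 0, fun q => ?_⟩
  have h : ∃ q', p • q' = p • q := ⟨q, rfl⟩
  have h1 : (if h : ∃ q', p • q' = p • q then st_low p R h.choose else 0) =
      st_low p R h.choose := dif_pos h
  exact h1.trans (st_low_eq p R h.choose_spec)

lemma st_char_iota (v : ZMod p) :
    ZMod.stdAddChar (st_iota p R v) = (ZMod.stdAddChar v : ℂ) := by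
  have hp := (Fact.out : p.Prime)
  obtain ⟨k, rfl⟩ := ZMod.intCast_surjective v
  rw [st_iota_int, ZMod.stdAddChar_coe, ZMod.stdAddChar_coe]
  congr 1
  have h1 : (p : ℂ) ≠ 0 := by exact_mod_cast hp.ne_zero
  push_cast
  rw [pow_succ]
  field_simp

lemma st_iota_injective : Function.Injective (st_iota p R) := by
  intro v w h
  apply ZMod.injective_stdAddChar
  rw [← st_char_iota p R v, ← st_char_iota p R w, h]

end digits

section ergodic

variable {Γ : Type} [AddCommGroup Γ] [Countable Γ] {X : Type u} [MeasurableSpace X]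
  {μ : Measure X} {T : Γ → X → X}

/-- a.e. invariant sets are null or conull -/
lemma st_ergodic_ae (hT : IsAction μ T) (hE : IsErgodic μ T) (A : Set X) (hA : MeasurableSet A)
    (hinv : ∀ g, T g ⁻¹' A =ᵐ[μ] A) : (∀ᵐ x ∂μ, x ∈ A) ∨ ∀ᵐ x ∂μ, x ∉ A := by
  set A' : Set X := ⋂ g, T g ⁻¹' A with hA'
  have hmeas : MeasurableSet A' := MeasurableSet.iInter fun g => (hT.mp g).measurable hA
  have hinv' : ∀ h, T h ⁻¹' A' = A' := by
    intro h
    ext x
    simp only [hA', Set.mem_preimage, Set.mem_iInter]
    constructor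
    · intro hx g
      have := hx (g - h)
      rwa [← hT.add, sub_add_cancel] at this
    · intro hx g
      rw [← hT.add]
      exact hx (g + h)
  have hae : A' =ᵐ[μ] A := by
    have h1 : ∀ᵐ x ∂μ, ∀ g, (x ∈ T g ⁻¹' A) = (x ∈ A) := by
      rw [ae_all_iff]
      exact fun g => hinv g
    filter_upwards [h1] with x hx
    have h2 : x ∈ A' ↔ x ∈ A := by
      simp only [hA', Set.mem_iInter]
      constructor
      · intro h
        exact (hx 0).mp (h 0)
      · intro h g
        exact (hx g).mpr h
    exact propext h2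
  rcases hE A' hmeas hinv' with h | h
  · right
    have h1 : ∀ᵐ x ∂μ, x ∉ A' := by
      rw [ae_iff]
      simpa using h
    filter_upwards [h1, hae] with x hx hx'
    have : (x ∈ A') = (x ∈ A) := hx'
    rwa [← this]
  · left
    have h1 : ∀ᵐ x ∂μ, x ∈ A' := h
    filter_upwards [h1, hae] with x hx hx'
    have : (x ∈ A') = (x ∈ A) := hx'
    rwa [← this]

/-- a.e. invariant functions are a.e. constant -/
lemma st_const_of_invariant (hT : IsAction μ T) (hE : IsErgodic μ T) (w : X → ℂ)
    (hw : Measurable w) (hinv : ∀ g, ∀ᵐ x ∂μ, w (T g x) = w x) : ∃ c, ∀ᵐ x ∂μ, w x = c := by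
  have : ∃ c, w =ᵐ[μ] Function.const X c := by
    refine exists_eventuallyEq_const_of_forall_separating MeasurableSet fun U hU => ?_
    refine st_ergodic_ae hT hE (w ⁻¹' U) (hw hU) fun g => ?_
    filter_upwards [hinv g] with x hx
    have : T g x ∈ w ⁻¹' U ↔ x ∈ w ⁻¹' U := by
      simp only [Set.mem_preimage, hx]
    exact propext this
  obtain ⟨c, hc⟩ := this
  exact ⟨c, hc⟩

end ergodic

section pull

/-- integral against a finite valued function -/
lemma st_pull {Z : Type*} [MeasurableSpace Z] {A : Type*} [Fintype A] [MeasurableSpace A]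
    [MeasurableSingletonClass A] (m : Measure Z) (w : Z → ℂ) (hw : Integrable w m) (f : Z → A)
    (hf : Measurable f) (φ : A → ℂ) (B : Set Z) :
    ∫ x in B, φ (f x) * w x ∂m = ∑ z, φ z * ∫ x in B ∩ f ⁻¹' {z}, w x ∂m := by
  classical
  have h1 : ∀ x, φ (f x) * w x = ∑ z, (f ⁻¹' {z}).indicator (fun x => φ z * w x) x := by
    intro x
    rw [Finset.sum_eq_single (f x)]
    · rw [Set.indicator_of_mem (by simp)]
    · intro z _ hz
      rw [Set.indicator_of_notMem]
      simpa using fun h => hz h.symm
    · intro h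
      exact absurd (Finset.mem_univ _) h
  simp_rw [h1]
  rw [integral_finsetSum]
  · refine Finset.sum_congr rfl fun z _ => ?_
    rw [setIntegral_indicator (hf (measurableSet_singleton z)), integral_const_mul]
  · intro z _
    exact ((hw.const_mul (φ z)).indicator (hf (measurableSet_singleton z))).integrableOn

/-- conditional expectation as a function on the factor -/
lemma st_exists_condexp {X : Type u} {K : Type v} [MeasurableSpace X] [MeasurableSpace K]
    {μ : Measure X} [IsProbabilityMeasure μ] {ν : Measure K} [IsProbabilityMeasure ν] {a : X → K}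
    (ha : MeasurePreserving a μ ν) (q : X → ℂ) (hq : Integrable q μ) :
    ∃ g : K → ℂ, StronglyMeasurable g ∧ Integrable g ν ∧
      ∀ B, MeasurableSet B → ∫ x in a ⁻¹' B, q x ∂μ = ∫ y in B, g y ∂ν := by
  have hm := ha.measurable.comap_le
  obtain ⟨h, hh, he⟩ := (stronglyMeasurable_condExp (m := MeasurableSpace.comap a inferInstance)
    (μ := μ) (f := q)).exists_eq_measurable_comp
  refine ⟨h, hh, ?_, ?_⟩
  · have : Integrable (h ∘ a) μ := he ▸ integrable_condExp
    rwa [← ha.map_eq, integrable_map_measure hh.aestronglyMeasurable ha.measurable.aemeasurable]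
  · intro B hB
    have h1 := setIntegral_condExp (μ := μ) hm hq
      (s := a ⁻¹' B) ⟨B, hB, rfl⟩
    rw [← h1, he, ← ha.map_eq, setIntegral_map hB hh.aestronglyMeasurable
      ha.measurable.aemeasurable]
    rfl

end pull

section main

variable {Γ : Type} [AddCommGroup Γ] [Countable Γ] {X : Type u} [MeasurableSpace X]
  {μ : Measure X} [IsProbabilityMeasure μ] {T : Γ → X → X} {K : Type v} [MeasurableSpace K]
  {ν : Measure K} [IsProbabilityMeasure ν] {S : Γ → K → K} {a : X → K}

lemma st_norm_char {N : ℕ} [NeZero N] (z : ZMod N) : ‖(ZMod.stdAddChar z : ℂ)‖ = 1 := by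
  rw [ZMod.stdAddChar_apply]
  exact Circle.norm_coe _

/-- a function with captured derivatives whose character is not orthogonal to the captured
functions is captured. -/
lemma st_capt_of_ne (hT : IsAction μ T) (hE : IsErgodic μ T) (hS : IsAction ν S)
    (ha : MeasurePreserving a μ ν) (haS : ∀ g, ∀ᵐ x ∂μ, a (T g x) = S g (a x))
    {N : ℕ} [NeZero N] (Q : X → ZMod N) (hQ : Measurable Q)
    (hd : ∀ g, Capt μ a (fun x => Q (T g x) - Q x)) (B : Set K) (hB : MeasurableSet B)
    (hne : ∫ x in a ⁻¹' B, (ZMod.stdAddChar (Q x) : ℂ) ∂μ ≠ 0) : Capt μ a Q := by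
  set E : ZMod N → ℂ := fun z => ZMod.stdAddChar z with hEdef
  have hEm : Measurable E := measurable_of_countable _
  set q : X → ℂ := fun x => E (Q x) with hqdef
  have hqm : Measurable q := hEm.comp hQ
  have hqn : ∀ x, ‖q x‖ = 1 := fun x => st_norm_char _
  have hqi : Integrable q μ := by
    refine Integrable.of_bound (C := 1) hqm.aestronglyMeasurable (Eventually.of_forall fun x => ?_)
    exact (hqn x).le
  obtain ⟨g, hgm, hgi, hg⟩ := st_exists_condexp ha q hqi
  -- equivariance on the factor
  have hequi : ∀ γ, ∀ c : K → ZMod N, Measurable c →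
      ((fun x => Q (T γ x) - Q x) =ᵐ[μ] fun x => c (a x)) →
      ∀ᵐ y ∂ν, g (S γ y) = E (c y) * g y := by
    intro γ c hc hce
    have hi1 : Integrable (fun y => g (S γ y)) ν := (hS.mp γ).integrable_comp_of_integrable hgi
    have hi2 : Integrable (fun y => E (c y) * g y) ν := by
      refine hgi.bdd_mul (c := 1) (hEm.comp hc).aestronglyMeasurable
        (Eventually.of_forall fun y => ?_)
      exact (st_norm_char _).le
    refine Integrable.ae_eq_of_forall_setIntegral_eq _ _ hi1 hi2 fun B' hB' _ => ?_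
    -- left-hand side
    set B'' := S (-γ) ⁻¹' B' with hB''
    have hB''m : MeasurableSet B'' := (hS.mp (-γ)).measurable hB'
    have hpre : S γ ⁻¹' B'' = B' := by
      ext y
      simp only [hB'', Set.mem_preimage]
      rw [← hS.add, neg_add_cancel, hS.zero]
    have l1 : ∫ y in B', g (S γ y) ∂ν = ∫ y in B'', g y ∂ν := by
      have h := setIntegral_map (μ := ν) (g := S γ) (f := g) hB''m hgm.aestronglyMeasurable
        (hS.mp γ).measurable.aemeasurable
      rw [(hS.mp γ).map_eq, hpre] at h
      exact h.symm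
    have l2 : ∫ x in a ⁻¹' B'', q x ∂μ = ∫ x in a ⁻¹' B', q (T γ x) ∂μ := by
      have h := setIntegral_map (μ := μ) (g := T γ) (f := q) (ha.measurable hB''m)
        hqm.aestronglyMeasurable (hT.mp γ).measurable.aemeasurable
      rw [(hT.mp γ).map_eq] at h
      rw [h]
      refine setIntegral_congr_set ?_
      filter_upwards [haS γ] with x hx
      have : (x ∈ T γ ⁻¹' (a ⁻¹' B'')) ↔ (x ∈ a ⁻¹' B') := by
        rw [← hpre]
        simp only [Set.mem_preimage, hx]
      exact propext this
    have l3 : ∫ x in a ⁻¹' B', q (T γ x) ∂μ = ∫ x in a ⁻¹' B', E (c (a x)) * q x ∂μ := by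
      refine setIntegral_congr_ae (ha.measurable hB') ?_
      filter_upwards [hce] with x hx _
      have : Q (T γ x) = c (a x) + Q x := by rw [← hx]; abel
      simp only [hqdef, hEdef, this, AddChar.map_add_eq_mul]
    have l4 : ∫ x in a ⁻¹' B', E (c (a x)) * q x ∂μ = ∫ y in B', E (c y) * g y ∂ν := by
      rw [st_pull μ q hqi (fun x => c (a x)) (hc.comp ha.measurable) E,
        st_pull ν g hgi c hc E]
      refine Finset.sum_congr rfl fun z _ => ?_
      congr 1
      exact hg (B' ∩ c ⁻¹' {z}) (hB'.inter (hc (measurableSet_singleton z)))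
    rw [l1, ← hg B'' hB''m, l2, l3, l4]
  -- the invariant function
  have hinv : ∀ γ, ∀ᵐ x ∂μ, q (T γ x) * (starRingEnd ℂ) (g (a (T γ x))) =
      q x * (starRingEnd ℂ) (g (a x)) := by
    intro γ
    obtain ⟨c, hc, hce⟩ := hd γ
    have h1 := ha.quasiMeasurePreserving.ae (hequi γ c hc hce)
    filter_upwards [h1, haS γ, hce] with x h1 h2 h3
    have : Q (T γ x) = c (a x) + Q x := by rw [← h3]; abel
    have h4 : q (T γ x) = E (c (a x)) * q x := by
      simp only [hqdef, hEdef, this, AddChar.map_add_eq_mul]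
    rw [h2, h1, h4, map_mul]
    have h5 : E (c (a x)) * (starRingEnd ℂ) (E (c (a x))) = 1 := by
      rw [Complex.mul_conj, Complex.normSq_eq_norm_sq, hEdef, st_norm_char]
      simp
    calc E (c (a x)) * q x * ((starRingEnd ℂ) (E (c (a x))) * (starRingEnd ℂ) (g (a x)))
        = (E (c (a x)) * (starRingEnd ℂ) (E (c (a x)))) * (q x * (starRingEnd ℂ) (g (a x))) := by ring
      _ = q x * (starRingEnd ℂ) (g (a x)) := by rw [h5, one_mul]
  have hgm' : Measurable g := hgm.measurable
  obtain ⟨c, hc⟩ := st_const_of_invariant hT hE (fun x => q x * (starRingEnd ℂ) (g (a x)))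
    (hqm.mul (Complex.continuous_conj.measurable.comp (hgm'.comp ha.measurable))) hinv
  by_cases hc0 : c = 0
  · exfalso
    apply hne
    have h1 : ∀ᵐ x ∂μ, g (a x) = 0 := by
      filter_upwards [hc] with x hx
      rw [hc0, mul_eq_zero] at hx
      rcases hx with hx | hx
      · have := hqn x
        rw [hx] at this
        simp at this
      · simpa using hx
    have h2 : ∀ᵐ y ∂ν, g y = 0 := by
      have h := (ae_map_iff (μ := μ) (p := fun y => g y = 0) ha.measurable.aemeasurable
        (hgm' (measurableSet_singleton 0))).mpr h1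
      rwa [ha.map_eq] at h
    rw [hg B hB, setIntegral_congr_ae (g := fun _ => (0 : ℂ)) hB (by
      filter_upwards [h2] with y hy _
      exact hy)]
    simp
  · have hemb : MeasurableEmbedding E := hEm.measurableEmbedding (ZMod.injective_stdAddChar)
    obtain ⟨inv, hinvm, hinve⟩ := hemb.exists_measurable_extend (measurable_id) (fun _ => ⟨0⟩)
    refine ⟨fun y => inv (c / (starRingEnd ℂ) (g y)),
      hinvm.comp (measurable_const.div (Complex.continuous_conj.measurable.comp hgm')), ?_⟩
    filter_upwards [hc] with x hx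
    have h1 : (starRingEnd ℂ) (g (a x)) ≠ 0 := by
      intro h
      rw [h, mul_zero] at hx
      exact hc0 hx.symm
    have h2 : c / (starRingEnd ℂ) (g (a x)) = E (Q x) := by
      rw [← hx, mul_div_assoc, div_self h1, mul_one]
    rw [h2]
    exact (congrFun hinve (Q x)).symm

end main

end Pool.Agent.FpTrans
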