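import Pool.Agent.FpTrans.Poly

/-!
# Almost everywhere polynomials
-/

set_option autoImplicit false
open MeasureTheory Filter Topology

namespace Pool.Agent.FpTrans

universe u v w w' u'

section basic

variable {X : Type u} [MeasurableSpace X] {μ : Measure X} {ι : Type v} {A : Type w}
  [AddCommGroup A] {T : ι → X → X}

theorem AEPoly.of_isPoly {n : ℕ} {f : X → A} (h : IsPoly T n f) : AEPoly μ T n f := by
  induction n generalizing f with
  | zero => exact Filter.Eventually.of_forall h
  | succ n ih => intro i; exact ih (h i)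

theorem AEPoly.congr (hT : ∀ i, Measure.QuasiMeasurePreserving (T i) μ μ) {n : ℕ} {f g : X → A}
    (h : AEPoly μ T n f) (hfg : g =ᵐ[μ] f) : AEPoly μ T n g := by
  induction n generalizing f g with
  | zero => exact hfg.trans h
  | succ n ih =>
    intro i
    refine ih (h i) ?_
    have h1 : ∀ᵐ x ∂μ, g (T i x) = f (T i x) := (hT i).ae hfg
    filter_upwards [h1, hfg] with x hx1 hx2
    rw [hx1, hx2]

theorem AEPoly.succ {n : ℕ} {f : X → A} (hT : ∀ i, Measure.QuasiMeasurePreserving (T i) μ μ)
    (h : AEPoly μ T n f) : AEPoly μ T (n + 1) f := by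
  induction n generalizing f with
  | zero =>
    intro i
    have h0 : f =ᵐ[μ] 0 := h
    have h1 : ∀ᵐ x ∂μ, f (T i x) = 0 := (hT i).ae h0
    show (fun x => f (T i x) - f x) =ᵐ[μ] 0
    filter_upwards [h1, h0] with x hx1 hx2
    rw [hx1, hx2]; simp
  | succ n ih =>
    intro i
    exact ih (h i)

theorem AEPoly.mono {n m : ℕ} (hnm : n ≤ m) {f : X → A}
    (hT : ∀ i, Measure.QuasiMeasurePreserving (T i) μ μ) (h : AEPoly μ T n f) :
    AEPoly μ T m f := by
  induction hnm with
  | refl => exact h
  | step _ ih => exact ih.succ hT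

theorem AEPoly.zero_fun (n : ℕ) : AEPoly μ T n (fun _ : X => (0 : A)) :=
  AEPoly.of_isPoly (IsPoly.zero_fun n)

theorem AEPoly.add {n : ℕ} {f g : X → A} (hf : AEPoly μ T n f) (hg : AEPoly μ T n g) :
    AEPoly μ T n (fun s => f s + g s) := by
  induction n generalizing f g with
  | zero =>
    have h1 : f =ᵐ[μ] 0 := hf
    have h2 : g =ᵐ[μ] 0 := hg
    show (fun s => f s + g s) =ᵐ[μ] 0
    filter_upwards [h1, h2] with x hx1 hx2
    rw [hx1, hx2]; simp
  | succ n ih =>
    intro i
    have := ih (hf i) (hg i)
    refine cast (congrArg (AEPoly μ T n) (funext fun s => ?_)) this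
    exact (add_sub_add_comm _ _ _ _).symm

theorem AEPoly.hom {B : Type w'} [AddCommGroup B] (φ : A →+ B) {n : ℕ} {f : X → A}
    (hf : AEPoly μ T n f) : AEPoly μ T n (fun s => φ (f s)) := by
  induction n generalizing f with
  | zero =>
    have h1 : f =ᵐ[μ] 0 := hf
    show (fun s => φ (f s)) =ᵐ[μ] 0
    filter_upwards [h1] with x hx
    rw [hx]; simp
  | succ n ih =>
    intro i
    have := ih (hf i)
    simpa [map_sub] using this

theorem AEPoly.of_hom {B : Type w'} [AddCommGroup B] (φ : A →+ B) (hφ : Function.Injective φ)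
    {n : ℕ} {f : X → A} (hf : AEPoly μ T n (fun s => φ (f s))) : AEPoly μ T n f := by
  induction n generalizing f with
  | zero =>
    have h1 : (fun s => φ (f s)) =ᵐ[μ] 0 := hf
    show f =ᵐ[μ] 0
    filter_upwards [h1] with x hx
    exact (map_eq_zero_iff φ hφ).1 hx
  | succ n ih =>
    intro i
    apply ih
    have := hf i
    simpa [map_sub] using this

theorem AEPoly.neg {n : ℕ} {f : X → A} (hf : AEPoly μ T n f) : AEPoly μ T n (fun s => -f s) :=
  hf.hom (negAddMonoidHom : A →+ A)

theorem AEPoly.sub {n : ℕ} {f g : X → A} (hf : AEPoly μ T n f) (hg : AEPoly μ T n g) :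
    AEPoly μ T n (fun s => f s - g s) := by
  simpa [sub_eq_add_neg] using hf.add hg.neg

theorem AEPoly.nsmul {n : ℕ} {f : X → A} (k : ℕ) (hf : AEPoly μ T n f) :
    AEPoly μ T n (fun s => k • f s) := by
  induction k with
  | zero => simpa using AEPoly.zero_fun n
  | succ k ih => simpa [succ_nsmul] using ih.add hf

theorem AEPoly.sum {n : ℕ} {α : Type*} (s : Finset α) (f : α → X → A)
    (hf : ∀ a ∈ s, AEPoly μ T n (f a)) : AEPoly μ T n (fun x => ∑ a ∈ s, f a x) := by
  classical
  induction s using Finset.induction_on with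
  | empty => simpa using AEPoly.zero_fun n
  | insert a s ha ih =>
    simp only [Finset.sum_insert ha]
    exact (hf a (Finset.mem_insert_self _ _)).add
      (ih fun b hb => hf b (Finset.mem_insert_of_mem hb))

theorem AEPoly.const (c : A) : AEPoly μ T 1 (fun _ : X => c) :=
  AEPoly.of_isPoly (IsPoly.const c)

end basic

section factor

variable {X : Type u} [MeasurableSpace X] {μ : Measure X} {Y : Type u'} [MeasurableSpace Y]
  {ν : Measure Y} {ι : Type v} {A : Type w} [AddCommGroup A] {T : ι → X → X} {S : ι → Y → Y}

/-- pull back along a factor map -/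
theorem AEPoly.comp_factor {a : X → Y} (ha : Measure.QuasiMeasurePreserving a μ ν)
    (hT : ∀ i, Measure.QuasiMeasurePreserving (T i) μ μ)
    (haS : ∀ i, ∀ᵐ x ∂μ, a (T i x) = S i (a x)) {n : ℕ} {f : Y → A} (hf : AEPoly ν S n f) :
    AEPoly μ T n (fun x => f (a x)) := by
  induction n generalizing f with
  | zero =>
    have h1 : f =ᵐ[ν] 0 := hf
    exact ha.ae h1
  | succ n ih =>
    intro i
    refine (ih (hf i)).congr hT ?_
    filter_upwards [haS i] with x hx
    rw [hx]

/-- push forward along a factor map -/
theorem AEPoly.of_comp_factor [MeasurableSpace A] [MeasurableSingletonClass A]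
    [MeasurableSub₂ A] {a : X → Y} (ha : MeasurePreserving a μ ν)
    (hT : ∀ i, Measure.QuasiMeasurePreserving (T i) μ μ) (hS : ∀ i, Measurable (S i))
    (haS : ∀ i, ∀ᵐ x ∂μ, a (T i x) = S i (a x)) {n : ℕ} {f : Y → A} (hfm : Measurable f)
    (hf : AEPoly μ T n (fun x => f (a x))) : AEPoly ν S n f := by
  induction n generalizing f with
  | zero =>
    have h1 : (fun x => f (a x)) =ᵐ[μ] 0 := hf
    show ∀ᵐ y ∂ν, f y = 0
    rw [← ha.map_eq, ae_map_iff (p := fun y => f y = 0) ha.measurable.aemeasurable
      (hfm (measurableSet_singleton 0))]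
    exact h1
  | succ n ih =>
    intro i
    refine ih ((hfm.comp (hS i)).sub hfm) ?_
    refine (hf i).congr hT ?_
    filter_upwards [haS i] with x hx
    show f (S i (a x)) - f (a x) = f (a (T i x)) - f (a x)
    rw [hx]

end factor

section action

variable {X : Type u} [MeasurableSpace X] {μ : Measure X} {Γ : Type v} [AddCommGroup Γ]
  {T : Γ → X → X}

theorem IsAction.qmp (hT : IsAction μ T) (g : Γ) : Measure.QuasiMeasurePreserving (T g) μ μ :=
  (hT.mp g).quasiMeasurePreserving

theorem IsAction.neg_cancel (hT : IsAction μ T) (g : Γ) (x : X) : T (-g) (T g x) = x := by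
  rw [← hT.add, neg_add_cancel, hT.zero]

theorem IsAction.cancel_neg (hT : IsAction μ T) (g : Γ) (x : X) : T g (T (-g) x) = x := by
  rw [← hT.add, add_neg_cancel, hT.zero]

theorem IsAction.comm (hT : IsAction μ T) (g h : Γ) (x : X) : T g (T h x) = T h (T g x) := by
  rw [← hT.add, ← hT.add, add_comm]

/-- ergodicity for sets that are invariant up to null sets -/
theorem IsErgodic.ae_inv [Countable Γ] (hT : IsAction μ T) (hE : IsErgodic μ T) {A : Set X}
    (hA : MeasurableSet A) (h : ∀ g, T g ⁻¹' A =ᵐ[μ] A) : μ A = 0 ∨ μ Aᶜ = 0 := by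
  set B : Set X := ⋂ g, T g ⁻¹' A with hB
  have hBm : MeasurableSet B := MeasurableSet.iInter fun g => (hT.mp g).measurable hA
  have hinv : ∀ g, T g ⁻¹' B = B := by
    intro g
    ext x
    simp only [hB, Set.mem_preimage, Set.mem_iInter]
    constructor
    · intro hx k
      have := hx (k - g)
      rwa [← hT.add, sub_add_cancel] at this
    · intro hx k
      rw [← hT.add]
      exact hx _
  have hBA : B =ᵐ[μ] A := by
    have h1 : B ⊆ A := by
      intro x hx
      have := Set.mem_iInter.1 hx 0
      simpa [hT.zero] using this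
    have h2 : ∀ᵐ x ∂μ, ∀ g, (x ∈ T g ⁻¹' A) = (x ∈ A) := by
      rw [ae_all_iff]
      intro g
      exact h g
    filter_upwards [h2] with x hx
    apply propext
    constructor
    · intro hx1; exact h1 hx1
    · intro hx1
      refine Set.mem_iInter.2 fun g => ?_
      rw [hx g]; exact hx1
  rcases hE B hBm hinv with h0 | h0
  · left; rw [← measure_congr hBA]; exact h0
  · right; rw [← measure_congr hBA.compl]; exact h0

/-- invariant functions are constant -/
theorem IsErgodic.const [Countable Γ] (hT : IsAction μ T) (hE : IsErgodic μ T) {β : Type*}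
    [MeasurableSpace β] [Nonempty β] [MeasurableSpace.CountablySeparated β] {f : X → β}
    (hf : Measurable f) (h : ∀ g, ∀ᵐ x ∂μ, f (T g x) = f x) : ∃ c, ∀ᵐ x ∂μ, f x = c := by
  have := Filter.exists_eventuallyEq_const_of_forall_separating (l := ae μ) (f := f)
    (p := MeasurableSet) (fun U hU => ?_)
  · obtain ⟨c, hc⟩ := this
    exact ⟨c, hc⟩
  · have hA : MeasurableSet (f ⁻¹' U) := hf hU
    rcases hE.ae_inv hT hA (fun g => by
      filter_upwards [h g] with x hx
      apply propext
      show f (T g x) ∈ U ↔ f x ∈ U
      rw [hx]) with h0 | h0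
    · right
      rw [measure_eq_zero_iff_ae_notMem] at h0
      exact h0
    · left
      rw [measure_eq_zero_iff_ae_notMem] at h0
      filter_upwards [h0] with x hx
      by_contra hcon
      exact hx hcon

variable {A : Type w} [AddCommGroup A]

/-- iterated differences -/
def Dl (T : Γ → X → X) : List Γ → (X → A) → X → A
  | [], f => f
  | g :: l, f => Dl T l (fun x => f (T g x) - f x)

omit [AddCommGroup Γ] in
theorem aepoly_iff_Dl (n : ℕ) (f : X → A) :
    AEPoly μ T n f ↔ ∀ l : List Γ, l.length = n → Dl T l f =ᵐ[μ] 0 := by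
  induction n generalizing f with
  | zero =>
    constructor
    · intro h l hl
      rw [List.length_eq_zero_iff] at hl
      subst hl
      exact h
    · intro h
      exact h [] rfl
  | succ n ih =>
    constructor
    · intro h l hl
      rcases l with _ | ⟨g, l⟩
      · simp at hl
      · exact (ih _).1 (h g) l (by simpa using hl)
    · intro h g
      rw [ih]
      intro l hl
      exact h (g :: l) (by simp [hl])

omit [AddCommGroup Γ] [MeasurableSpace X] in
theorem isPoly_iff_Dl (n : ℕ) (f : X → A) :
    IsPoly T n f ↔ ∀ l : List Γ, l.length = n → ∀ x, Dl T l f x = 0 := by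
  induction n generalizing f with
  | zero =>
    constructor
    · intro h l hl
      rw [List.length_eq_zero_iff] at hl
      subst hl
      exact h
    · intro h
      exact h [] rfl
  | succ n ih =>
    constructor
    · intro h l hl
      rcases l with _ | ⟨g, l⟩
      · simp at hl
      · exact (ih _).1 (h g) l (by simpa using hl)
    · intro h g
      rw [ih]
      intro l hl
      exact h (g :: l) (by simp [hl])

omit [AddCommGroup Γ] in
theorem Dl_measurable [MeasurableSpace A] [MeasurableSub₂ A] (hT : ∀ g, Measurable (T g))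
    (l : List Γ) {f : X → A} (hf : Measurable f) : Measurable (Dl T l f) := by
  induction l generalizing f with
  | nil => exact hf
  | cons g l ih => exact ih ((hf.comp (hT g)).sub hf)

/-- An a.e. polynomial agrees a.e. with an everywhere polynomial. -/
theorem AEPoly.exists_isPoly [Countable Γ] [MeasurableSpace A] [MeasurableSub₂ A]
    [MeasurableSingletonClass A] (hT : IsAction μ T) {n : ℕ} {f : X → A} (hfm : Measurable f)
    (hf : AEPoly μ T n f) : ∃ f' : X → A, Measurable f' ∧ f' =ᵐ[μ] f ∧ IsPoly T n f' := by
  classical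
  set X0 : Set X := ⋂ (h : Γ) (l : {l : List Γ // l.length = n}),
    {x | Dl T l.1 f (T h x) = 0} with hX0
  have hX0m : MeasurableSet X0 := by
    refine MeasurableSet.iInter fun h => MeasurableSet.iInter fun l => ?_
    exact ((Dl_measurable (fun g => (hT.mp g).measurable) l.1 hfm).comp (hT.mp h).measurable)
      (measurableSet_singleton 0)
  have hX0ae : ∀ᵐ x ∂μ, x ∈ X0 := by
    simp only [hX0, Set.mem_iInter, Set.mem_ofPred_eq]
    rw [ae_all_iff]; intro h
    rw [ae_all_iff]; intro l
    exact (hT.qmp h).ae ((aepoly_iff_Dl n f).1 hf l.1 l.2)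
  have hinv : ∀ g x, T g x ∈ X0 ↔ x ∈ X0 := by
    intro g x
    simp only [hX0, Set.mem_iInter, Set.mem_ofPred_eq]
    constructor
    · intro hx h l
      have := hx (h - g) l
      rwa [← hT.add, sub_add_cancel] at this
    · intro hx h l
      rw [← hT.add]
      exact hx _ l
  refine ⟨X0.indicator f, hfm.indicator hX0m, ?_, ?_⟩
  · filter_upwards [hX0ae] with x hx
    exact Set.indicator_of_mem hx _
  · rw [isPoly_iff_Dl]
    have key : ∀ (l : List Γ) (f : X → A), Dl T l (X0.indicator f) = X0.indicator (Dl T l f) := by
      intro l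
      induction l with
      | nil => intro f; rfl
      | cons g l ih =>
        intro f
        simp only [Dl]
        rw [← ih]
        congr 1
        funext x
        by_cases hx : x ∈ X0
        · rw [Set.indicator_of_mem hx, Set.indicator_of_mem ((hinv g x).2 hx),
            Set.indicator_of_mem hx]
        · rw [Set.indicator_of_notMem hx, Set.indicator_of_notMem (fun h => hx ((hinv g x).1 h)),
            Set.indicator_of_notMem hx, sub_zero]
    intro l hl x
    rw [key]
    by_cases hx : x ∈ X0
    · rw [Set.indicator_of_mem hx]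
      have h1 := Set.mem_iInter.1 (Set.mem_iInter.1 hx 0) ⟨l, hl⟩
      simpa [hT.zero] using h1
    · rw [Set.indicator_of_notMem hx]

/-- Newton expansion along an orbit. -/
theorem newton_orbit (hT : IsAction μ T) (f : X → A) (g : Γ) (m : ℕ) (x : X) :
    f (T (m • g) x) = ∑ k ∈ Finset.range (m + 1),
      m.choose k • (Dl T (List.replicate k g) f x) := by
  have h1 := shift_eq_sum_fwdDiff_iter g (fun h : Γ => f (T h x)) m 0
  rw [zero_add] at h1
  rw [h1]
  refine Finset.sum_congr rfl fun k _ => ?_
  congr 1
  have key : ∀ (k : ℕ) (f : X → A), (fwdDiff g)^[k] (fun h : Γ => f (T h x)) =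
      fun h => Dl T (List.replicate k g) f (T h x) := by
    intro k
    induction k with
    | zero => intro f; rfl
    | succ k ih =>
      intro f
      rw [Function.iterate_succ_apply, List.replicate_succ]
      simp only [Dl]
      rw [← ih]
      congr 1
      funext h
      simp only [fwdDiff]
      rw [add_comm h g, hT.add]
  rw [key]
  simp only
  rw [hT.zero]

/-- Polynomials of degree `≤ n` for actions of groups of exponent `p` have `p^n f` constant. -/
theorem AEPoly.torsion {p : ℕ} (hp : 0 < p) (hΓ : ∀ g : Γ, p • g = 0) (hT : IsAction μ T)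
    {n : ℕ} {f : X → A} (hf : AEPoly μ T (n + 1) f) :
    ∀ g, ∀ᵐ x ∂μ, p ^ n • (f (T g x) - f x) = 0 := by
  induction n generalizing f with
  | zero =>
    intro g
    have h1 : (fun x => f (T g x) - f x) =ᵐ[μ] 0 := hf g
    filter_upwards [h1] with x hx
    rw [hx]; simp
  | succ n ih =>
    intro g
    -- higher differences
    have h2 : ∀ k : ℕ, AEPoly μ T (n + 1 + 1) (Dl T (List.replicate k g) f) ∧
        (0 < k → AEPoly μ T (n + 1) (Dl T (List.replicate k g) f)) := by
      have hD : ∀ (k : ℕ) (f : X → A), Dl T (List.replicate (k + 1) g) f =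
          fun x => Dl T (List.replicate k g) f (T g x) - Dl T (List.replicate k g) f x := by
        intro k
        induction k with
        | zero => intro f; rfl
        | succ k ihk =>
          intro f
          have e1 : Dl T (List.replicate (k + 1 + 1) g) f =
            Dl T (List.replicate (k + 1) g) (fun x => f (T g x) - f x) := rfl
          have e2 : Dl T (List.replicate (k + 1) g) f =
            Dl T (List.replicate k g) (fun x => f (T g x) - f x) := rfl
          rw [e1, e2, ihk]
      intro k
      induction k with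
      | zero => exact ⟨hf, fun h => absurd h (lt_irrefl 0)⟩
      | succ k ihk =>
        have h3 : AEPoly μ T (n + 1) (Dl T (List.replicate (k + 1) g) f) := by
          rw [hD]
          exact ihk.1 g
        exact ⟨h3.succ hT.qmp, fun _ => h3⟩
    have h4 : ∀ k : ℕ, ∀ᵐ x ∂μ, p ^ n • Dl T (List.replicate (k + 2) g) f x = 0 := by
      intro k
      have h5 := ih ((h2 (k + 1)).2 (Nat.succ_pos k)) g
      have hD : Dl T (List.replicate (k + 1 + 1) g) f =
          fun x => Dl T (List.replicate (k + 1) g) f (T g x) -
            Dl T (List.replicate (k + 1) g) f x := by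
        have : ∀ (k : ℕ) (f : X → A), Dl T (List.replicate (k + 1) g) f =
            fun x => Dl T (List.replicate k g) f (T g x) - Dl T (List.replicate k g) f x := by
          intro k
          induction k with
          | zero => intro f; rfl
          | succ k ihk =>
            intro f
            have e1 : Dl T (List.replicate (k + 1 + 1) g) f =
              Dl T (List.replicate (k + 1) g) (fun x => f (T g x) - f x) := rfl
            have e2 : Dl T (List.replicate (k + 1) g) f =
              Dl T (List.replicate k g) (fun x => f (T g x) - f x) := rfl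
            rw [e1, e2, ihk]
        exact this _ _
      filter_upwards [h5] with x hx
      rw [show k + 2 = k + 1 + 1 from rfl, hD]
      exact hx
    have h6 : ∀ᵐ x ∂μ, ∀ k : ℕ, p ^ n • Dl T (List.replicate (k + 2) g) f x = 0 :=
      ae_all_iff.2 h4
    filter_upwards [h6] with x hx
    have h7 := newton_orbit hT f g p x
    rw [hΓ g, hT.zero] at h7
    obtain ⟨q, rfl⟩ : ∃ q, p = q + 1 := ⟨p - 1, by omega⟩
    rw [Finset.sum_range_succ', Finset.sum_range_succ'] at h7
    have e0 : (q + 1).choose 0 • Dl T (List.replicate 0 g) f x = f x := by simp [Dl]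
    have e1 : (q + 1).choose (0 + 1) • Dl T (List.replicate (0 + 1) g) f x =
        (q + 1) • (f (T g x) - f x) := by simp [Dl]
    rw [e0, e1] at h7
    have h8 : (q + 1) • (f (T g x) - f x) =
        -∑ k ∈ Finset.range q, (q + 1).choose (k + 1 + 1) •
          Dl T (List.replicate (k + 1 + 1) g) f x := by
      have h9 : (0 : A) = ∑ k ∈ Finset.range q, (q + 1).choose (k + 1 + 1) •
          Dl T (List.replicate (k + 1 + 1) g) f x + (q + 1) • (f (T g x) - f x) := by
        have := sub_eq_zero.2 h7
        have h10 : ∀ a b c : A, a - (b + c + a) = -(b + c) := by intro a b c; abel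
        rw [h10] at this
        exact (neg_eq_zero.1 this).symm
      exact eq_neg_of_add_eq_zero_right h9.symm
    rw [pow_succ, mul_smul, h8, smul_neg, Finset.smul_sum, neg_eq_zero]
    refine Finset.sum_eq_zero fun k _ => ?_
    rw [smul_comm, hx k, smul_zero]

end action

end Pool.Agent.FpTrans
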