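import Pool.Agent.FpTrans.Defs2

/-!
# The stability group of a filtration of functions
-/

set_option autoImplicit false
open MeasureTheory Filter Topology

namespace Pool.Agent.FpTrans

universe u v w

section Basic

variable {X : Type u} {ι : Type v} {A : Type w} [AddCommGroup A] {t : ι → X → X}

theorem g_isPoly_zero (n : ℕ) : IsPoly t n (fun _ => (0 : A)) := by
  induction n with
  | zero => intro s; rfl
  | succ n ih => intro i; simpa using ih

theorem g_isPoly_add {n : ℕ} : ∀ {f g : X → A}, IsPoly t n f → IsPoly t n g →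
    IsPoly t n (fun s => f s + g s) := by
  induction n with
  | zero => intro f g hf hg s; simp [hf s, hg s]
  | succ n ih =>
    intro f g hf hg i
    have e : (fun s => (f (t i s) + g (t i s)) - (f s + g s)) =
        fun s => (f (t i s) - f s) + (g (t i s) - g s) := by
      funext s; exact add_sub_add_comm _ _ _ _
    show IsPoly t n (fun s => (f (t i s) + g (t i s)) - (f s + g s))
    rw [e]
    exact ih (hf i) (hg i)

theorem g_isPoly_neg {n : ℕ} : ∀ {f : X → A}, IsPoly t n f → IsPoly t n (fun s => -f s) := by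
  induction n with
  | zero => intro f hf s; simp [hf s]
  | succ n ih =>
    intro f hf i
    have e : (fun s => -f (t i s) - -f s) = fun s => -(f (t i s) - f s) := by
      funext s; rw [neg_sub_neg, neg_sub]
    show IsPoly t n (fun s => -f (t i s) - -f s)
    rw [e]
    exact ih (hf i)

theorem g_isPoly_succ {n : ℕ} : ∀ {f : X → A}, IsPoly t n f → IsPoly t (n + 1) f := by
  induction n with
  | zero =>
    intro f hf i s
    simp [hf s, hf (t i s)]
  | succ n ih =>
    intro f hf i
    exact ih (hf i)

theorem g_isPoly_mono {n m : ℕ} (h : n ≤ m) {f : X → A} (hf : IsPoly t n f) : IsPoly t m f := by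
  induction h with
  | refl => exact hf
  | step _ ih => exact g_isPoly_succ ih

end Basic

section Grp

variable (p : ℕ) {Γ : Type} {K : Type} [AddCommGroup K] [TopologicalSpace K]
  (S : Γ → K → K)

/-- Continuous polynomials of degree `< t`. -/
def gA (t : ℕ) : AddSubgroup (K → ZMod p) where
  carrier := {f | Continuous f ∧ IsPoly (tm S) t f}
  zero_mem' := ⟨continuous_const, g_isPoly_zero t⟩
  add_mem' := by
    intro f g hf hg
    exact ⟨hf.1.add hg.1, g_isPoly_add hf.2 hg.2⟩
  neg_mem' := by
    intro f hf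
    exact ⟨hf.1.neg, g_isPoly_neg hf.2⟩

theorem gA_mono {s t : ℕ} (h : s ≤ t) : gA p S s ≤ gA p S t :=
  fun _ hf => ⟨hf.1, g_isPoly_mono h hf.2⟩

variable [MeasurableSpace K] (ν : Measure K) (D : ℕ)

/-- Good maps. -/
def gQ (u : K → K) : Prop :=
  (∀ t ≤ D + 1, ∀ f ∈ gA p S t, (fun k => f (u k)) ∈ gA p S t ∧
    (fun k => f (u k) - f k) ∈ gA p S (t - 1)) ∧ MeasurePreserving u ν ν

theorem gQ_id : gQ p S ν D (fun k => k) := by
  refine ⟨fun t _ f hf => ⟨hf, ?_⟩, MeasurePreserving.id ν⟩
  have : (fun k => f k - f k) = 0 := by funext k; simp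
  rw [this]
  exact (gA p S (t - 1)).zero_mem

theorem gQ_comp {u v : K → K} (hu : gQ p S ν D u) (hv : gQ p S ν D v) :
    gQ p S ν D (fun k => u (v k)) := by
  refine ⟨fun t ht f hf => ?_, hu.2.comp hv.2⟩
  have h1 := (hu.1 t ht f hf)
  have h2 := (hv.1 t ht _ h1.1)
  refine ⟨h2.1, ?_⟩
  have h3 := (gA p S (t - 1)).add_mem h2.2 h1.2
  convert h3 using 1
  funext k
  simp

/-- The stability group. -/
def gG : Subgroup (Equiv.Perm K) where
  carrier := {u | gQ p S ν D u ∧ gQ p S ν D u.symm}
  one_mem' := ⟨gQ_id p S ν D, gQ_id p S ν D⟩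
  mul_mem' := by
    intro u v hu hv
    have h1 := gQ_comp p S ν D hu.1 hv.1
    have h2 := gQ_comp p S ν D hv.2 hu.2
    exact ⟨h1, h2⟩
  inv_mem' := by
    intro u hu
    exact ⟨hu.2, hu.1⟩

/-- The stability group as a type. -/
def gGrp : Type := gG p S ν D

instance : Group (gGrp p S ν D) := inferInstanceAs (Group (gG p S ν D))

variable {p S ν D}

/-- Underlying permutation. -/
def gGrp.perm (u : gGrp p S ν D) : Equiv.Perm K := u.1

theorem gGrp.ext' {u v : gGrp p S ν D} (h : ∀ k, u.perm k = v.perm k) : u = v :=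
  Subtype.ext (Equiv.ext h)

@[simp] theorem gGrp.mul_perm (u v : gGrp p S ν D) (k : K) :
    (u * v).perm k = u.perm (v.perm k) := rfl

@[simp] theorem gGrp.one_perm (k : K) : (1 : gGrp p S ν D).perm k = k := rfl

@[simp] theorem gGrp.inv_perm (u : gGrp p S ν D) (k : K) : (u⁻¹).perm k = u.perm.symm k := rfl

theorem gGrp.good (u : gGrp p S ν D) : gQ p S ν D u.perm := u.2.1

theorem gGrp.good' (u : gGrp p S ν D) : gQ p S ν D u.perm.symm := u.2.2

variable (p S D) in
/-- The countable discrete set of functions. -/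
def gT : Type := gA p S (D + 1)

instance : TopologicalSpace (gT p S D) := ⊥

instance : DiscreteTopology (gT p S D) := ⟨rfl⟩

/-- action on functions -/
def gGrp.act (u : gGrp p S ν D) (f : gT p S D) : gT p S D :=
  ⟨fun k => f.1 (u.perm k), (u.good.1 (D + 1) le_rfl f.1 f.2).1⟩

/-- The embedding defining the topology. -/
def gPhi (u : gGrp p S ν D) : (gT p S D → gT p S D) × (gT p S D → gT p S D) :=
  (u.act, (u⁻¹).act)

instance : TopologicalSpace (gGrp p S ν D) := TopologicalSpace.induced gPhi inferInstance

theorem gPhi_inducing : IsInducing (gPhi : gGrp p S ν D → _) := ⟨rfl⟩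

theorem continuous_act (f : gT p S D) : Continuous (fun u : gGrp p S ν D => u.act f) :=
  (continuous_apply f).comp (continuous_fst.comp gPhi_inducing.continuous)

theorem continuous_act_inv (f : gT p S D) : Continuous (fun u : gGrp p S ν D => (u⁻¹).act f) :=
  (continuous_apply f).comp (continuous_snd.comp gPhi_inducing.continuous)

theorem continuous_of_act {Z : Type*} [TopologicalSpace Z] {h : Z → gGrp p S ν D}
    (h1 : ∀ f, Continuous (fun z => (h z).act f)) (h2 : ∀ f, Continuous (fun z => ((h z)⁻¹).act f)) :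
    Continuous h := by
  rw [gPhi_inducing.continuous_iff]
  exact (continuous_pi h1).prodMk (continuous_pi h2)

theorem gGrp.act_mul (u v : gGrp p S ν D) (f : gT p S D) : (u * v).act f = v.act (u.act f) := rfl

theorem continuous_act_comp {Z : Type*} [TopologicalSpace Z] {h : Z → gGrp p S ν D}
    {a : Z → gT p S D} (hh : Continuous h) (ha : Continuous a) :
    Continuous (fun z => (h z).act (a z)) := by
  rw [continuous_iff_continuousAt]
  intro z0
  have h1 : ContinuousAt (fun z => (h z).act (a z0)) z0 :=
    ((continuous_act (a z0)).comp hh).continuousAt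
  refine h1.congr ?_
  have h2 : ∀ᶠ z in 𝓝 z0, a z = a z0 := by
    have := ha.continuousAt (x := z0)
    have h3 := this.eventually (IsOpen.mem_nhds (isOpen_discrete {a z0}) rfl)
    exact h3
  filter_upwards [h2] with z hz
  rw [hz]

theorem continuous_gInv : Continuous (fun u : gGrp p S ν D => u⁻¹) := by
  apply continuous_of_act
  · intro f
    exact continuous_act_inv f
  · intro f
    simpa using continuous_act f

instance : IsTopologicalGroup (gGrp p S ν D) where
  continuous_mul := by
    apply continuous_of_act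
    · intro f
      have h1 : Continuous (fun z : gGrp p S ν D × gGrp p S ν D => z.1.act f) :=
        (continuous_act f).comp continuous_fst
      have h2 : Continuous (fun z : gGrp p S ν D × gGrp p S ν D => z.2.act (z.1.act f)) :=
        continuous_act_comp continuous_snd h1
      exact h2
    · intro f
      have : (fun z : gGrp p S ν D × gGrp p S ν D => ((z.1 * z.2)⁻¹).act f) =
          fun z => (z.1⁻¹).act ((z.2⁻¹).act f) := by
        funext z
        rw [mul_inv_rev, gGrp.act_mul]
      rw [this]
      have h1 : Continuous (fun z : gGrp p S ν D × gGrp p S ν D => (z.2⁻¹).act f) :=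
        (continuous_act_inv f).comp continuous_snd
      have h2 : Continuous (fun z : gGrp p S ν D × gGrp p S ν D => z.1⁻¹) :=
        continuous_gInv.comp continuous_fst
      exact continuous_act_comp h2 h1
  continuous_inv := continuous_gInv

/-! ### The filtration -/

theorem gGrp.comp_mem (u : gGrp p S ν D) {t : ℕ} (ht : t ≤ D + 1) {f : K → ZMod p}
    (hf : f ∈ gA p S t) : (fun k => f (u.perm k)) ∈ gA p S t :=
  (u.good.1 t ht f hf).1

variable (p S ν D) in
/-- The filtration. -/
def gF (n : ℕ) : Subgroup (gGrp p S ν D) where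
  carrier := {u | ∀ t ≤ D + 1, ∀ f ∈ gA p S t, (fun k => f (u.perm k) - f k) ∈ gA p S (t - n)}
  one_mem' := by
    intro t _ f _
    have : (fun k => f ((1 : gGrp p S ν D).perm k) - f k) = 0 := by funext k; simp
    rw [this]
    exact (gA p S (t - n)).zero_mem
  mul_mem' := by
    intro u v hu hv t ht f hf
    have h1 := v.comp_mem ((Nat.sub_le t n).trans ht) (hu t ht f hf)
    have h2 := (gA p S (t - n)).add_mem h1 (hv t ht f hf)
    convert h2 using 1
    funext k
    simp
  inv_mem' := by
    intro u hu t ht f hf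
    have h1 := (u⁻¹).comp_mem ((Nat.sub_le t n).trans ht) (hu t ht f hf)
    have h2 := (gA p S (t - n)).neg_mem h1
    convert h2 using 1
    funext k
    simp

theorem gF_comm (i j : ℕ) : ⁅gF p S ν D i, gF p S ν D j⁆ ≤ gF p S ν D (i + j) := by
  rw [Subgroup.commutator_le]
  intro u hu v hv t ht f hf
  -- `h = f u v - f v u`
  have h1 : (fun k => (f (u.perm (v.perm k)) - f (v.perm k)) - (f (u.perm k) - f k)) ∈
      gA p S (t - i - j) := hv (t - i) ((Nat.sub_le t i).trans ht) _ (hu t ht f hf)
  have h2 : (fun k => (f (v.perm (u.perm k)) - f (u.perm k)) - (f (v.perm k) - f k)) ∈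
      gA p S (t - j - i) := hu (t - j) ((Nat.sub_le t j).trans ht) _ (hv t ht f hf)
  have e1 : t - i - j = t - (i + j) := by omega
  have e2 : t - j - i = t - (i + j) := by omega
  rw [e1] at h1
  rw [e2] at h2
  have h3 := (gA p S (t - (i + j))).sub_mem h1 h2
  have h4 := (u⁻¹ * v⁻¹).comp_mem ((Nat.sub_le t (i + j)).trans ht) h3
  convert h4 using 1
  funext k
  simp only [commutatorElement_def, gGrp.mul_perm, gGrp.inv_perm, Pi.sub_apply,
    Equiv.apply_symm_apply]
  abel

theorem gF_isClosed (n : ℕ) : IsClosed (gF p S ν D n : Set (gGrp p S ν D)) := by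
  have : (gF p S ν D n : Set (gGrp p S ν D)) = ⋂ (t : ℕ) (ht : t ≤ D + 1) (f : K → ZMod p)
      (hf : f ∈ gA p S t), (fun u : gGrp p S ν D => u.act ⟨f, gA_mono p S ht hf⟩) ⁻¹'
        {h : gT p S D | (fun k => h.1 k - f k) ∈ gA p S (t - n)} := by
    ext u
    simp only [Set.mem_iInter]
    rfl
  rw [this]
  refine isClosed_iInter fun t => isClosed_iInter fun ht => isClosed_iInter fun f =>
    isClosed_iInter fun hf => ?_
  exact (isClosed_discrete _).preimage (continuous_act _)

theorem gF_isFiltration (hsep : ∀ x y : K, (∀ f : gT p S D, f.1 x = f.1 y) → x = y) :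
    IsFiltration (gF p S ν D) D where
  closed := gF_isClosed
  zero := by
    rw [eq_top_iff]
    intro u _ t ht f hf
    exact gA_mono p S (Nat.sub_le_sub_left (Nat.zero_le 1) t) (u.good.1 t ht f hf).2
  one := by
    rw [eq_top_iff]
    intro u _ t ht f hf
    exact (u.good.1 t ht f hf).2
  anti := by
    intro m n hmn u hu t ht f hf
    exact gA_mono p S (Nat.sub_le_sub_left hmn t) (hu t ht f hf)
  comm := gF_comm
  bot := by
    rw [eq_bot_iff]
    intro u hu
    rw [Subgroup.mem_bot]
    apply gGrp.ext'
    intro k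
    rw [gGrp.one_perm]
    apply hsep
    intro f
    have h1 := (hu (D + 1) le_rfl f.1 f.2).2
    rw [Nat.sub_self] at h1
    exact sub_eq_zero.1 (h1 k)

/-! ### Countability of the set of functions -/

omit [MeasurableSpace K] in
theorem countable_gT [Fact p.Prime] [CompactSpace K] [T2Space K] [SecondCountableTopology K]
    [TotallyDisconnectedSpace K] : Countable (gT p S D) := by
  have : Countable (TopologicalSpace.Clopens K) :=
    TopologicalSpace.Clopens.countable_iff_secondCountable.2 inferInstance
  let F : gT p S D → (ZMod p → TopologicalSpace.Clopens K) := fun f c =>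
    ⟨f.1 ⁻¹' {c}, (isClopen_discrete {c}).preimage f.2.1⟩
  have hF : Function.Injective F := by
    intro f g h
    apply Subtype.ext
    funext k
    have h1 := congrFun h (f.1 k)
    have h2 : k ∈ (F f (f.1 k) : Set K) := rfl
    rw [h1] at h2
    exact h2.symm
  exact hF.countable

/-! ### Closed range -/

theorem gPhi_injective (hsep : ∀ x y : K, (∀ f : gT p S D, f.1 x = f.1 y) → x = y) :
    Function.Injective (gPhi : gGrp p S ν D → _) := by
  intro u v h
  apply gGrp.ext'
  intro k
  apply hsep
  intro f
  have h1 : u.act = v.act := congrArg Prod.fst h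
  have h2 := congrArg Subtype.val (congrFun h1 f)
  exact congrFun h2 k

theorem gPhi_approx {x : (gT p S D → gT p S D) × (gT p S D → gT p S D)}
    (hx : x ∈ closure (Set.range (gPhi : gGrp p S ν D → _))) (s : Finset (gT p S D)) :
    ∃ u : gGrp p S ν D, ∀ f ∈ s, u.act f = x.1 f ∧ (u⁻¹).act f = x.2 f := by
  have hopen : IsOpen {y : (gT p S D → gT p S D) × (gT p S D → gT p S D) |
      ∀ f ∈ s, y.1 f = x.1 f ∧ y.2 f = x.2 f} := by
    have : {y : (gT p S D → gT p S D) × (gT p S D → gT p S D) |
      ∀ f ∈ s, y.1 f = x.1 f ∧ y.2 f = x.2 f} = ⋂ f ∈ s,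
        ((fun y : (gT p S D → gT p S D) × (gT p S D → gT p S D) => (y.1 f, y.2 f)) ⁻¹'
          {(x.1 f, x.2 f)}) := by
      ext y
      simp
    rw [this]
    apply isOpen_biInter_finset
    intro f _
    refine (isOpen_discrete _).preimage ?_
    exact ((continuous_apply f).comp continuous_fst).prodMk
      ((continuous_apply f).comp continuous_snd)
  rw [mem_closure_iff] at hx
  obtain ⟨_, h1, ⟨u, rfl⟩⟩ := hx _ hopen (by simp)
  exact ⟨u, h1⟩

/-- A pointwise limit of elements of the group. -/
theorem gLimit [Fact p.Prime] [CompactSpace K]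
    {β : gT p S D → gT p S D} (h : ∀ s : Finset (gT p S D), ∃ u : gGrp p S ν D,
      ∀ f ∈ s, u.act f = β f) :
    ∃ a : K → K, ∀ (f : gT p S D) k, f.1 (a k) = (β f).1 k := by
  classical
  choose U hU using h
  let 𝒰 : Ultrafilter (Finset (gT p S D)) := Ultrafilter.of atTop
  have h𝒰 : (𝒰 : Filter (Finset (gT p S D))) ≤ atTop := Ultrafilter.of_le atTop
  have hlim : ∀ k : K, ∃ x : K, Tendsto (fun s => (U s).perm k) 𝒰 (𝓝 x) := by
    intro k
    obtain ⟨x, -, hx⟩ := isCompact_univ.ultrafilter_le_nhds
      (𝒰.map (fun s => (U s).perm k)) (by simp)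
    exact ⟨x, hx⟩
  choose a ha using hlim
  refine ⟨a, fun f k => ?_⟩
  have h1 : Tendsto (fun s => f.1 ((U s).perm k)) 𝒰 (𝓝 (f.1 (a k))) :=
    (f.2.1.tendsto _).comp (ha k)
  have h2 : ∀ᶠ s in (𝒰 : Filter _), (β f).1 k = f.1 ((U s).perm k) := by
    have h3 : ∀ᶠ s : Finset (gT p S D) in atTop, {f} ≤ s := eventually_ge_atTop _
    filter_upwards [h𝒰 h3] with s hs
    have h4 := hU s f (hs (Finset.mem_singleton_self f))
    rw [← h4]
    rfl
  exact tendsto_nhds_unique h1 (tendsto_const_nhds.congr' h2)

theorem gQ_of_approx {a : K → K} {β : gT p S D → gT p S D}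
    (h : ∀ s : Finset (gT p S D), ∃ u : gGrp p S ν D, ∀ f ∈ s, u.act f = β f)
    (ha : ∀ (f : gT p S D) k, f.1 (a k) = (β f).1 k) (hmp : MeasurePreserving a ν ν) :
    gQ p S ν D a := by
  refine ⟨fun t ht f hf => ?_, hmp⟩
  obtain ⟨u, hu⟩ := h {⟨f, gA_mono p S ht hf⟩}
  have h1 := hu ⟨f, gA_mono p S ht hf⟩ (Finset.mem_singleton_self _)
  have h2 : (fun k => f (a k)) = fun k => f (u.perm k) := by
    funext k
    have := ha ⟨f, gA_mono p S ht hf⟩ k
    rw [← h1] at this
    exact this
  have h3 : (fun k => f (a k) - f k) = fun k => f (u.perm k) - f k := by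
    funext k
    rw [congrFun h2 k]
  rw [h2, h3]
  exact u.good.1 t ht f hf

theorem mp_of_approx [Fact p.Prime] [CompactSpace K] [T2Space K] [BorelSpace K]
    [IsProbabilityMeasure ν] {J : Type} [Countable J]
    {w : J → K → ZMod p} (hwc : ∀ j, Continuous (w j))
    (hsep : ∀ x y, (∀ j, w j x = w j y) → x = y) {a : K → K} (hac : Continuous a)
    (h : ∀ s : Finset J, ∃ u : K → K, MeasurePreserving u ν ν ∧ ∀ j ∈ s, ∀ k, w j (a k) = w j (u k))
    : MeasurePreserving a ν ν := by
  classical
  set W : K → (J → ZMod p) := fun k j => w j k with hW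
  have hWc : Continuous W := continuous_pi hwc
  have hWi : Function.Injective W := fun x y hxy => hsep x y fun j => congrFun hxy j
  have hWe : IsClosedEmbedding W := hWc.isClosedEmbedding hWi
  refine ⟨hac.measurable, ?_⟩
  have hme : MeasurableEmbedding W := hWe.measurableEmbedding
  have key : (ν.map a).map W = ν.map W := by
    have h1 : IsProjectiveLimit ((ν.map a).map W) (fun s => (ν.map W).map s.restrict) := by
      intro s
      obtain ⟨u, hu, hju⟩ := h s
      rw [Measure.map_map hme.measurable hac.measurable,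
        Measure.map_map (Finset.measurable_restrict s) (hme.measurable.comp hac.measurable)]
      have e : (s.restrict ∘ W ∘ a : K → (s → ZMod p)) = s.restrict ∘ W ∘ u := by
        funext k j
        exact hju j.1 j.2 k
      rw [e, ← Measure.map_map (Finset.measurable_restrict s) (hme.measurable.comp hu.measurable),
        ← Measure.map_map hme.measurable hu.measurable, hu.map_eq]
    have h2 : IsProjectiveLimit (ν.map W) (fun s => (ν.map W).map s.restrict) := by
      intro s
      rfl
    have : IsProbabilityMeasure (ν.map W) := Measure.isProbabilityMeasure_map hme.measurable.aemeasurable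
    have : ∀ s : Finset J, IsFiniteMeasure ((ν.map W).map s.restrict : Measure (s → ZMod p)) := by
      intro s
      infer_instance
    exact h1.unique h2
  have h3 := congrArg (Measure.comap W) key
  rwa [hme.comap_map, hme.comap_map] at h3

/-! ### Data: a separating family of characters -/

/-- characters as elements of `gT` -/
def gw {J : Type} {w : J → K →+ ZMod p} (hwc : ∀ j, Continuous (w j))
    (hw : ∀ j, IsPoly (tm S) (D + 1) (w j)) (j : J) : gT p S D := ⟨w j, hwc j, hw j⟩

omit [TopologicalSpace K] [MeasurableSpace K] in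
theorem g_sep {J : Type} {w : J → K →+ ZMod p} (hsep : ∀ k, (∀ j, w j k = 0) → k = 0) :
    ∀ x y, (∀ j, w j x = w j y) → x = y := by
  intro x y h
  apply sub_eq_zero.1
  apply hsep
  intro j
  rw [map_sub, h j, sub_self]

theorem g_isInducing [CompactSpace K] [T2Space K] {J : Type} {w : J → K →+ ZMod p}
    (hwc : ∀ j, Continuous (w j)) (hsep : ∀ k, (∀ j, w j k = 0) → k = 0) :
    IsClosedEmbedding (fun k j => w j k : K → J → ZMod p) :=
  (continuous_pi hwc).isClosedEmbedding fun x y hxy => g_sep hsep x y fun j => congrFun hxy j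

theorem g_continuous_limit [CompactSpace K] [T2Space K] {J : Type} {w : J → K →+ ZMod p}
    (hwc : ∀ j, Continuous (w j)) (hsep : ∀ k, (∀ j, w j k = 0) → k = 0)
    (hw : ∀ j, IsPoly (tm S) (D + 1) (w j)) {a : K → K} {β : gT p S D → gT p S D}
    (ha : ∀ (f : gT p S D) k, f.1 (a k) = (β f).1 k) : Continuous a := by
  rw [(g_isInducing hwc hsep).isInducing.continuous_iff]
  refine continuous_pi fun j => ?_
  have h1 : (fun k => w j (a k)) = (β (gw hwc hw j)).1 := by
    funext k
    exact ha (gw hwc hw j) k
  show Continuous (fun k => w j (a k))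
  rw [h1]
  exact (β (gw hwc hw j)).2.1

theorem gQ_limit [Fact p.Prime] [CompactSpace K] [T2Space K] [BorelSpace K]
    [IsProbabilityMeasure ν] {J : Type} [Countable J] {w : J → K →+ ZMod p}
    (hwc : ∀ j, Continuous (w j)) (hsep : ∀ k, (∀ j, w j k = 0) → k = 0)
    (hw : ∀ j, IsPoly (tm S) (D + 1) (w j)) {a : K → K} {β : gT p S D → gT p S D}
    (h : ∀ s : Finset (gT p S D), ∃ u : gGrp p S ν D, ∀ f ∈ s, u.act f = β f)
    (ha : ∀ (f : gT p S D) k, f.1 (a k) = (β f).1 k) : gQ p S ν D a := by
  classical
  apply gQ_of_approx h ha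
  apply mp_of_approx (w := fun j k => w j k) hwc (g_sep hsep) (g_continuous_limit hwc hsep hw ha)
  intro s
  obtain ⟨u, hu⟩ := h (s.image (gw hwc hw))
  refine ⟨u.perm, u.good.2, fun j hj k => ?_⟩
  have h1 := hu (gw hwc hw j) (Finset.mem_image_of_mem _ hj)
  have h2 := ha (gw hwc hw j) k
  rw [← h1] at h2
  exact h2

theorem gPhi_closed [Fact p.Prime] [CompactSpace K] [T2Space K] [BorelSpace K]
    [IsProbabilityMeasure ν] {J : Type} [Countable J] {w : J → K →+ ZMod p}
    (hwc : ∀ j, Continuous (w j)) (hsep : ∀ k, (∀ j, w j k = 0) → k = 0)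
    (hw : ∀ j, IsPoly (tm S) (D + 1) (w j)) :
    IsClosed (Set.range (gPhi : gGrp p S ν D → _)) := by
  classical
  rw [← closure_subset_iff_isClosed]
  intro x hx
  have key := gPhi_approx hx
  have h1 : ∀ s : Finset (gT p S D), ∃ u : gGrp p S ν D, ∀ f ∈ s, u.act f = x.1 f := by
    intro s
    obtain ⟨u, hu⟩ := key s
    exact ⟨u, fun f hf => (hu f hf).1⟩
  have h2 : ∀ s : Finset (gT p S D), ∃ u : gGrp p S ν D, ∀ f ∈ s, u.act f = x.2 f := by
    intro s
    obtain ⟨u, hu⟩ := key s
    exact ⟨u⁻¹, fun f hf => (hu f hf).2⟩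
  obtain ⟨a, ha⟩ := gLimit h1
  obtain ⟨b, hb⟩ := gLimit h2
  have h12 : ∀ f, x.1 (x.2 f) = f := by
    intro f
    obtain ⟨u, hu⟩ := key {f, x.2 f}
    have h3 := (hu f (by simp)).2
    have h4 := (hu (x.2 f) (by simp)).1
    rw [← h4, ← h3, ← gGrp.act_mul, inv_mul_cancel]
    rfl
  have h21 : ∀ f, x.2 (x.1 f) = f := by
    intro f
    obtain ⟨u, hu⟩ := key {f, x.1 f}
    have h3 := (hu f (by simp)).1
    have h4 := (hu (x.1 f) (by simp)).2
    rw [← h4, ← h3, ← gGrp.act_mul, mul_inv_cancel]
    rfl
  have hsepT : ∀ x y : K, (∀ f : gT p S D, f.1 x = f.1 y) → x = y :=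
    fun x y h => g_sep hsep x y fun j => h (gw hwc hw j)
  have hab : ∀ k, a (b k) = k := by
    intro k
    apply hsepT
    intro f
    rw [ha, hb, h21]
  have hba : ∀ k, b (a k) = k := by
    intro k
    apply hsepT
    intro f
    rw [hb, ha, h12]
  refine ⟨⟨⟨a, b, hba, hab⟩, gQ_limit hwc hsep hw h1 ha, gQ_limit hwc hsep hw h2 hb⟩, ?_⟩
  apply Prod.ext
  · funext f
    apply Subtype.ext
    funext k
    exact ha f k
  · funext f
    apply Subtype.ext
    funext k
    exact hb f k

/-! ### Elements of the group -/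

theorem gQ_of_tm (i : K ⊕ Γ) (hc : Continuous (tm S i)) (hmp : MeasurePreserving (tm S i) ν ν) :
    gQ p S ν D (tm S i) := by
  refine ⟨fun t ht f hf => ?_, hmp⟩
  have h1 : (fun k => f (tm S i k) - f k) ∈ gA p S (t - 1) := by
    refine ⟨(hf.1.comp hc).sub hf.1, ?_⟩
    rcases t with _ | n
    · intro k
      have h0 : ∀ k, f k = 0 := hf.2
      show f (tm S i k) - f k = 0
      rw [h0, h0, sub_self]
    · exact hf.2 i
  refine ⟨?_, h1⟩
  have h2 := (gA p S t).add_mem (gA_mono p S (Nat.sub_le t 1) h1) hf
  convert h2 using 1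
  funext k
  simp

end Grp

theorem exists_group (p : ℕ) [Fact p.Prime] (Γ : Type) [AddCommGroup Γ]
    (K : Type) [AddCommGroup K] [TopologicalSpace K] [IsTopologicalAddGroup K] [CompactSpace K]
    [T2Space K] [SecondCountableTopology K] [MeasurableSpace K] [BorelSpace K]
    (ν : Measure K) [IsProbabilityMeasure ν] [ν.IsAddLeftInvariant] (S : Γ → K → K)
    (hS : IsAction ν S) (hSc : ∀ g, Continuous (S g))
    (J : Type) [Countable J] (w : J → K →+ ZMod p) (hwc : ∀ j, Continuous (w j))
    (hsep : ∀ k, (∀ j, w j k = 0) → k = 0) (D : ℕ) (hw : ∀ j, IsPoly (tm S) (D + 1) (w j)) :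
    ∃ (G : Type) (_ : Group G) (_ : TopologicalSpace G) (_ : IsTopologicalGroup G)
      (_ : PolishSpace G) (F : ℕ → Subgroup G) (_ : IsFiltration F D)
      (L : Subgroup G) (_ : IsClosed (L : Set G))
      (φ : Multiplicative Γ →* G) (e : G ⧸ L ≃ₜ K),
      (∀ g y, e (φ (Multiplicative.ofAdd g) • y) = S g (e y)) ∧
      ∀ g : G, MeasurePreserving (fun k => e (g • e.symm k)) ν ν := by
  classical
  have hce := g_isInducing hwc hsep
  have hsepT : ∀ x y : K, (∀ f : gT p S D, f.1 x = f.1 y) → x = y :=
    fun x y h => g_sep hsep x y fun j => h (gw hwc hw j)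
  have htd : TotallyDisconnectedSpace K := by
    rw [← hce.isEmbedding.isTotallyDisconnected_range]
    exact isTotallyDisconnected_of_totallyDisconnectedSpace _
  have hcT : Countable (gT p S D) := countable_gT
  have hpol : PolishSpace (gGrp p S ν D) := by
    have h1 : PolishSpace (gT p S D → gT p S D) := { }
    have h2 : PolishSpace ((gT p S D → gT p S D) × (gT p S D → gT p S D)) := { }
    have h3 : IsClosedEmbedding (gPhi : gGrp p S ν D → _) :=
      ⟨⟨gPhi_inducing, gPhi_injective hsepT⟩, gPhi_closed hwc hsep hw⟩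
    exact h3.polishSpace
  -- translations
  have hadd : ∀ a : K, gQ p S ν D (tm S (.inl a)) := by
    intro a
    apply gQ_of_tm
    · exact continuous_id.add continuous_const
    · have h1 := measurePreserving_add_left ν a
      have h2 : (fun k => a + k) = (tm S (.inl a) : K → K) := by
        funext k
        exact add_comm a k
      rwa [h2] at h1
  let τ : K → gGrp p S ν D := fun a =>
    ⟨⟨tm S (.inl a), tm S (.inl (-a)), fun k => by simp [tm], fun k => by simp [tm]⟩,
      hadd a, hadd (-a)⟩
  have hSg : ∀ g : Γ, gQ p S ν D (tm S (.inr g)) := fun g => gQ_of_tm _ (hSc g) (hS.mp g)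
  let σ : Γ → gGrp p S ν D := fun g =>
    ⟨⟨tm S (.inr g), tm S (.inr (-g)), fun k => by simp [tm, ← hS.add, hS.zero],
      fun k => by simp [tm, ← hS.add, hS.zero]⟩, hSg g, hSg (-g)⟩
  let L : Subgroup (gGrp p S ν D) :=
    { carrier := {u | u.perm 0 = 0}
      one_mem' := rfl
      mul_mem' := by
        intro u v hu hv
        show u.perm (v.perm 0) = 0
        rw [show v.perm 0 = 0 from hv, show u.perm 0 = 0 from hu]
      inv_mem' := by
        intro u hu
        show u.perm.symm 0 = 0
        rw [Equiv.symm_apply_eq]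
        exact (show u.perm 0 = 0 from hu).symm }
  have hev : Continuous (fun u : gGrp p S ν D => u.perm 0) := by
    rw [hce.isInducing.continuous_iff]
    refine continuous_pi fun j => ?_
    have h1 : Continuous (fun f : gT p S D => f.1 0) := continuous_of_discreteTopology
    exact h1.comp (continuous_act (gw hwc hw j))
  have hLc : IsClosed (L : Set (gGrp p S ν D)) := isClosed_singleton.preimage hev
  let φ : Multiplicative Γ →* gGrp p S ν D :=
    { toFun := fun g => σ (Multiplicative.toAdd g)
      map_one' := gGrp.ext' fun k => hS.zero k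
      map_mul' := fun g h => gGrp.ext' fun k => hS.add _ _ k }
  have hτ : Continuous τ := by
    have hτ1 : ∀ f : gT p S D, Continuous (fun a => (τ a).act f) := by
      intro f
      rw [continuous_iff_continuousAt]
      intro a0
      have h1 : ∀ᶠ a in 𝓝 a0, (τ a0).act f = (τ a).act f := by
        have hn : IsOpen {z : K × K | f.1 (z.1 + z.2) = f.1 (z.1 + a0)} := by
          have h2 : Continuous (fun z : K × K => (f.1 (z.1 + z.2), f.1 (z.1 + a0))) :=
            (f.2.1.comp (continuous_fst.add continuous_snd)).prodMk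
              (f.2.1.comp (continuous_fst.add continuous_const))
          exact (isOpen_discrete {q : ZMod p × ZMod p | q.1 = q.2}).preimage h2
        obtain ⟨U, V, hU, hV, hU1, hV1, hUV⟩ := generalized_tube_lemma
          (isCompact_univ : IsCompact (Set.univ : Set K)) (isCompact_singleton (x := a0)) hn (by
            rintro ⟨k, a⟩ ⟨-, ha⟩
            have ha' : a = a0 := ha
            show f.1 (k + a) = f.1 (k + a0)
            rw [ha'])
        filter_upwards [hV.mem_nhds (hV1 rfl)] with a ha
        apply Subtype.ext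
        funext k
        have : (k, a) ∈ U ×ˢ V := ⟨hU1 trivial, ha⟩
        exact (hUV this).symm
      exact continuousAt_const.congr h1
    apply continuous_of_act hτ1
    intro f
    exact (hτ1 f).comp continuous_neg
  let e : (gGrp p S ν D) ⧸ L ≃ₜ K :=
    { toFun := Quotient.lift (fun u : gGrp p S ν D => u.perm 0) (by
        intro u v huv
        have h1 : u⁻¹ * v ∈ L := QuotientGroup.leftRel_apply.1 huv
        have h2 : u.perm.symm (v.perm 0) = 0 := h1
        rw [Equiv.symm_apply_eq] at h2
        exact h2.symm)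
      invFun := fun k => (τ k : (gGrp p S ν D) ⧸ L)
      left_inv := by
        intro y
        induction y using QuotientGroup.induction_on with
        | H u =>
          apply QuotientGroup.eq.2
          show ((τ (u.perm 0))⁻¹ * u).perm 0 = 0
          show u.perm 0 + -(u.perm 0) = 0
          exact add_neg_cancel _
      right_inv := by
        intro k
        show (0 : K) + k = k
        exact zero_add k
      continuous_toFun := hev.quotient_lift _
      continuous_invFun := continuous_quot_mk.comp hτ }
  refine ⟨gGrp p S ν D, inferInstance, inferInstance, inferInstance, hpol, gF p S ν D,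
    gF_isFiltration hsepT, L, hLc, φ, e, ?_, ?_⟩
  · intro g y
    induction y using QuotientGroup.induction_on with
    | H u => rfl
  · intro g
    have h1 : (fun k => e (g • e.symm k)) = g.perm := by
      funext k
      show g.perm ((0 : K) + k) = g.perm k
      rw [zero_add]
    rw [h1]
    exact g.good.2

end Pool.Agent.FpTrans
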