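import Pool.Agent.FpTrans.Defs2

/-!
# A factor map whose functions are dense in `L²` is an isomorphism
-/

set_option autoImplicit false
open MeasureTheory Filter Topology

namespace Pool.Agent.FpTrans

universe u v w

theorem exists_inverse {X : Type u} [MeasurableSpace X] [StandardBorelSpace X] (μ : Measure X)
    [IsProbabilityMeasure μ] {K : Type v} [MeasurableSpace K] [StandardBorelSpace K]
    (ν : Measure K) (a : X → K) (ha : MeasurePreserving a μ ν)
    (hd : Dense {f : Lp ℂ 2 μ | ∃ h : K → ℂ, Measurable h ∧ f =ᵐ[μ] fun x => h (a x)}) :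
    ∃ b : K → X, Measurable b ∧ (∀ᵐ x ∂μ, b (a x) = x) ∧ ∀ᵐ y ∂ν, a (b y) = y := by
  have hne : Nonempty X := μ.nonempty_of_neZero
  -- the set of captured functions is closed
  have hm : MeasurableSpace.comap a inferInstance ≤ (inferInstance : MeasurableSpace X) :=
    ha.measurable.comap_le
  have : Fact ((1 : ENNReal) ≤ 2) := ⟨by norm_num⟩
  have hcl : IsClosed {f : Lp ℂ 2 μ |
      AEStronglyMeasurable[MeasurableSpace.comap a inferInstance] f μ} :=
    isClosed_aestronglyMeasurable hm
  have hall : ∀ f : Lp ℂ 2 μ,
      AEStronglyMeasurable[MeasurableSpace.comap a inferInstance] f μ := by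
    intro f
    have h1 : f ∈ closure {f : Lp ℂ 2 μ | ∃ h : K → ℂ, Measurable h ∧
        f =ᵐ[μ] fun x => h (a x)} := by
      rw [hd.closure_eq]; trivial
    refine closure_minimal ?_ hcl h1
    rintro f ⟨h, hh, hf⟩
    refine AEStronglyMeasurable.congr ?_ hf.symm
    have h2 : Measurable[MeasurableSpace.comap a inferInstance] (fun x => h (a x)) :=
      hh.comp (comap_measurable a)
    exact h2.stronglyMeasurable.aestronglyMeasurable
  -- an injective bounded function
  obtain ⟨ι, hι⟩ := MeasureTheory.exists_measurableEmbedding_real X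
  set j : X → ℂ := fun x => ((Real.arctan (ι x) : ℝ) : ℂ) with hj
  have hjm : Measurable j := Complex.measurable_ofReal.comp (Real.measurable_arctan.comp hι.measurable)
  have hji : Function.Injective j := by
    intro x y hxy
    have h1 : Real.arctan (ι x) = Real.arctan (ι y) := Complex.ofReal_injective hxy
    exact hι.injective (Real.arctan_injective h1)
  have hje : MeasurableEmbedding j := hjm.measurableEmbedding hji
  have hjL : MemLp j 2 μ := by
    apply MemLp.of_bound hjm.aestronglyMeasurable (Real.pi / 2)
    refine Eventually.of_forall fun x => ?_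
    rw [hj]
    simp only [Complex.norm_real, Real.norm_eq_abs]
    exact abs_le.2 ⟨(Real.neg_pi_div_two_lt_arctan _).le, (Real.arctan_lt_pi_div_two _).le⟩
  have h3 := hall (hjL.toLp j)
  obtain ⟨g, hg, hgj⟩ := h3
  obtain ⟨h, hh, hgh⟩ := hg.exists_eq_measurable_comp
  have hjh : ∀ᵐ x ∂μ, j x = h (a x) := by
    filter_upwards [hgj, hjL.coeFn_toLp] with x h4 h5
    rw [← h5, h4, hgh]
    rfl
  have hb : Measurable (fun y => hje.invFun (h y)) := hje.measurable_invFun.comp hh.measurable
  have hba : ∀ᵐ x ∂μ, hje.invFun (h (a x)) = x := by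
    filter_upwards [hjh] with x hx
    rw [← hx]
    exact hje.leftInverse_invFun x
  refine ⟨fun y => hje.invFun (h y), hb, hba, ?_⟩
  have hab : Measurable (fun y => a (hje.invFun (h y))) := ha.measurable.comp hb
  have hms : MeasurableSet {y | a (hje.invFun (h y)) = y} := measurableSet_eq_fun hab measurable_id
  rw [← ha.map_eq]
  rw [ae_map_iff ha.measurable.aemeasurable hms]
  filter_upwards [hba] with x hx
  rw [hx]

end Pool.Agent.FpTrans
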