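import Pool.Agent.FpTrans.StageB

/-!
# P4 (helper19): the theorem `stage`
-/

set_option autoImplicit false
set_option linter.unusedSectionVars false
open MeasureTheory Filter Topology

namespace Pool.Agent.FpTrans

universe u v w

section good

variable {Γ : Type} [AddCommGroup Γ] [Countable Γ] {X : Type u} [MeasurableSpace X]
  {K : Type v} [MeasurableSpace K]

/-- the group of the polynomials considered in a stage -/
def st_H (μ : Measure X) (T : Γ → X → X) (a : X → K) (p R n : ℕ) [Fact p.Prime] :
    AddSubgroup (X → ZMod (p ^ (R + 1))) where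
  carrier := {Q | Measurable Q ∧ AEPoly μ T n Q ∧ (∀ g, Capt μ a fun x => Q (T g x) - Q x) ∧
    Capt μ a fun x => p • Q x}
  zero_mem' := by
    refine ⟨measurable_const, st_poly_zero n, fun g => ?_, ?_⟩
    · simpa using st_capt_const (μ := μ) (a := a) (0 : ZMod (p ^ (R + 1)))
    · simpa using st_capt_const (μ := μ) (a := a) (0 : ZMod (p ^ (R + 1)))
  add_mem' := by
    rintro Q Q' ⟨h1, h2, h3, h4⟩ ⟨h1', h2', h3', h4'⟩
    refine ⟨h1.add h1', st_poly_add n h2 h2', fun g => ?_, ?_⟩
    · have h := (st_capt μ a (p ^ (R + 1))).add_mem (h3 g) (h3' g)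
      have e : (fun x => (Q + Q') (T g x) - (Q + Q') x) =
          (fun x => Q (T g x) - Q x) + fun x => Q' (T g x) - Q' x := by
        funext x
        simp only [Pi.add_apply]
        abel
      rw [e]
      exact h
    · have h := (st_capt μ a (p ^ (R + 1))).add_mem h4 h4'
      have e : (fun x => p • (Q + Q') x) = (fun x => p • Q x) + fun x => p • Q' x := by
        funext x
        simp only [Pi.add_apply, smul_add]
      rw [e]
      exact h
  neg_mem' := by
    rintro Q ⟨h1, h2, h3, h4⟩
    refine ⟨h1.neg, st_poly_neg n h2, fun g => ?_, ?_⟩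
    · have h := (st_capt μ a (p ^ (R + 1))).neg_mem (h3 g)
      have e : (fun x => (-Q) (T g x) - (-Q) x) = -(fun x => Q (T g x) - Q x) := by
        funext x
        simp only [Pi.neg_apply]
        abel
      rw [e]
      exact h
    · have h := (st_capt μ a (p ^ (R + 1))).neg_mem h4
      have e : (fun x => p • (-Q) x) = -(fun x => p • Q x) := by
        funext x
        simp only [Pi.neg_apply, smul_neg]
      rw [e]
      exact h

/-- a basis of `H` modulo the captured functions -/
structure st_Good (μ : Measure X) (T : Γ → X → X) (a : X → K) (p R n : ℕ) [Fact p.Prime]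
    {I : Type w} (P : I → X → ZMod (p ^ (R + 1))) : Prop where
  mem : ∀ i, P i ∈ st_H μ T a p R n
  indep : ∀ (s : Finset I) (c : I → ZMod p), Capt μ a (fun x => ∑ i ∈ s, (c i).val • P i x) →
    ∀ i ∈ s, c i = 0
  span : ∀ Q ∈ st_H μ T a p R n, ∃ (s : Finset I) (c : I → ZMod p),
    Capt μ a (fun x => Q x - ∑ i ∈ s, (c i).val • P i x)

lemma st_Good.reindex {μ : Measure X} {T : Γ → X → X} {a : X → K} {p R n : ℕ} [Fact p.Prime]
    {I : Type w} {P : I → X → ZMod (p ^ (R + 1))} (h : st_Good μ T a p R n P) {I' : Type*}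
    (e : I' ≃ I) : st_Good μ T a p R n (fun i => P (e i)) where
  mem := fun i => h.mem _
  indep := by
    intro s c hc i hi
    have h1 := h.indep (s.map e.toEmbedding) (fun i => c (e.symm i)) (by
      simpa [Finset.sum_map] using hc) (e i) (Finset.mem_map_of_mem _ hi)
    simpa using h1
  span := by
    intro Q hQ
    obtain ⟨s, c, hc⟩ := h.span Q hQ
    refine ⟨s.map e.symm.toEmbedding, fun i => c (e i), ?_⟩
    simpa [Finset.sum_map] using hc

lemma st_basis_aux {k : Type*} {M : Type w} [Field k] [AddCommGroup M] [Module k M] :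
    ∃ (I : Type w) (b : I → M), LinearIndependent k b ∧
      ∀ x, ∃ (s : Finset I) (c : I → k), x = ∑ i ∈ s, c i • b i := by
  let b := Module.Basis.ofVectorSpace k M
  refine ⟨_, b, b.linearIndependent, fun x => ?_⟩
  have h1 := b.linearCombination_repr x
  rw [Finsupp.linearCombination_apply, Finsupp.sum] at h1
  exact ⟨(b.repr x).support, fun i => b.repr x i, h1.symm⟩

lemma st_basis (p : ℕ) [Fact p.Prime] (M : Type w) [AddCommGroup M] (h : ∀ x : M, p • x = 0) :
    ∃ (I : Type w) (b : I → M), (∀ (s : Finset I) (c : I → ZMod p),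
      ∑ i ∈ s, (c i).val • b i = 0 → ∀ i ∈ s, c i = 0) ∧
      ∀ x, ∃ (s : Finset I) (c : I → ZMod p), x = ∑ i ∈ s, (c i).val • b i := by
  let _inst : Module (ZMod p) M := AddCommGroup.zmodModule h
  obtain ⟨I, b, hb, hs⟩ := st_basis_aux (k := ZMod p) (M := M)
  have hval : ∀ (c : ZMod p) (x : M), c.val • x = c • x := by
    intro c x
    rw [← Nat.cast_smul_eq_nsmul (ZMod p), ZMod.natCast_zmod_val]
  refine ⟨I, b, ?_, ?_⟩
  · intro s c hc
    simp only [hval] at hc
    exact linearIndependent_iff'.mp hb s c hc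
  · intro x
    obtain ⟨s, c, hx⟩ := hs x
    refine ⟨s, c, ?_⟩
    simp only [hval]
    exact hx

lemma st_exists_good (μ : Measure X) (T : Γ → X → X) (a : X → K) (p R n : ℕ) [Fact p.Prime] :
    ∃ (I : Type u) (P : I → X → ZMod (p ^ (R + 1))), st_Good μ T a p R n P := by
  classical
  set H := st_H μ T a p R n with hH
  set H0 : AddSubgroup H := (st_capt μ a (p ^ (R + 1))).addSubgroupOf H with hH0
  have hmem0 : ∀ Q : H, Q ∈ H0 ↔ Capt μ a (Q : X → ZMod (p ^ (R + 1))) := fun Q => Iff.rfl
  have hp0 : ∀ x : H ⧸ H0, p • x = 0 := by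
    intro x
    obtain ⟨Q, rfl⟩ := QuotientAddGroup.mk_surjective x
    rw [← QuotientAddGroup.mk_nsmul, QuotientAddGroup.eq_zero_iff, hmem0]
    exact Q.2.2.2.2
  obtain ⟨I, b, hind, hspan⟩ := st_basis p (H ⧸ H0) hp0
  have hrep : ∀ i : I, ∃ Q : H, (QuotientAddGroup.mk Q : H ⧸ H0) = b i := fun i =>
    QuotientAddGroup.mk_surjective (b i)
  choose P hP using hrep
  have hsum : ∀ (s : Finset I) (c : I → ZMod p),
      (QuotientAddGroup.mk (∑ i ∈ s, (c i).val • P i) : H ⧸ H0) =
        ∑ i ∈ s, (c i).val • b i := by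
    intro s c
    have h1 : (QuotientAddGroup.mk (∑ i ∈ s, (c i).val • P i) : H ⧸ H0) =
        ∑ i ∈ s, (QuotientAddGroup.mk ((c i).val • P i) : H ⧸ H0) :=
      map_sum (QuotientAddGroup.mk' H0) _ _
    rw [h1]
    refine Finset.sum_congr rfl fun i _ => ?_
    rw [QuotientAddGroup.mk_nsmul, hP]
  have hcoe : ∀ (s : Finset I) (c : I → ZMod p),
      ((∑ i ∈ s, (c i).val • P i : H) : X → ZMod (p ^ (R + 1))) =
        fun x => ∑ i ∈ s, (c i).val • (P i : X → ZMod (p ^ (R + 1))) x := by
    intro s c
    funext x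
    rw [AddSubgroup.val_finsetSum, Finset.sum_apply]
    rfl
  refine ⟨I, fun i => (P i : X → ZMod (p ^ (R + 1))), fun i => (P i).2, ?_, ?_⟩
  · intro s c hc
    have h1 : (QuotientAddGroup.mk (∑ i ∈ s, (c i).val • P i) : H ⧸ H0) = 0 := by
      rw [QuotientAddGroup.eq_zero_iff, hmem0, hcoe]
      exact hc
    rw [hsum] at h1
    exact hind s c h1
  · intro Q hQ
    obtain ⟨s, c, h1⟩ := hspan (QuotientAddGroup.mk (⟨Q, hQ⟩ : H))
    refine ⟨s, c, ?_⟩
    rw [← hsum, eq_comm, QuotientAddGroup.eq, hmem0, AddSubgroup.coe_add, AddSubgroup.coe_neg,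
      hcoe] at h1
    refine (congrArg (Capt μ a) ?_).mp h1
    funext x
    simp only [Pi.add_apply, Pi.neg_apply]
    abel

end good

section final

variable {Γ : Type} [AddCommGroup Γ] [Countable Γ] {X : Type u} [MeasurableSpace X]
  {μ : Measure X} [IsProbabilityMeasure μ] {T : Γ → X → X} {K : Type v} [MeasurableSpace K]
  {ν : Measure K} [IsProbabilityMeasure ν] {S : Γ → K → K} {a : X → K}

lemma st_Good.cyl (hT : IsAction μ T) (hE : IsErgodic μ T) (hS : IsAction ν S)
    (ha : MeasurePreserving a μ ν) (haS : ∀ g, ∀ᵐ x ∂μ, a (T g x) = S g (a x))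
    {p R n : ℕ} [Fact p.Prime] {I : Type w} {P : I → X → ZMod (p ^ (R + 1))}
    (h : st_Good μ T a p R n P) (s : Finset I) (v : I → ZMod p) (B : Set K)
    (hB : MeasurableSet B) :
    μ (a ⁻¹' B ∩ {x | ∀ i ∈ s, td p R (P i x) = v i}) = ν B * ((p : ENNReal)⁻¹) ^ s.card := by
  classical
  refine st_cyl ha (fun i x => td p R (P i x))
    (fun i => (measurable_of_countable (td p R)).comp (h.mem i).1) s ?_ v B hB
  intro c hc B' hB'
  refine st_orth hT hE hS ha haS (fun i : s => P i) (fun i => (h.mem i).1)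
    (fun i g => (h.mem i).2.2.1 g) (fun i => (h.mem i).2.2.2) c ?_ B' hB'
  intro hcapt
  apply hc
  set c' : I → ZMod p := fun i => if hi : i ∈ s then c ⟨i, hi⟩ else 0 with hc'
  have hcc : ∀ i : s, c' i = c i := fun i => dif_pos i.2
  have h1 : Capt μ a (fun x => ∑ i ∈ s, (c' i).val • P i x) := by
    have h2 : (fun x => ∑ i ∈ s, (c' i).val • P i x) = fun x => ∑ i : s, (c i).val • P i x := by
      funext x
      rw [← Finset.sum_coe_sort s (fun i => (c' i).val • P i x)]
      refine Finset.sum_congr rfl fun i _ => ?_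
      rw [hcc]
    rw [h2]
    exact hcapt
  funext i
  rw [← hcc i]
  exact h.indep s c' h1 i i.2

lemma st_Good.countable [MeasurableSpace.CountablyGenerated X] (hT : IsAction μ T)
    (hE : IsErgodic μ T) (hS : IsAction ν S)
    (ha : MeasurePreserving a μ ν) (haS : ∀ g, ∀ᵐ x ∂μ, a (T g x) = S g (a x))
    {p R n : ℕ} [Fact p.Prime] {I : Type w} {P : I → X → ZMod (p ^ (R + 1))}
    (h : st_Good μ T a p R n P) : Countable I := by
  classical
  have hp := (Fact.out : p.Prime)
  obtain ⟨𝒜, h𝒜c, h𝒜⟩ := exists_countable_measureDense μ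
  set Z : I → Set X := fun i => {x | td p R (P i x) = 0} with hZ
  have hZm : ∀ i, MeasurableSet (Z i) := fun i =>
    ((measurable_of_countable (td p R)).comp (h.mem i).1) (measurableSet_singleton 0)
  set ε : ℝ := ((p : ℝ)⁻¹) ^ 2 / 2 with hε
  have hppos : (0 : ℝ) < p := by exact_mod_cast hp.pos
  have hε0 : 0 < ε := by positivity
  have h1 : ∀ i, ∃ t ∈ 𝒜, μ (symmDiff (Z i) t) < ENNReal.ofReal ε := fun i =>
    h𝒜.approx (Z i) (hZm i) (measure_ne_top _ _) ε hε0
  choose t ht hmt using h1
  have := h𝒜c.to_subtype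
  refine Function.Injective.countable (f := fun i => (⟨t i, ht i⟩ : 𝒜)) ?_
  intro i j hij
  by_contra hne
  have htt : t i = t j := congrArg Subtype.val hij
  have h2 := h.cyl hT hE hS ha haS {i, j} (fun k => if k = i then 0 else 1) Set.univ
    MeasurableSet.univ
  rw [Set.preimage_univ, Set.univ_inter, measure_univ, one_mul, Finset.card_pair hne] at h2
  have h3 : {x | ∀ k ∈ ({i, j} : Finset I), td p R (P k x) = if k = i then 0 else 1} ⊆
      symmDiff (Z i) (t i) ∪ symmDiff (Z j) (t j) := by
    intro x hx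
    simp only [Set.mem_ofPred_eq, Finset.mem_insert, Finset.mem_singleton, forall_eq_or_imp,
      forall_eq, if_true] at hx
    obtain ⟨hx1, hx2⟩ := hx
    rw [if_neg (Ne.symm hne)] at hx2
    have hxi : x ∈ Z i := hx1
    have hxj : x ∉ Z j := by
      intro h'
      have : (0 : ZMod p) = 1 := by
        rw [← hx2]
        exact h'.symm
      exact zero_ne_one this
    by_cases hxt : x ∈ t i
    · right
      rw [← htt]
      exact Or.inr ⟨hxt, hxj⟩
    · left
      exact Or.inl ⟨hxi, hxt⟩
  have h4 : ((p : ENNReal)⁻¹) ^ 2 < ENNReal.ofReal ε + ENNReal.ofReal ε := by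
    rw [← h2]
    exact (measure_mono h3).trans_lt ((measure_union_le _ _).trans_lt
      (ENNReal.add_lt_add (hmt i) (hmt j)))
  rw [← ENNReal.ofReal_add hε0.le hε0.le, hε, add_halves, ENNReal.ofReal_pow (by positivity),
    ENNReal.ofReal_inv_of_pos hppos, ENNReal.ofReal_natCast] at h4
  exact lt_irrefl _ h4

end final

theorem stage (p R n : ℕ) [Fact p.Prime] {Γ : Type} [AddCommGroup Γ] [Countable Γ]
    {X : Type u} [MeasurableSpace X] [StandardBorelSpace X] (μ : Measure X)
    [IsProbabilityMeasure μ] (T : Γ → X → X) (hT : IsAction μ T) (hE : IsErgodic μ T)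
    (K : Type) [MeasurableSpace K] [StandardBorelSpace K] (ν : Measure K)
    [IsProbabilityMeasure ν] (S : Γ → K → K) (hS : IsAction ν S) (a : X → K)
    (ha : MeasurePreserving a μ ν) (haS : ∀ g, ∀ᵐ x ∂μ, a (T g x) = S g (a x)) :
    ∃ (I : Type) (_ : Countable I) (η : Measure (I → ZMod p)) (_ : IsProbabilityMeasure η)
      (_ : η.IsAddLeftInvariant) (V : X → I → ZMod p),
      MeasurePreserving (fun x => (a x, V x)) μ (ν.prod η) ∧
      (∀ i, ∃ P : X → ZMod (p ^ (R + 1)), Measurable P ∧ AEPoly μ T n P ∧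
        ∀ x, V x i = td p R (P x)) ∧
      (∀ g i, Capt μ a fun x => V (T g x) i - V x i) ∧
      ∀ Q : X → ZMod (p ^ (R + 1)), Measurable Q → AEPoly μ T n Q →
        (∀ g, Capt μ a fun x => Q (T g x) - Q x) → Capt μ a (fun x => p • Q x) →
        Capt μ (fun x => (a x, V x)) Q := by
  classical
  obtain ⟨I', P', hgood'⟩ := st_exists_good μ T a p R n
  have : Countable I' := hgood'.countable hT hE hS ha haS
  obtain ⟨f, hf⟩ := Countable.exists_injective_nat I'
  set e : Set.range f ≃ I' := (Equiv.ofInjective f hf).symm with he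
  have hgood := hgood'.reindex e
  set P : Set.range f → X → ZMod (p ^ (R + 1)) := fun i => P' (e i) with hPdef
  set V : X → Set.range f → ZMod p := fun x i => td p R (P i x) with hV
  have hVm : Measurable V := measurable_pi_lambda _ fun i =>
    (measurable_of_countable (td p R)).comp (hgood.mem i).1
  have hcyl := fun s v B hB => hgood.cyl hT hE hS ha haS s v B hB
  have hprob : IsProbabilityMeasure (μ.map V) :=
    Measure.isProbabilityMeasure_map hVm.aemeasurable
  have hcylm : ∀ (s : Finset (Set.range f)) (v : Set.range f → ZMod p),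
      MeasurableSet {g : Set.range f → ZMod p | ∀ i ∈ s, g i = v i} := by
    intro s v
    have : {g : Set.range f → ZMod p | ∀ i ∈ s, g i = v i} =
        ⋂ i ∈ s, (fun g => g i) ⁻¹' {v i} := by
      ext g
      simp
    rw [this]
    exact Finset.measurableSet_biInter s fun i _ =>
      measurable_pi_apply i (measurableSet_singleton _)
  have hη : ∀ (s : Finset (Set.range f)) (v : Set.range f → ZMod p),
      (μ.map V) {g | ∀ i ∈ s, g i = v i} = ((p : ENNReal)⁻¹) ^ s.card := by
    intro s v
    rw [Measure.map_apply hVm (hcylm s v)]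
    have := hcyl s v Set.univ MeasurableSet.univ
    rw [Set.preimage_univ, Set.univ_inter, measure_univ, one_mul] at this
    exact this
  refine ⟨Set.range f, inferInstance, μ.map V, hprob, ⟨fun c => ?_⟩, V, ⟨?_, ?_⟩, ?_, ?_, ?_⟩
  · -- invariance
    have hcm : Measurable fun g : Set.range f → ZMod p => c + g :=
      measurable_pi_lambda _ fun i =>
        (measurable_of_countable (fun z : ZMod p => c i + z)).comp (measurable_pi_apply i)
    have : IsFiniteMeasure ((μ.map V).map fun g => c + g) := by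
      have := Measure.isProbabilityMeasure_map (μ := μ.map V) hcm.aemeasurable
      infer_instance
    refine st_ext _ _ fun s v => ?_
    rw [Measure.map_apply hcm (hcylm s v)]
    have : (fun g : Set.range f → ZMod p => c + g) ⁻¹' {g | ∀ i ∈ s, g i = v i} =
        {g | ∀ i ∈ s, g i = (v - c) i} := by
      ext g
      simp only [Set.mem_preimage, Set.mem_ofPred_eq, Pi.add_apply, Pi.sub_apply]
      refine forall₂_congr fun i _ => ?_
      rw [eq_sub_iff_add_eq, add_comm]
    rw [this, hη, hη]
  · exact ha.measurable.prodMk hVm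
  · -- product measure
    symm
    refine Measure.prod_eq fun B t hB ht => ?_
    have h1 : (μ.restrict (a ⁻¹' B)).map V = ν B • μ.map V := by
      have : IsFiniteMeasure ((μ.restrict (a ⁻¹' B)).map V) := by
        infer_instance
      refine st_ext _ _ fun s v => ?_
      rw [Measure.map_apply hVm (hcylm s v), Measure.restrict_apply (hVm (hcylm s v)),
        Measure.smul_apply, hη, smul_eq_mul, Set.inter_comm]
      exact hcyl s v B hB
    rw [Measure.map_apply (ha.measurable.prodMk hVm) (hB.prod ht)]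
    have h2 := congrArg (fun m : Measure (Set.range f → ZMod p) => m t) h1
    simp only [Measure.smul_apply, smul_eq_mul] at h2
    rw [Measure.map_apply hVm ht, Measure.restrict_apply (hVm ht)] at h2
    rw [← h2]
    congr 1
    ext x
    simp [and_comm]
  · intro i
    exact ⟨P i, (hgood.mem i).1, (hgood.mem i).2.1, fun x => rfl⟩
  · intro g i
    exact st_td_capt hT hS haS (hgood.mem i).2.2.2 g ((hgood.mem i).2.2.1 g)
  · intro Q hQ1 hQ2 hQ3 hQ4
    obtain ⟨s, c, hc⟩ := hgood.span Q ⟨hQ1, hQ2, hQ3, hQ4⟩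
    -- everything is captured by `(a, V)`
    have hπ : ∀ {A : Type} [MeasurableSpace A] {Q' : X → A}, Capt μ a Q' →
        Capt μ (fun x => (a x, V x)) Q' := fun h =>
      st_capt_mono h (π := Prod.fst) measurable_fst (fun x => rfl)
    have hVi : ∀ i, Capt μ (fun x => (a x, V x)) (fun x => V x i) := fun i =>
      ⟨fun z => z.2 i, (measurable_pi_apply i).comp measurable_snd, EventuallyEq.rfl⟩
    have hPi : ∀ i, Capt μ (fun x => (a x, V x)) (P i) := by
      intro i
      have h1 := hπ (st_low_capt (hgood.mem i).2.2.2)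
      have h2 := st_capt_comp (φ := st_iota p R) (hVi i) (measurable_of_countable _)
      have h3 := (st_capt μ (fun x => (a x, V x)) (p ^ (R + 1))).add_mem h1 h2
      have h4 : P i = (fun x => st_low p R (P i x)) + fun x => st_iota p R (V x i) := by
        funext x
        exact st_decomp p R (P i x)
      rw [h4]
      exact h3
    have h5 : (∑ i ∈ s, (c i).val • P i) ∈ st_capt μ (fun x => (a x, V x)) (p ^ (R + 1)) :=
      AddSubgroup.sum_mem _ fun i _ => AddSubgroup.nsmul_mem _ (hPi i) _
    have h6 := (st_capt μ (fun x => (a x, V x)) (p ^ (R + 1))).add_mem (hπ hc) h5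
    have h7 : Q = (fun x => Q x - ∑ i ∈ s, (c i).val • P i x) + ∑ i ∈ s, (c i).val • P i := by
      funext x
      simp only [Pi.add_apply, Finset.sum_apply, Pi.smul_apply, sub_add_cancel]
    rw [h7]
    exact h6

end Pool.Agent.FpTrans
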