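import Pool.Agent.FpTrans.Defs2

/-!
# Polynomials along a family of maps: sums, products, composition with functions of values
-/

set_option autoImplicit false
open MeasureTheory Filter Topology

namespace Pool.Agent.FpTrans

universe u v w w'

section basic

variable {S : Type u} {ι : Type v} {A : Type w} [AddCommGroup A] {t : ι → S → S}

theorem IsPoly.zero_fun (n : ℕ) : IsPoly t n (fun _ : S => (0 : A)) := by
  induction n with
  | zero => intro s; rfl
  | succ n ih => intro i; simpa using ih

theorem IsPoly.of_eq_zero {f : S → A} (n : ℕ) (h : ∀ s, f s = 0) : IsPoly t n f := by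
  have : f = fun _ => 0 := funext h
  rw [this]; exact IsPoly.zero_fun n

theorem IsPoly.succ {n : ℕ} {f : S → A} (h : IsPoly t n f) : IsPoly t (n + 1) f := by
  induction n generalizing f with
  | zero =>
    intro i s
    have h1 : ∀ s, f s = 0 := h
    simp [h1]
  | succ n ih =>
    intro i
    exact ih (h i)

theorem IsPoly.mono {n m : ℕ} (hnm : n ≤ m) {f : S → A} (h : IsPoly t n f) : IsPoly t m f := by
  induction hnm with
  | refl => exact h
  | step _ ih => exact ih.succ

theorem IsPoly.add {n : ℕ} {f g : S → A} (hf : IsPoly t n f) (hg : IsPoly t n g) :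
    IsPoly t n (fun s => f s + g s) := by
  induction n generalizing f g with
  | zero =>
    intro s
    have h1 : ∀ s, f s = 0 := hf
    have h2 : ∀ s, g s = 0 := hg
    simp [h1, h2]
  | succ n ih =>
    intro i
    have := ih (hf i) (hg i)
    refine cast (congrArg (IsPoly t n) (funext fun s => ?_)) this
    exact (add_sub_add_comm _ _ _ _).symm

theorem IsPoly.hom {B : Type w'} [AddCommGroup B] (φ : A →+ B) {n : ℕ} {f : S → A}
    (hf : IsPoly t n f) : IsPoly t n (fun s => φ (f s)) := by
  induction n generalizing f with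
  | zero =>
    intro s
    have h1 : ∀ s, f s = 0 := hf
    simp [h1]
  | succ n ih =>
    intro i
    have := ih (hf i)
    simpa [map_sub] using this

theorem IsPoly.of_hom {B : Type w'} [AddCommGroup B] (φ : A →+ B) (hφ : Function.Injective φ)
    {n : ℕ} {f : S → A} (hf : IsPoly t n (fun s => φ (f s))) : IsPoly t n f := by
  induction n generalizing f with
  | zero =>
    intro s
    have h1 : ∀ s, φ (f s) = 0 := hf
    exact (map_eq_zero_iff φ hφ).1 (h1 s)
  | succ n ih =>
    intro i
    apply ih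
    have := hf i
    simpa [map_sub] using this

theorem IsPoly.neg {n : ℕ} {f : S → A} (hf : IsPoly t n f) : IsPoly t n (fun s => -f s) :=
  hf.hom (negAddMonoidHom : A →+ A)

theorem IsPoly.sub {n : ℕ} {f g : S → A} (hf : IsPoly t n f) (hg : IsPoly t n g) :
    IsPoly t n (fun s => f s - g s) := by
  simpa [sub_eq_add_neg] using hf.add hg.neg

theorem IsPoly.sum {n : ℕ} {α : Type*} (s : Finset α) (f : α → S → A)
    (hf : ∀ a ∈ s, IsPoly t n (f a)) : IsPoly t n (fun x => ∑ a ∈ s, f a x) := by
  classical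
  induction s using Finset.induction_on with
  | empty => simpa using IsPoly.zero_fun n
  | insert a s ha ih =>
    simp only [Finset.sum_insert ha]
    exact (hf a (Finset.mem_insert_self _ _)).add
      (ih fun b hb => hf b (Finset.mem_insert_of_mem hb))

theorem IsPoly.const (c : A) : IsPoly t 1 (fun _ : S => c) := by
  intro i s; simp

theorem IsPoly.congr {n : ℕ} {f g : S → A} (hf : IsPoly t n f) (h : ∀ s, g s = f s) :
    IsPoly t n g := by
  have : g = f := funext h
  rwa [this]

/-- pulling back along an equivariant map -/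
theorem IsPoly.comp_map {S' : Type w'} {κ : Type*} {t' : κ → S' → S'} (π : S' → S) (ρ : κ → ι)
    (hπ : ∀ k s, π (t' k s) = t (ρ k) (π s)) {n : ℕ} {f : S → A} (hf : IsPoly t n f) :
    IsPoly t' n (fun s => f (π s)) := by
  induction n generalizing f with
  | zero => intro s; exact hf (π s)
  | succ n ih =>
    intro k
    have := ih (hf (ρ k))
    simpa [hπ] using this

end basic

section ring

variable {S : Type u} {ι : Type v} {A : Type w} [CommRing A] {t : ι → S → S}

theorem IsPoly.mul_aux (N : ℕ) : ∀ (a b : ℕ), a + b = N → ∀ f g : S → A, IsPoly t a f →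
    IsPoly t b g → IsPoly t (a + b) (fun s => f s * g s) := by
  induction N using Nat.strong_induction_on with
  | _ N ih =>
    intro a b hab f g hf hg
    rcases a with _ | a
    · apply IsPoly.of_eq_zero
      intro s
      have h1 : ∀ s, f s = 0 := hf
      simp [h1]
    rcases b with _ | b
    · apply IsPoly.of_eq_zero
      intro s
      have h1 : ∀ s, g s = 0 := hg
      simp [h1]
    have : a + 1 + (b + 1) = (a + b + 1) + 1 := by ring
    rw [this]
    intro i
    have e1 := ih (a + (b + 1)) (by omega) a (b + 1) rfl _ _ (hf i) hg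
    have e2 := ih (a + 1 + b) (by omega) (a + 1) b rfl _ _ hf (hg i)
    have e3 := ih (a + b) (by omega) a b rfl _ _ (hf i) (hg i)
    have e1' : IsPoly t (a + b + 1) (fun s => (f (t i s) - f s) * g s) :=
      e1.mono (by omega)
    have e2' : IsPoly t (a + b + 1) (fun s => f s * (g (t i s) - g s)) :=
      e2.mono (by omega)
    have e3' : IsPoly t (a + b + 1) (fun s => (f (t i s) - f s) * (g (t i s) - g s)) :=
      e3.mono (by omega)
    refine ((e1'.add e2').add e3').congr fun s => ?_
    ring

theorem IsPoly.mul {a b : ℕ} {f g : S → A} (hf : IsPoly t a f) (hg : IsPoly t b g) :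
    IsPoly t (a + b) (fun s => f s * g s) :=
  IsPoly.mul_aux (a + b) a b rfl f g hf hg

theorem IsPoly.prod {m : ℕ} {α : Type*} (s : Finset α) (f : α → S → A)
    (hf : ∀ a ∈ s, IsPoly t m (f a)) : IsPoly t (s.card * m + 1) (fun x => ∏ a ∈ s, f a x) := by
  classical
  induction s using Finset.induction_on with
  | empty => simpa using (IsPoly.const (t := t) (1 : A))
  | insert a s ha ih =>
    simp only [Finset.prod_insert ha, Finset.card_insert_of_notMem ha]
    have h1 := (hf a (Finset.mem_insert_self _ _)).mul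
      (ih fun b hb => hf b (Finset.mem_insert_of_mem hb))
    exact h1.mono (by ring_nf; omega)

theorem IsPoly.const_mul (c : A) {n : ℕ} {f : S → A} (hf : IsPoly t n f) :
    IsPoly t n (fun s => c * f s) :=
  hf.hom (AddMonoidHom.mulLeft c)

end ring

section comp

variable (p : ℕ) [Fact p.Prime]

/-- lift of a residue mod `p` to a residue mod `p^N` -/
def tau (N : ℕ) (x : ZMod p) : ZMod (p ^ N) := (x.val : ZMod (p ^ N))

/-- multiplication by `p`, from `ℤ/p^N` to `ℤ/p^(N+1)` -/
noncomputable def mulp (N : ℕ) : ZMod (p ^ N) →+ ZMod (p ^ (N + 1)) :=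
  ZMod.lift (p ^ N) ⟨(AddMonoidHom.mulLeft (p : ZMod (p ^ (N + 1)))).comp
    (Int.castAddHom (ZMod (p ^ (N + 1)))), by
      simp only [AddMonoidHom.comp_apply, Int.coe_castAddHom, AddMonoidHom.coe_mulLeft]
      have : ((p ^ N : ℕ) : ZMod (p ^ (N + 1))) * p = ((p ^ (N + 1) : ℕ) : ZMod (p ^ (N + 1))) := by
        push_cast; ring
      have h2 : ((p : ZMod (p ^ (N + 1)))) * (((p ^ N : ℕ) : ℤ) : ZMod (p ^ (N + 1))) = 0 := by
        rw [Int.cast_natCast, mul_comm, this, ZMod.natCast_self]
      exact h2⟩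

omit [Fact p.Prime] in
theorem mulp_intCast (N : ℕ) (a : ℤ) :
    mulp p N (a : ZMod (p ^ N)) = (p : ZMod (p ^ (N + 1))) * (a : ZMod (p ^ (N + 1))) := by
  simp [mulp]

omit [Fact p.Prime] in
theorem mulp_natCast (N : ℕ) (a : ℕ) :
    mulp p N (a : ZMod (p ^ N)) = (p : ZMod (p ^ (N + 1))) * (a : ZMod (p ^ (N + 1))) := by
  have := mulp_intCast p N (a : ℤ)
  simpa using this

theorem mulp_injective (N : ℕ) : Function.Injective (mulp p N) := by
  rw [injective_iff_map_eq_zero]
  intro a ha
  obtain ⟨b, rfl⟩ := ZMod.intCast_surjective a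
  rw [mulp_intCast] at ha
  have h1 : (((p : ℤ) * b : ℤ) : ZMod (p ^ (N + 1))) = 0 := by push_cast; exact ha
  rw [ZMod.intCast_zmod_eq_zero_iff_dvd] at h1 ⊢
  have hp : (p : ℤ) ≠ 0 := by exact_mod_cast (Fact.out : p.Prime).ne_zero
  push_cast at h1 ⊢
  rw [pow_succ, mul_comm] at h1
  exact Int.dvd_of_mul_dvd_mul_left hp h1 |> fun h => h

variable {p}

theorem tau_add (N : ℕ) (x y : ZMod p) :
    tau p (N + 1) (x + y) = tau p (N + 1) x + tau p (N + 1) y
      - mulp p N (if p ≤ x.val + y.val then 1 else 0) := by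
  have hp : 0 < p := (Fact.out : p.Prime).pos
  unfold tau
  split_ifs with h
  · have h1 : (x + y).val + p = x.val + y.val := by
      rw [ZMod.val_add_of_le h]; omega
    have h2 : ((x + y).val : ZMod (p ^ (N + 1))) + p = x.val + y.val := by exact_mod_cast congrArg _ h1
    have h3 : mulp p N 1 = (p : ZMod (p ^ (N + 1))) := by
      have := mulp_natCast p N 1
      simpa using this
    rw [h3]
    exact eq_sub_of_add_eq h2
  · rw [ZMod.val_add_of_lt (by omega)]
    simp

theorem isUnit_natSub {N : ℕ} (a b : ZMod p) (hab : a ≠ b) :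
    IsUnit (tau p N a - tau p N b) := by
  have h1 : (((a.val : ℤ) - (b.val : ℤ) : ℤ) : ZMod (p ^ N)) = tau p N a - tau p N b := by
    unfold tau; push_cast; rfl
  rw [← h1]
  rw [ZMod.coe_int_isUnit_iff_isCoprime]
  push_cast
  apply IsCoprime.pow_left
  rw [(Nat.prime_iff_prime_int.1 (Fact.out : p.Prime)).coprime_iff_not_dvd]
  intro hdvd
  apply hab
  have h2 : (((a.val : ℤ) - (b.val : ℤ) : ℤ) : ZMod p) = 0 :=
    (ZMod.intCast_zmod_eq_zero_iff_dvd _ _).2 hdvd
  push_cast at h2
  rw [ZMod.natCast_zmod_val, ZMod.natCast_zmod_val] at h2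
  exact sub_eq_zero.1 h2

/-- The indicator of a value as a polynomial in the lift. -/
theorem indicator_eq (N : ℕ) (a : ZMod p) : ∃ c : ZMod (p ^ N), ∀ x : ZMod p,
    (if x = a then (1 : ZMod (p ^ N)) else 0) =
      c * ∏ b ∈ Finset.univ.erase a, (tau p N x - tau p N b) := by
  have hu : IsUnit (∏ b ∈ Finset.univ.erase a, (tau p N a - tau p N b)) := by
    rw [IsUnit.prod_iff]
    intro b hb
    exact isUnit_natSub a b (Finset.ne_of_mem_erase hb).symm
  obtain ⟨c, hc⟩ := hu.exists_left_inv
  refine ⟨c, fun x => ?_⟩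
  split_ifs with h
  · rw [h, hc]
  · have h0 : ∏ b ∈ Finset.univ.erase a, (tau p N x - tau p N b) = 0 :=
      Finset.prod_eq_zero (i := x) (Finset.mem_erase.2 ⟨h, Finset.mem_univ _⟩) (sub_self _)
    rw [h0, mul_zero]

/-- Composition of finitely many `ℤ/p`-valued polynomials with a function to `ℤ/p^N`. -/
theorem comp_fin (p : ℕ) [Fact p.Prime] (N : ℕ) : ∀ n l : ℕ, ∃ D : ℕ,
    ∀ (S : Type u) (ι : Type v) (t : ι → S → S) (f : Fin n → S → ZMod p),
      (∀ i, IsPoly t l (f i)) → ∀ Φ : (Fin n → ZMod p) → ZMod (p ^ N),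
        IsPoly t D (fun s => Φ (fun i => f i s)) := by
  induction N with
  | zero =>
    intro n l
    refine ⟨0, fun S ι t f hf Φ => ?_⟩
    intro s
    have : Subsingleton (ZMod (p ^ 0)) := by rw [pow_zero]; infer_instance
    exact Subsingleton.elim _ _
  | succ N ih =>
    -- the lift of one polynomial
    have htau : ∀ l : ℕ, ∃ D : ℕ, ∀ (S : Type u) (ι : Type v) (t : ι → S → S) (f : S → ZMod p),
        IsPoly t l f → IsPoly t D (fun s => tau p (N + 1) (f s)) := by
      intro l
      induction l with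
      | zero =>
        refine ⟨0, fun S ι t f hf s => ?_⟩
        have h1 : ∀ s, f s = 0 := hf
        simp [h1, tau]
      | succ l ihl =>
        obtain ⟨D1, hD1⟩ := ihl
        obtain ⟨D2, hD2⟩ := ih 2 (l + 1)
        refine ⟨max D1 D2 + 1, fun S ι t f hf i => ?_⟩
        have e1 := (hD1 S ι t _ (hf i)).mono (le_max_left D1 D2)
        have e2 := (hD2 S ι t ![f, fun s => f (t i s) - f s] (by
          intro j
          fin_cases j
          · exact hf
          · exact (hf i).succ) (fun x => if p ≤ (x 0).val + (x 1).val then 1 else 0)).hom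
              (mulp p N) |>.mono (le_max_right D1 D2)
        refine (e1.sub e2).congr fun s => ?_
        have h3 := tau_add N (f s) (f (t i s) - f s)
        rw [add_sub_cancel] at h3
        simp only [Matrix.cons_val_zero, Matrix.cons_val_one, Matrix.cons_val_fin_one]
        rw [h3]
        ring
    intro n l
    obtain ⟨D1, hD1⟩ := htau l
    refine ⟨n * (p * (D1 + 1) + 1) + 1, fun S ι t f hf Φ => ?_⟩
    have hind : ∀ (i : Fin n) (a : ZMod p), IsPoly t (p * (D1 + 1) + 1)
        (fun s => if f i s = a then (1 : ZMod (p ^ (N + 1))) else 0) := by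
      intro i a
      obtain ⟨c, hc⟩ := indicator_eq (p := p) (N + 1) a
      have h1 : ∀ b ∈ Finset.univ.erase a, IsPoly t (D1 + 1)
          (fun s => tau p (N + 1) (f i s) - tau p (N + 1) b) := fun b _ =>
        ((hD1 S ι t _ (hf i)).mono (Nat.le_succ D1)).sub
          ((IsPoly.const _).mono (by omega))
      have h2 := (IsPoly.prod _ _ h1).const_mul c
      refine (h2.mono ?_).congr fun s => hc (f i s)
      have : (Finset.univ.erase a).card ≤ p := by
        refine (Finset.card_le_card (Finset.erase_subset _ _)).trans ?_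
        rw [Finset.card_univ, ZMod.card]
      gcongr
    have hsum : ∀ s, Φ (fun i => f i s) = ∑ a : Fin n → ZMod p,
        Φ a * ∏ i, (if f i s = a i then (1 : ZMod (p ^ (N + 1))) else 0) := by
      intro s
      rw [Finset.sum_eq_single (fun i => f i s)]
      · simp
      · intro a _ ha
        obtain ⟨i, hi⟩ := Function.ne_iff.1 ha
        rw [Finset.prod_eq_zero (Finset.mem_univ i), mul_zero]
        rw [if_neg]
        exact fun h => hi h.symm
      · simp
    refine IsPoly.congr (IsPoly.sum _ _ fun a _ => ?_) hsum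
    have h3 := (IsPoly.prod Finset.univ _ (fun i _ => hind i (a i))).const_mul (Φ a)
    simpa using h3

/-- A `ℤ/p^R`-valued polynomial is a function of `R` many `ℤ/p`-valued polynomials. -/
theorem digits (p : ℕ) [Fact p.Prime] (R : ℕ) : ∀ l : ℕ, ∃ (D : ℕ)
    (Θ : (Fin R → ZMod p) → ZMod (p ^ R)),
    ∀ (S : Type u) (ι : Type v) (t : ι → S → S) (f : S → ZMod (p ^ R)), IsPoly t l f →
      ∃ d : Fin R → S → ZMod p, (∀ i, IsPoly t D (d i)) ∧ ∀ s, f s = Θ (fun i => d i s) := by
  induction R with
  | zero =>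
    intro l
    refine ⟨0, fun _ => 0, fun S ι t f _ => ⟨fun i => i.elim0, fun i => i.elim0, fun s => ?_⟩⟩
    have : Subsingleton (ZMod (p ^ 0)) := by rw [pow_zero]; infer_instance
    exact Subsingleton.elim _ _
  | succ R ih =>
    intro l
    obtain ⟨D1, hD1⟩ := comp_fin.{u, v} p (R + 1) 1 l
    obtain ⟨D2, Θ, hΘ⟩ := ih (max l D1)
    refine ⟨max l D2, fun x => tau p (R + 1) (x 0) + mulp p R (Θ fun i => x i.succ),
      fun S ι t f hf => ?_⟩
    have hdvd : p ∣ p ^ (R + 1) := Dvd.intro_left (p ^ R) rfl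
    set f0 : S → ZMod p := fun s => ZMod.castHom hdvd (ZMod p) (f s) with hf0
    have h0 : IsPoly t l f0 := hf.hom (ZMod.castHom hdvd (ZMod p)).toAddMonoidHom
    have h1 := hD1 S ι t (fun _ => f0) (fun _ => h0) (fun x => tau p (R + 1) (x 0))
    have h2 : ∀ s, ∃ g : ZMod (p ^ R), f s - tau p (R + 1) (f0 s) = mulp p R g := by
      intro s
      obtain ⟨a, ha⟩ : ∃ a : ℕ, (a : ZMod (p ^ (R + 1))) = f s := ZMod.natCast_zmod_surjective _
      have h3 : f0 s = (a : ZMod p) := by rw [hf0]; simp only; rw [← ha, map_natCast]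
      refine ⟨((a / p : ℕ) : ZMod (p ^ R)), ?_⟩
      rw [mulp_natCast, h3, ← ha]
      unfold tau
      rw [ZMod.val_natCast]
      have h4 : ((a % p + p * (a / p) : ℕ) : ZMod (p ^ (R + 1))) = (a : ZMod (p ^ (R + 1))) := by
        rw [Nat.mod_add_div]
      push_cast at h4
      rw [← h4]; ring
    choose g hg using h2
    have h4 : IsPoly t (max l D1) (fun s => mulp p R (g s)) := by
      refine ((hf.mono (le_max_left _ _)).sub (h1.mono (le_max_right _ _))).congr fun s => ?_
      exact (hg s).symm
    obtain ⟨d, hd, hd'⟩ := hΘ S ι t g (h4.of_hom (mulp p R) (mulp_injective p R))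
    refine ⟨Fin.cons f0 d, ?_, ?_⟩
    · intro i
      refine Fin.cases ?_ (fun j => ?_) i
      · simpa using h0.mono (le_max_left _ _)
      · simpa using (hd j).mono (le_max_right _ _)
    · intro s
      have := hg s
      simp only [Fin.cons_zero, Fin.cons_succ]
      rw [← hd' s, ← this]; ring

/-- Composition with an arbitrary function of a `ℤ/p^R`-valued polynomial. -/
theorem comp_digits (p : ℕ) [Fact p.Prime] (R N l : ℕ) : ∃ D : ℕ,
    ∀ (S : Type u) (ι : Type v) (t : ι → S → S) (f : S → ZMod (p ^ R)), IsPoly t l f →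
      ∀ Φ : ZMod (p ^ R) → ZMod (p ^ N), IsPoly t D (fun s => Φ (f s)) := by
  obtain ⟨D1, Θ, hΘ⟩ := digits.{u, v} p R l
  obtain ⟨D2, hD2⟩ := comp_fin.{u, v} p N R D1
  refine ⟨D2, fun S ι t f hf Φ => ?_⟩
  obtain ⟨d, hd, hd'⟩ := hΘ S ι t f hf
  refine (hD2 S ι t d hd (fun x => Φ (Θ x))).congr fun s => ?_
  rw [← hd' s]

end comp

end Pool.Agent.FpTrans
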