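import Pool.Agent.FpTrans.Step5
import Pool.Agent.FpTrans.Poly

/-!
# The step for `PolyProp`
-/

set_option autoImplicit false
open MeasureTheory Filter Topology
open scoped ENNReal

namespace Pool.Agent.FpTrans

theorem polyProp_step (p : ℕ) [Fact p.Prime] (e : ℕ) (B : ℕ → ℕ → ℕ) : ∃ B' : ℕ → ℕ → ℕ,
    ∀ (Γ : Type) [AddCommGroup Γ] [Countable Γ] (K : Type) [AddCommGroup K] [TopologicalSpace K]
      [IsTopologicalAddGroup K] [CompactSpace K] [T2Space K] [SecondCountableTopology K]
      [TotallyDisconnectedSpace K] [MeasurableSpace K] [BorelSpace K] (ν : Measure K)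
      [IsProbabilityMeasure ν] [ν.IsAddLeftInvariant] (S : Γ → K → K), IsAction ν S →
      (∀ g, Continuous (S g)) → PolyProp p ν S B →
      ∀ (I : Type) [Countable I] (η : Measure (I → ZMod p)) [IsProbabilityMeasure η]
        [η.IsAddLeftInvariant] (R : Γ → K → I → ZMod p), (∀ g, Continuous (R g)) →
        IsAction (ν.prod η) (ext S R) → IsErgodic (ν.prod η) (ext S R) →
        (∀ i, AEPoly (ν.prod η) (ext S R) e (fun y => y.2 i)) →
        PolyProp p (ν.prod η) (ext S R) B' := by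
  obtain ⟨B', hB'⟩ := polyProp_step_of p (fun N l => comp_digits.{0, 0} p 1 N l) e B
  refine ⟨B', ?_⟩
  intro Γ _ _ K _ _ _ _ _ _ _ _ _ ν _ _ S _ _ hPP I _ η _ _ R hR hT hE he
  exact hB' Γ K ν S hPP I η R hR hT hE he

end Pool.Agent.FpTrans
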