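import Pool.Agent.FpTrans.PolyAE
import Pool.Agent.FpTrans.Group
import Pool.Agent.FpTrans.Step
import Pool.Agent.FpTrans.Stage
import Pool.Agent.FpTrans.Inverse

/-!
# Assembly: systems generated by phase polynomials are translational
-/

set_option autoImplicit false
open MeasureTheory Filter Topology

namespace Pool.Agent.FpTrans

universe u v

/-- ergodicity passes to factors -/
theorem IsErgodic.factor {Γ : Type} [AddCommGroup Γ] [Countable Γ] {X : Type u}
    [MeasurableSpace X] {μ : Measure X} {T : Γ → X → X} (hT : IsAction μ T)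
    (hE : IsErgodic μ T) {Y : Type v} [MeasurableSpace Y] {ν : Measure Y} {S : Γ → Y → Y}
    {a : X → Y} (ha : MeasurePreserving a μ ν) (haS : ∀ g, ∀ᵐ x ∂μ, a (T g x) = S g (a x)) :
    IsErgodic ν S := by
  intro A hA hinv
  have h1 : ∀ g, T g ⁻¹' (a ⁻¹' A) =ᵐ[μ] a ⁻¹' A := by
    intro g
    filter_upwards [haS g] with x hx
    apply propext
    show a (T g x) ∈ A ↔ a x ∈ A
    rw [hx]
    have : S g (a x) ∈ A ↔ a x ∈ A := by
      have h2 := hinv g
      constructor
      · intro h; rw [← h2]; exact h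
      · intro h; rw [← h2] at h; exact h
    exact this
  rcases hE.ae_inv hT (ha.measurable hA) h1 with h | h
  · left; rwa [ha.measure_preimage hA.nullMeasurableSet] at h
  · right
    rw [← Set.preimage_compl, ha.measure_preimage hA.compl.nullMeasurableSet] at h
    exact h

theorem polish_of_compact (K : Type) [TopologicalSpace K] [CompactSpace K] [T2Space K]
    [SecondCountableTopology K] : PolishSpace K := by
  let _ := TopologicalSpace.metrizableSpaceMetric K
  infer_instance

/-- A factor of the system on a compact group, with a family of coordinates. -/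
structure Mdl (p : ℕ) {Γ : Type} [AddCommGroup Γ] {X : Type u} [MeasurableSpace X]
    (μ : Measure X) (T : Γ → X → X) (B : ℕ → ℕ → ℕ) (D : ℕ) where
  K : Type
  [grp : AddCommGroup K]
  [top : TopologicalSpace K]
  [tgrp : IsTopologicalAddGroup K]
  [cpt : CompactSpace K]
  [t2 : T2Space K]
  [sc : SecondCountableTopology K]
  [td : TotallyDisconnectedSpace K]
  [ms : MeasurableSpace K]
  [bs : BorelSpace K]
  ν : Measure K
  [prob : IsProbabilityMeasure ν]
  [inv : ν.IsAddLeftInvariant]
  S : Γ → K → K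
  hS : IsAction ν S
  hSc : ∀ g, Continuous (S g)
  a : X → K
  ha : MeasurePreserving a μ ν
  haS : ∀ g, ∀ᵐ x ∂μ, a (T g x) = S g (a x)
  pp : PolyProp p ν S B
  J : Type
  [cJ : Countable J]
  w : J → K →+ ZMod p
  hwc : ∀ j, Continuous (w j)
  hsep : ∀ k, (∀ j, w j k = 0) → k = 0
  hw : ∀ j, IsPoly (tm S) (D + 1) (w j)

attribute [instance] Mdl.grp Mdl.top Mdl.tgrp Mdl.cpt Mdl.t2 Mdl.sc Mdl.td Mdl.ms Mdl.bs
  Mdl.prob Mdl.inv Mdl.cJ

/-- the trivial model -/
theorem exists_base (p : ℕ) {Γ : Type} [AddCommGroup Γ] {X : Type u} [MeasurableSpace X]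
    (μ : Measure X) [IsProbabilityMeasure μ] (T : Γ → X → X) :
    Nonempty (Mdl p μ T (fun _ _ => 1) 0) := by
  refine ⟨{ K := Unit, ν := Measure.dirac (), S := fun _ k => k, inv := ?_, hS := ?_, hSc := ?_,
            a := fun _ => (), ha := ?_, haS := ?_, pp := ?_, J := Empty, w := Empty.elim,
            hwc := ?_, hsep := ?_, hw := ?_ }⟩
  · constructor
    intro g
    have : (fun x : Unit => g + x) = id := by funext x; rfl
    rw [this, Measure.map_id]
  · exact ⟨fun _ => rfl, fun _ _ _ => rfl, fun _ => MeasurePreserving.id _⟩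
  · exact fun _ => continuous_id
  · refine ⟨measurable_const, ?_⟩
    rw [Measure.map_const]; simp
  · exact fun g => Filter.Eventually.of_forall fun x => rfl
  · intro N l F hF _
    refine ⟨F, continuous_of_discreteTopology, ae_eq_refl _, ?_⟩
    intro i s
    show F (tm (fun _ k => k) i s) - F s = 0
    rw [Subsingleton.elim (tm (fun (_ : Γ) (k : Unit) => k) i s) s, sub_self]
  · exact fun j => j.elim
  · exact fun k _ => rfl
  · exact fun j => j.elim

/-- pulling back polynomials to a skew product -/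
theorem IsPoly.ext_fst {K U Γ : Type} [AddCommGroup K] [AddCommGroup U] {A : Type v}
    [AddCommGroup A] {S : Γ → K → K} {R : Γ → K → U} {n : ℕ} {f : K → A}
    (hf : IsPoly (tm S) n f) : IsPoly (tm (ext S R)) n (fun y : K × U => f y.1) := by
  refine hf.comp_map (t' := tm (ext S R)) Prod.fst
    (fun i => match i with
      | .inl y => .inl y.1
      | .inr g => .inr g) ?_
  rintro (y | g) s <;> rfl

theorem ae_of_factor_eq {X : Type u} [MeasurableSpace X] {μ : Measure X} {K : Type}
    [TopologicalSpace K] [MeasurableSpace K] [BorelSpace K] {ν : Measure K}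
    [ν.IsOpenPosMeasure] {Z : Type} [TopologicalSpace Z] [T2Space Z] [MeasurableSpace Z]
    [SecondCountableTopology Z] [BorelSpace Z] {a : X → K} (ha : MeasurePreserving a μ ν)
    {f g : K → Z} (hf : Continuous f) (hg : Continuous g) (h : ∀ᵐ x ∂μ, f (a x) = g (a x)) :
    f = g := by
  rw [← Continuous.ae_eq_iff_eq ν hf hg]
  show ∀ᵐ k ∂ν, f k = g k
  rw [← ha.map_eq, ae_map_iff (p := fun k => f k = g k) ha.measurable.aemeasurable
    (measurableSet_eq_fun hf.measurable hg.measurable)]
  exact h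

theorem next (p R n : ℕ) [Fact p.Prime] (B : ℕ → ℕ → ℕ) (D : ℕ) :
    ∃ (B' : ℕ → ℕ → ℕ) (D' : ℕ), ∀ (Γ : Type) [AddCommGroup Γ] [Countable Γ] (X : Type u)
      [MeasurableSpace X] [StandardBorelSpace X] (μ : Measure X) [IsProbabilityMeasure μ]
      (T : Γ → X → X), IsAction μ T → IsErgodic μ T → ∀ M : Mdl p μ T B D,
      ∃ M' : Mdl p μ T B' D', (∀ Q : X → ZMod (p ^ (R + 1)), Capt μ M.a Q → Capt μ M'.a Q) ∧
        ∀ Q : X → ZMod (p ^ (R + 1)), Measurable Q → AEPoly μ T n Q →
          (∀ g, Capt μ M.a fun x => Q (T g x) - Q x) → Capt μ M.a (fun x => p • Q x) →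
          Capt μ M'.a Q := by
  obtain ⟨e0, he0⟩ := comp_digits.{u, 0} p (R + 1) 1 n
  obtain ⟨B', hB'⟩ := polyProp_step p (e0 + 1) B
  refine ⟨B', max D (max 1 (B 1 e0)), ?_⟩
  intro Γ _ _ X _ _ μ _ T hT hE M
  have hpol : PolishSpace M.K := polish_of_compact M.K
  obtain ⟨I, hI, η, hη1, hη2, V, hV, hVP, hVc, hVq⟩ :=
    stage p R n μ T hT hE M.K M.ν M.S M.hS M.a M.ha M.haS
  have hpos : M.ν.IsOpenPosMeasure :=
    isOpenPosMeasure_of_addLeftInvariant_of_compact (μ := M.ν) Set.univ isCompact_univ (by simp)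
  set c1 : ZMod p ≃+* ZMod (p ^ 1) := ZMod.ringEquivCongr (pow_one p).symm with hc1
  -- the new coordinates are polynomials
  have hVpoly : ∀ i, AEPoly μ T e0 (fun x => V x i) := by
    intro i
    obtain ⟨P, hPm, hPp, hPV⟩ := hVP i
    obtain ⟨P', hP'm, hP'e, hP'p⟩ := hPp.exists_isPoly hT hPm
    have h1 := he0 X Γ T P' hP'p (fun a => c1 (Pool.Agent.FpTrans.td p R a))
    have h2 : IsPoly T e0 (fun x => Pool.Agent.FpTrans.td p R (P' x)) :=
      IsPoly.of_hom c1.toAddMonoidHom c1.injective h1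
    refine (AEPoly.of_isPoly h2).congr hT.qmp ?_
    filter_upwards [hP'e] with x hx
    rw [hPV, hx]
  -- the cocycle
  choose r hrm hr using hVc
  have hrpoly : ∀ g i, AEPoly M.ν M.S e0 (r g i) := by
    intro g i
    refine AEPoly.of_comp_factor M.ha hT.qmp (fun g => (M.hS.mp g).measurable) M.haS (hrm g i) ?_
    have h1 : AEPoly μ T e0 (fun x => V (T g x) i - V x i) := ((hVpoly i).succ hT.qmp) g
    exact h1.congr hT.qmp (hr g i).symm
  have hrc : ∀ g i, ∃ f : M.K → ZMod p, Continuous f ∧ f =ᵐ[M.ν] r g i ∧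
      IsPoly (tm M.S) (B 1 e0) f := by
    intro g i
    have hm : Measurable fun k => c1 (r g i k) := (measurable_of_countable (⇑c1)).comp (hrm g i)
    obtain ⟨f, hfc, hfe, hfp⟩ := M.pp 1 e0 (fun k => c1 (r g i k)) hm
      ((hrpoly g i).hom c1.toAddMonoidHom)
    refine ⟨fun k => c1.symm (f k), continuous_of_discreteTopology.comp hfc, ?_, ?_⟩
    · filter_upwards [hfe] with k hk
      rw [hk]; simp
    · exact hfp.hom c1.symm.toAddMonoidHom
  choose f hfc hfe hfp using hrc
  set Rr : Γ → M.K → I → ZMod p := fun g k i => f g i k with hRr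
  have hRc : ∀ g, Continuous (Rr g) := fun g => continuous_pi fun i => hfc g i
  have hVT : ∀ g, ∀ᵐ x ∂μ, V (T g x) = V x + Rr g (M.a x) := by
    intro g
    have h1 : ∀ i, ∀ᵐ x ∂μ, V (T g x) i = V x i + Rr g (M.a x) i := by
      intro i
      have h2 : ∀ᵐ x ∂μ, f g i (M.a x) = r g i (M.a x) :=
        M.ha.quasiMeasurePreserving.ae (hfe g i)
      filter_upwards [hr g i, h2] with x hx1 hx2
      simp only [hRr]
      rw [hx2, ← hx1]; ring
    filter_upwards [ae_all_iff.2 h1] with x hx
    funext i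
    exact hx i
  have haS' : ∀ g, ∀ᵐ x ∂μ, (M.a (T g x), V (T g x)) = ext M.S Rr g (M.a x, V x) := by
    intro g
    filter_upwards [M.haS g, hVT g] with x hx1 hx2
    simp only [ext]
    rw [hx1, hx2]
  have hact : IsAction (M.ν.prod η) (ext M.S Rr) := by
    refine ⟨?_, ?_, ?_⟩
    · intro y
      have h0 : Rr 0 = fun _ => 0 := by
        refine ae_of_factor_eq M.ha (hRc 0) continuous_const ?_
        filter_upwards [hVT 0] with x hx
        rw [hT.zero] at hx
        exact left_eq_add.1 hx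
      simp only [ext, M.hS.zero, h0]
      simp
    · intro g h y
      have h0 : Rr (g + h) = fun k => Rr h k + Rr g (M.S h k) := by
        refine ae_of_factor_eq M.ha (hRc _) ((hRc h).add ((hRc g).comp (M.hSc h))) ?_
        filter_upwards [hVT (g + h), hVT h, (hT.qmp h).ae (hVT g), M.haS h] with x h1 h2 h3 h4
        rw [hT.add, h3, h2, h4, add_assoc] at h1
        exact (add_left_cancel h1).symm
      simp only [ext, M.hS.add, h0]
      rw [add_assoc]
    · intro g
      refine (M.hS.mp g).skew_product (g := fun k u => u + Rr g k) ?_ ?_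
      · exact (continuous_snd.add ((hRc g).comp continuous_fst)).measurable
      · refine Filter.Eventually.of_forall fun k => ?_
        have : (fun u : I → ZMod p => u + Rr g k) = fun u => Rr g k + u := by
          funext u; rw [add_comm]
        rw [this]
        exact map_add_left_eq_self η _
  have hE' : IsErgodic (M.ν.prod η) (ext M.S Rr) := hE.factor hT hV haS'
  have hcoord : ∀ i, AEPoly (M.ν.prod η) (ext M.S Rr) (e0 + 1) (fun y => y.2 i) := by
    intro i
    refine AEPoly.of_comp_factor hV hT.qmp (fun g => (hact.mp g).measurable) haS'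
      ((measurable_pi_apply i).comp measurable_snd) ?_
    exact (hVpoly i).succ hT.qmp
  have hpp := hB' Γ M.K M.ν M.S M.hS M.hSc M.pp I η Rr hRc hact hE' hcoord
  have hinv : (M.ν.prod η).IsAddLeftInvariant := Measure.prod.instIsAddLeftInvariant
  refine ⟨{ K := M.K × (I → ZMod p), ν := M.ν.prod η, inv := hinv, S := ext M.S Rr,
            hS := hact, hSc := ?_,
            a := fun x => (M.a x, V x), ha := hV, haS := haS', pp := hpp, J := M.J ⊕ I,
            w := Sum.elim (fun j => (M.w j).comp (AddMonoidHom.fst _ _))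
              (fun i => (Pi.evalAddMonoidHom _ i).comp (AddMonoidHom.snd _ _)),
            hwc := ?_, hsep := ?_, hw := ?_ }, ?_, ?_⟩
  · intro g
    exact ((M.hSc g).comp continuous_fst).prodMk
      (continuous_snd.add ((hRc g).comp continuous_fst))
  · rintro (j | i)
    · exact (M.hwc j).comp continuous_fst
    · exact (continuous_apply i).comp continuous_snd
  · rintro ⟨k, u⟩ h
    have h1 : k = 0 := M.hsep k fun j => h (Sum.inl j)
    have h2 : u = 0 := funext fun i => h (Sum.inr i)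
    rw [h1, h2]; rfl
  · rintro (j | i)
    · exact (IsPoly.ext_fst (M.hw j)).mono (by simp)
    · have h1 : IsPoly (tm (ext M.S Rr)) (max 1 (B 1 e0) + 1)
          (fun y : M.K × (I → ZMod p) => y.2 i) := by
        rintro (y | g)
        · refine IsPoly.mono (le_max_left _ _) ((IsPoly.const (y.2 i)).congr fun s => ?_)
          simp [tm]
        · refine IsPoly.mono (le_max_right _ _) ((IsPoly.ext_fst (hfp g i)).congr fun s => ?_)
          simp [tm, ext, hRr]
      exact h1.mono (by simp)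
  · rintro Q ⟨F, hF, hQ⟩
    exact ⟨fun y => F y.1, hF.comp measurable_fst, hQ⟩
  · intro Q hQm hQp hQ1 hQ2
    exact hVq Q hQm hQp hQ1 hQ2

theorem exists_model (p R : ℕ) [Fact p.Prime] : ∀ m t : ℕ, t ≤ R + 1 →
    ∃ (B : ℕ → ℕ → ℕ) (D : ℕ), ∀ (Γ : Type) [AddCommGroup Γ] [Countable Γ] (X : Type u)
      [MeasurableSpace X] [StandardBorelSpace X] (μ : Measure X) [IsProbabilityMeasure μ]
      (T : Γ → X → X), IsAction μ T → IsErgodic μ T → ∃ M : Mdl p μ T B D,
        (∀ Q : X → ZMod (p ^ (R + 1)), Measurable Q → AEPoly μ T m Q → Capt μ M.a Q) ∧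
        ∀ Q : X → ZMod (p ^ (R + 1)), Measurable Q → AEPoly μ T (m + 1) Q →
          Capt μ M.a (fun x => p ^ (R + 1 - t) • Q x) := by
  have hzero : ∀ x : ZMod (p ^ (R + 1)), p ^ (R + 1) • x = 0 := by
    intro x
    rw [nsmul_eq_mul, ZMod.natCast_self, zero_mul]
  intro m
  induction m with
  | zero =>
    intro t
    induction t with
    | zero =>
      intro _
      refine ⟨fun _ _ => 1, 0, fun Γ _ _ X _ _ μ _ T hT hE => ?_⟩
      obtain ⟨M⟩ := exists_base p μ T
      refine ⟨M, fun Q hQm hQ => ⟨fun _ => 0, measurable_const, hQ⟩,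
        fun Q hQm hQ => ⟨fun _ => 0, measurable_const, ?_⟩⟩
      exact Filter.Eventually.of_forall fun x => hzero (Q x)
    | succ t iht =>
      intro ht
      obtain ⟨B, D, hBD⟩ := iht (by omega)
      obtain ⟨B', D', hBD'⟩ := next.{u} p R (0 + 1) B D
      refine ⟨B', D', fun Γ _ _ X _ _ μ _ T hT hE => ?_⟩
      obtain ⟨M, hM1, hM2⟩ := hBD Γ X μ T hT hE
      obtain ⟨M', hM'1, hM'2⟩ := hBD' Γ X μ T hT hE M
      refine ⟨M', fun Q hQm hQ => hM'1 Q (hM1 Q hQm hQ), fun Q hQm hQ => ?_⟩
      have hQ'm : Measurable fun x => p ^ (R + 1 - (t + 1)) • Q x :=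
        (measurable_of_countable (fun a : ZMod (p ^ (R + 1)) => p ^ (R + 1 - (t + 1)) • a)).comp hQm
      have hQ' : AEPoly μ T (0 + 1) fun x => p ^ (R + 1 - (t + 1)) • Q x := hQ.nsmul _
      refine hM'2 _ hQ'm hQ' (fun g => ?_) ?_
      · refine hM1 _ ((hQ'm.comp (hT.mp g).measurable).sub hQ'm) (hQ' g)
      · obtain ⟨F, hF, hFe⟩ := hM2 Q hQm hQ
        refine ⟨F, hF, ?_⟩
        filter_upwards [hFe] with x hx
        rw [← hx, smul_smul, ← pow_succ']
        congr 2
        omega
  | succ m ihm =>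
    intro t
    induction t with
    | zero =>
      intro _
      obtain ⟨B, D, hBD⟩ := ihm (R + 1) le_rfl
      refine ⟨B, D, fun Γ _ _ X _ _ μ _ T hT hE => ?_⟩
      obtain ⟨M, hM1, hM2⟩ := hBD Γ X μ T hT hE
      refine ⟨M, fun Q hQm hQ => ?_, fun Q hQm hQ => ⟨fun _ => 0, measurable_const, ?_⟩⟩
      · have := hM2 Q hQm hQ
        simpa using this
      · exact Filter.Eventually.of_forall fun x => hzero (Q x)
    | succ t iht =>
      intro ht
      obtain ⟨B, D, hBD⟩ := iht (by omega)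
      obtain ⟨B', D', hBD'⟩ := next.{u} p R (m + 1 + 1) B D
      refine ⟨B', D', fun Γ _ _ X _ _ μ _ T hT hE => ?_⟩
      obtain ⟨M, hM1, hM2⟩ := hBD Γ X μ T hT hE
      obtain ⟨M', hM'1, hM'2⟩ := hBD' Γ X μ T hT hE M
      refine ⟨M', fun Q hQm hQ => hM'1 Q (hM1 Q hQm hQ), fun Q hQm hQ => ?_⟩
      have hQ'm : Measurable fun x => p ^ (R + 1 - (t + 1)) • Q x :=
        (measurable_of_countable (fun a : ZMod (p ^ (R + 1)) => p ^ (R + 1 - (t + 1)) • a)).comp hQm
      have hQ' : AEPoly μ T (m + 1 + 1) fun x => p ^ (R + 1 - (t + 1)) • Q x := hQ.nsmul _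
      refine hM'2 _ hQ'm hQ' (fun g => ?_) ?_
      · refine hM1 _ ((hQ'm.comp (hT.mp g).measurable).sub hQ'm) (hQ' g)
      · obtain ⟨F, hF, hFe⟩ := hM2 Q hQm hQ
        refine ⟨F, hF, ?_⟩
        filter_upwards [hFe] with x hx
        rw [← hx, smul_smul, ← pow_succ']
        congr 2
        omega

/-- phase polynomials are captured once all `ℤ/p^(C+1)`-valued polynomials are -/
theorem phase_capt {p : ℕ} [Fact p.Prime] {Γ : Type} [AddCommGroup Γ] [Countable Γ]
    (hΓ : ∀ g : Γ, p • g = 0) {X : Type u} [MeasurableSpace X] {μ : Measure X}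
    {T : Γ → X → X} (hT : IsAction μ T) (hE : IsErgodic μ T) {K : Type} [MeasurableSpace K]
    {a : X → K} {C : ℕ}
    (hcap : ∀ Q : X → ZMod (p ^ (C + 1)), Measurable Q → AEPoly μ T (C + 1) Q → Capt μ a Q)
    {P : X → UnitAddCircle} (hP : IsPhasePoly μ T C P) : Capt μ a P := by
  have hp : 0 < p := (Fact.out : p.Prime).pos
  obtain ⟨hPm, hPp⟩ := hP
  have h1 := hPp.torsion hp hΓ hT
  obtain ⟨c0, hc0⟩ := hE.const hT (f := fun x => p ^ C • P x)
    ((continuous_nsmul (p ^ C)).measurable.comp hPm) (fun g => by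
    filter_upwards [h1 g] with x hx
    rw [smul_sub] at hx
    exact sub_eq_zero.1 hx)
  obtain ⟨c, hc⟩ : ∃ c : UnitAddCircle, p ^ C • c = c0 := by
    induction c0 using QuotientAddGroup.induction_on with
    | H r =>
      refine ⟨((r / p ^ C : ℝ) : UnitAddCircle), ?_⟩
      rw [← AddCircle.coe_nsmul]
      congr 1
      rw [nsmul_eq_mul]
      push_cast
      field_simp
  set N : ℕ := p ^ (C + 1) with hN
  have hNpos : 0 < N := pow_pos hp _
  have hmem : MeasurableEmbedding (ZMod.toAddCircle : ZMod N →+ UnitAddCircle) := by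
    refine ⟨ZMod.toAddCircle_injective N, measurable_of_countable _, ?_⟩
    intro s _
    exact (s.toFinite.image _).measurableSet
  obtain ⟨h, hhm, hh⟩ := hmem.exists_measurable_extend (g := id) measurable_id
    (fun _ => ⟨(0 : ZMod N)⟩)
  have hQ : (fun x => P x - c) =ᵐ[μ] fun x => ZMod.toAddCircle (h (P x - c)) := by
    filter_upwards [hc0] with x hx
    have h2 : N • (P x - c) = 0 := by
      rw [hN, pow_succ, mul_comm, mul_smul, smul_sub, hx, hc, sub_self, smul_zero]
    rw [AddCircle.nsmul_eq_zero_iff hNpos] at h2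
    obtain ⟨m, hm, hm2⟩ := h2
    have h3 : (ZMod.toAddCircle (m : ZMod N) : UnitAddCircle) = P x - c := by
      rw [← hm2, ZMod.toAddCircle_natCast]
      simp
    rw [← h3]
    have h4 := congrFun hh (m : ZMod N)
    simp only [Function.comp_apply, id] at h4
    rw [h4]
  have hpoly : AEPoly μ T (C + 1) (fun x => h (P x - c)) := by
    apply AEPoly.of_hom (ZMod.toAddCircle : ZMod N →+ UnitAddCircle) (ZMod.toAddCircle_injective N)
    refine AEPoly.congr hT.qmp (hPp.sub ((AEPoly.const c).mono (by omega) hT.qmp)) hQ.symm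
  obtain ⟨F, hF, hFe⟩ := hcap (fun x => h (P x - c)) (hhm.comp (hPm.sub_const c)) hpoly
  refine ⟨fun k => ZMod.toAddCircle (F k) + c,
    ((measurable_of_countable (ZMod.toAddCircle : ZMod N →+ UnitAddCircle)).comp hF).add_const c, ?_⟩
  filter_upwards [hQ, hFe] with x h5 h6
  rw [← h6, ← h5, sub_add_cancel]

theorem main (p C : ℕ) [Fact p.Prime] : ∃ D : ℕ, ∀ (Γ : Type) [AddCommGroup Γ] [Countable Γ],
    (∀ g : Γ, p • g = 0) → ∀ (X : Type u) [MeasurableSpace X] [StandardBorelSpace X]
      (μ : Measure X) [IsProbabilityMeasure μ] (T : Γ → X → X), IsAction μ T → IsErgodic μ T →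
      IsAbramov μ T C → IsTranslational μ T D := by
  obtain ⟨B, D, hBD⟩ := exists_model.{u} p C (C + 1) 0 (Nat.zero_le _)
  refine ⟨D, fun Γ _ _ hΓ X _ _ μ _ T hT hE hA => ?_⟩
  obtain ⟨M, hM1, -⟩ := hBD Γ X μ T hT hE
  have hpol : PolishSpace M.K := polish_of_compact M.K
  have hcap : ∀ P : X → UnitAddCircle, IsPhasePoly μ T C P → Capt μ M.a P := fun P hP =>
    phase_capt hΓ hT hE (fun Q hQm hQ => hM1 Q hQm hQ) hP
  -- density of captured functions
  have hd : Dense {f : Lp ℂ 2 μ | ∃ h : M.K → ℂ, Measurable h ∧ f =ᵐ[μ] fun x => h (M.a x)} := by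
    let W : Submodule ℂ (Lp ℂ 2 μ) :=
      { carrier := {f | ∃ h : M.K → ℂ, Measurable h ∧ f =ᵐ[μ] fun x => h (M.a x)}
        add_mem' := by
          rintro f g ⟨h1, h1m, h1e⟩ ⟨h2, h2m, h2e⟩
          refine ⟨fun k => h1 k + h2 k, h1m.add h2m, ?_⟩
          filter_upwards [Lp.coeFn_add f g, h1e, h2e] with x e1 e2 e3
          rw [e1, Pi.add_apply, e2, e3]
        zero_mem' := ⟨fun _ => 0, measurable_const, Lp.coeFn_zero _ _ _⟩
        smul_mem' := by
          rintro c f ⟨h1, h1m, h1e⟩
          refine ⟨fun k => c • h1 k, h1m.const_smul c, ?_⟩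
          filter_upwards [Lp.coeFn_smul c f, h1e] with x e1 e2
          rw [e1, Pi.smul_apply, e2] }
    have hsub : Submodule.span ℂ {f : Lp ℂ 2 μ | ∃ P : X → UnitAddCircle, IsPhasePoly μ T C P ∧
        f =ᵐ[μ] fun x => (AddCircle.toCircle (P x) : ℂ)} ≤ W := ?_
    · exact Dense.mono (s₂ := (W : Set (Lp ℂ 2 μ))) (SetLike.coe_subset_coe.2 hsub) hA
    rw [Submodule.span_le]
    rintro f ⟨P, hP, hf⟩
    obtain ⟨F, hF, hFe⟩ := hcap P hP
    refine ⟨fun k => (AddCircle.toCircle (F k) : ℂ), ?_, ?_⟩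
    · have hc : Continuous fun t : UnitAddCircle => (AddCircle.toCircle t : ℂ) :=
        continuous_subtype_val.comp AddCircle.continuous_toCircle
      exact hc.measurable.comp hF
    · filter_upwards [hf, hFe] with x h1 h2
      rw [h1, h2]
  obtain ⟨b, hb, hba, hab⟩ := exists_inverse μ M.ν M.a M.ha hd
  obtain ⟨G, i1, i2, i3, i4, F, hF, L, hL, φ, e, he, heν⟩ :=
    exists_group p Γ M.K M.ν M.S M.hS M.hSc M.J M.w M.hwc M.hsep D M.hw
  let _ : MeasurableSpace (G ⧸ L) := borel _
  have _ : BorelSpace (G ⧸ L) := ⟨rfl⟩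
  have hes : MeasurePreserving e.symm M.ν (M.ν.map e.symm) := ⟨e.symm.continuous.measurable, rfl⟩
  have he' : MeasurePreserving e (M.ν.map e.symm) M.ν := by
    refine ⟨e.continuous.measurable, ?_⟩
    rw [Measure.map_map e.continuous.measurable e.symm.continuous.measurable]
    have : (e ∘ e.symm : M.K → M.K) = id := by funext k; simp
    rw [this, Measure.map_id]
  have hprob : IsProbabilityMeasure (M.ν.map e.symm) :=
    Measure.isProbabilityMeasure_map e.symm.continuous.measurable.aemeasurable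
  have hcomp : CompactSpace (G ⧸ L) := e.symm.compactSpace
  refine ⟨G, i1, i2, i3, i4, F, hF, L, hL, hcomp, inferInstance, inferInstance,
    M.ν.map e.symm, hprob, ?_, φ, fun x => e.symm (M.a x), fun y => b (e y),
    hes.comp M.ha, hb.comp e.continuous.measurable, ?_, ?_, ?_⟩
  · intro g
    have h1 := (hes.comp (heν g)).comp he'
    have h2 : (fun y : G ⧸ L => g • y) =
        ((e.symm : M.K → G ⧸ L) ∘ fun k => e (g • e.symm k)) ∘ e := by
      funext y; simp
    rw [h2]; exact h1
  · filter_upwards [hba] with x hx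
    simp [hx]
  · have h1 : ∀ᵐ y ∂(M.ν.map e.symm), M.a (b (e y)) = e y := he'.quasiMeasurePreserving.ae hab
    filter_upwards [h1] with y hy
    rw [hy]; simp
  · intro g
    filter_upwards [M.haS g] with x hx
    rw [hx]
    apply e.injective
    rw [he]
    simp

end Pool.Agent.FpTrans
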