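import Pool.Agent.FpTrans.Main

/-!
# MP_323ac4_an: systems generated by phase polynomials are translational, of bounded degree

For every prime `p` and every `C` there is `D` such that every ergodic system of a countable
abelian group of exponent `p` (for instance `F_p^ω`) that is generated by phase polynomials of
degree at most `C` is isomorphic to a translational system of degree `D`.
-/

set_option autoImplicit false
open MeasureTheory Pool.Agent.FpTrans

namespace Pool.Agent.FpTrans.AbramovTranslational

universe u

/-- For every prime `p` and every `C` there is `D` such that every ergodic measure preserving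
`Γ`-system on a standard Borel probability space, `Γ` a countable abelian group of exponent `p`,
which is Abramov of order `C`, is a translational system of degree `D`. -/
theorem result (p C : ℕ) [Fact p.Prime] :
    ∃ D : ℕ, ∀ (Γ : Type) [AddCommGroup Γ] [Countable Γ], (∀ g : Γ, p • g = 0) →
      ∀ (X : Type u) [MeasurableSpace X] [StandardBorelSpace X] (μ : Measure X)
        [IsProbabilityMeasure μ] (T : Γ → X → X),
        IsAction μ T → IsErgodic μ T → IsAbramov μ T C → IsTranslational μ T D := by
  obtain ⟨D, hD⟩ := main.{u} p C
  exact ⟨D, fun Γ _ _ hΓ X _ _ μ _ T h1 h2 h3 => hD Γ hΓ X μ T h1 h2 h3⟩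

end Pool.Agent.FpTrans.AbramovTranslational
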