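import Mathlib

/-!
# Measure preserving actions of countable abelian groups, phase polynomials, translational systems
-/

set_option autoImplicit false
open MeasureTheory

namespace Pool.Agent.FpTrans

/-- The countable group `F_p^ω`, the direct sum of countably many copies of `ℤ/p`. -/
abbrev Fpω (p : ℕ) := ℕ →₀ ZMod p

/-- `T` is a measure preserving action of the (additive) group `Γ` on `(X, μ)`. -/
structure IsAction {Γ X : Type*} [AddCommGroup Γ] [MeasurableSpace X] (μ : Measure X)
    (T : Γ → X → X) : Prop where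
  zero : ∀ x, T 0 x = x
  add : ∀ g h x, T (g + h) x = T g (T h x)
  mp : ∀ g, MeasurePreserving (T g) μ μ

/-- Ergodicity: an invariant measurable set is null or conull. -/
def IsErgodic {Γ X : Type*} [MeasurableSpace X] (μ : Measure X) (T : Γ → X → X) : Prop :=
  ∀ A : Set X, MeasurableSet A → (∀ g, T g ⁻¹' A = A) → μ A = 0 ∨ μ Aᶜ = 0

/-- `f` is, up to null sets, a polynomial of degree `< n` along the family of maps `T`:
all its `n`-fold differences `f (T g x) - f x` vanish almost everywhere. -/
def AEPoly {X ι A : Type*} [MeasurableSpace X] [AddCommGroup A] (μ : Measure X)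
    (T : ι → X → X) : ℕ → (X → A) → Prop
  | 0, f => f =ᵐ[μ] 0
  | n + 1, f => ∀ g, AEPoly μ T n (fun x => f (T g x) - f x)

/-- A (measurable) phase polynomial of degree at most `C`, written additively in `ℝ/ℤ`. -/
def IsPhasePoly {X Γ : Type*} [MeasurableSpace X] (μ : Measure X) (T : Γ → X → X) (C : ℕ)
    (P : X → UnitAddCircle) : Prop :=
  Measurable P ∧ AEPoly μ T (C + 1) P

/-- The system is Abramov of order `C`: the functions `exp(2πi P)`, where `P` is a phase polynomial
of degree at most `C`, span a dense subspace of `L²(μ)`. -/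
def IsAbramov {X Γ : Type*} [MeasurableSpace X] (μ : Measure X) (T : Γ → X → X) (C : ℕ) : Prop :=
  Dense ((Submodule.span ℂ {f : Lp ℂ 2 μ | ∃ P : X → UnitAddCircle, IsPhasePoly μ T C P ∧
    f =ᵐ[μ] fun x => (AddCircle.toCircle (P x) : ℂ)} : Submodule ℂ (Lp ℂ 2 μ)) : Set (Lp ℂ 2 μ))

/-- `F` is a filtration of degree `D` of the topological group `G`: closed subgroups
`G = F 0 = F 1 ⊇ F 2 ⊇ ⋯ ⊇ F (D+1) = 1` with `[F i, F j] ⊆ F (i+j)`. -/
structure IsFiltration {G : Type*} [Group G] [TopologicalSpace G] (F : ℕ → Subgroup G) (D : ℕ) :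
    Prop where
  closed : ∀ i, IsClosed (F i : Set G)
  zero : F 0 = ⊤
  one : F 1 = ⊤
  anti : Antitone F
  comm : ∀ i j, ⁅F i, F j⁆ ≤ F (i + j)
  bot : F (D + 1) = ⊥

/-- The measure preserving system `(X, μ, T)` of the additive group `Γ` is (isomorphic to) a
translational system of degree `D`: there are a Polish group `G` with a filtration of degree `D`, a
closed cocompact subgroup `L` of `G`, a `G`-invariant Borel probability measure `ν` on `G ⧸ L`, a
homomorphism `φ : Γ → G`, and an isomorphism of measure preserving systems from `X` onto `G ⧸ L`,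
on which `Γ` acts by the translations `φ g`. -/
def IsTranslational {X Γ : Type*} [AddCommGroup Γ] [MeasurableSpace X] (μ : Measure X)
    (T : Γ → X → X) (D : ℕ) : Prop :=
  ∃ (G : Type) (_ : Group G) (_ : TopologicalSpace G) (_ : IsTopologicalGroup G)
    (_ : PolishSpace G) (F : ℕ → Subgroup G) (_ : IsFiltration F D)
    (L : Subgroup G) (_ : IsClosed (L : Set G)) (_ : CompactSpace (G ⧸ L))
    (_ : MeasurableSpace (G ⧸ L)) (_ : BorelSpace (G ⧸ L)) (ν : Measure (G ⧸ L))
    (_ : IsProbabilityMeasure ν) (_ : ∀ g : G, MeasurePreserving (fun y : G ⧸ L => g • y) ν ν)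
    (φ : Multiplicative Γ →* G) (a : X → G ⧸ L) (b : G ⧸ L → X),
    MeasurePreserving a μ ν ∧ Measurable b ∧ (∀ᵐ x ∂μ, b (a x) = x) ∧ (∀ᵐ y ∂ν, a (b y) = y) ∧
      ∀ g, ∀ᵐ x ∂μ, a (T g x) = φ (Multiplicative.ofAdd g) • a x

end Pool.Agent.FpTrans
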