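import Pool.Agent.FpTrans.Defs

set_option autoImplicit false
open MeasureTheory Filter Topology

namespace Pool.Agent.FpTrans

universe u v w

/-- `f` is a polynomial of degree `< n` along the family of maps `t` (everywhere). -/
def IsPoly {S : Type u} {ι : Type v} {A : Type w} [AddCommGroup A] (t : ι → S → S) :
    ℕ → (S → A) → Prop
  | 0, f => ∀ s, f s = 0
  | n + 1, f => ∀ i, IsPoly t n (fun s => f (t i s) - f s)

/-- The translations of `K` together with the maps `S g`. -/
def tm {K Γ : Type} [Add K] (S : Γ → K → K) : K ⊕ Γ → K → K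
  | .inl a => fun k => k + a
  | .inr g => S g

/-- Every measurable a.e. polynomial on `K` is a continuous polynomial w.r.t. translations and
`S`, with bounds `B`. -/
def PolyProp {K Γ : Type} [AddCommGroup K] [TopologicalSpace K] [MeasurableSpace K] (p : ℕ)
    (ν : Measure K) (S : Γ → K → K) (B : ℕ → ℕ → ℕ) : Prop :=
  ∀ (N l : ℕ) (F : K → ZMod (p ^ N)), Measurable F → AEPoly ν S l F →
    ∃ f : K → ZMod (p ^ N), Continuous f ∧ f =ᵐ[ν] F ∧ IsPoly (tm S) (B N l) f

/-- skew product -/
def ext {K U Γ : Type} [Add U] (S : Γ → K → K) (R : Γ → K → U) : Γ → K × U → K × U :=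
  fun g y => (S g y.1, y.2 + R g y.1)

/-- `Q` is (a.e.) a measurable function of `a`. -/
def Capt {X : Type u} {Y : Type v} {A : Type w} [MeasurableSpace X] [MeasurableSpace Y]
    [MeasurableSpace A] (μ : Measure X) (a : X → Y) (Q : X → A) : Prop :=
  ∃ f : Y → A, Measurable f ∧ Q =ᵐ[μ] fun x => f (a x)

/-- the top digit -/
def td (p R : ℕ) (a : ZMod (p ^ (R + 1))) : ZMod p := ((a.val / p ^ R : ℕ) : ZMod p)

end Pool.Agent.FpTrans
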