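import Pool.Agent.FpTrans.StageA

set_option autoImplicit false
set_option linter.unusedSectionVars false
open MeasureTheory Filter Topology

namespace Pool.Agent.FpTrans

universe u v w

section orth

variable {Γ : Type} [AddCommGroup Γ] [Countable Γ] {X : Type u} [MeasurableSpace X]
  {μ : Measure X} [IsProbabilityMeasure μ] {T : Γ → X → X} {K : Type v} [MeasurableSpace K]
  {ν : Measure K} [IsProbabilityMeasure ν] {S : Γ → K → K} {a : X → K}

lemma st_char_sum {N : ℕ} [NeZero N] {J : Type*} (s : Finset J) (f : J → ZMod N) :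
    (ZMod.stdAddChar (∑ j ∈ s, f j) : ℂ) = ∏ j ∈ s, ZMod.stdAddChar (f j) := by
  classical
  induction s using Finset.induction_on with
  | empty => simp
  | insert i s hi ih =>
    rw [Finset.sum_insert hi, Finset.prod_insert hi, AddChar.map_add_eq_mul, ih]

lemma st_low_capt {p R : ℕ} [Fact p.Prime] {P : X → ZMod (p ^ (R + 1))}
    (hPp : Capt μ a (fun x => p • P x)) : Capt μ a (fun x => st_low p R (P x)) := by
  obtain ⟨φ, hφ⟩ := st_low_factor p R
  have := st_capt_comp (φ := φ) hPp (measurable_of_countable φ)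
  simpa only [hφ] using this

/-- the differences of the top digit are captured -/
lemma st_td_capt (hT : IsAction μ T) (hS : IsAction ν S)
    (haS : ∀ g, ∀ᵐ x ∂μ, a (T g x) = S g (a x)) {p R : ℕ} [Fact p.Prime]
    {P : X → ZMod (p ^ (R + 1))} (hPp : Capt μ a (fun x => p • P x)) (g : Γ)
    (hPd : Capt μ a (fun x => P (T g x) - P x)) :
    Capt μ a (fun x => td p R (P (T g x)) - td p R (P x)) := by
  have h1 := st_low_capt hPp
  have h2 := st_capt_action h1 (hT.mp g) (hS.mp g).measurable (haS g)
  have h3 : Capt μ a (fun x => (P (T g x) - P x) - (st_low p R (P (T g x)) - st_low p R (P x))) :=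
    (st_capt μ a (p ^ (R + 1))).sub_mem hPd ((st_capt μ a (p ^ (R + 1))).sub_mem h2 h1)
  have h4 : ∀ x, (P (T g x) - P x) - (st_low p R (P (T g x)) - st_low p R (P x)) =
      st_iota p R (td p R (P (T g x)) - td p R (P x)) := by
    intro x
    rw [map_sub]
    have e1 := st_decomp p R (P (T g x))
    have e2 := st_decomp p R (P x)
    calc (P (T g x) - P x) - (st_low p R (P (T g x)) - st_low p R (P x))
        = ((st_low p R (P (T g x)) + st_iota p R (td p R (P (T g x)))) -
          (st_low p R (P x) + st_iota p R (td p R (P x)))) -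
          (st_low p R (P (T g x)) - st_low p R (P x)) := by rw [← e1, ← e2]
      _ = _ := by abel
  have h5 := st_capt_comp (φ := Function.invFun (st_iota p R)) h3 (measurable_of_countable _)
  simp only [h4, Function.leftInverse_invFun (st_iota_injective p R) _] at h5
  exact h5

lemma st_sum_decomp {p R : ℕ} [Fact p.Prime] {J : Type*} [Fintype J]
    (P : J → ZMod (p ^ (R + 1))) (c : J → ZMod p) :
    ∑ j, (c j).val • P j = ∑ j, (c j).val • st_low p R (P j) +
      st_iota p R (∑ j, c j * td p R (P j)) := by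
  rw [map_sum, ← Finset.sum_add_distrib]
  refine Finset.sum_congr rfl fun j _ => ?_
  have h1 : c j * td p R (P j) = (c j).val • td p R (P j) := by
    rw [nsmul_eq_mul, ZMod.natCast_zmod_val]
  rw [h1, map_nsmul, ← smul_add, ← st_decomp]

/-- orthogonality -/
lemma st_orth (hT : IsAction μ T) (hE : IsErgodic μ T) (hS : IsAction ν S)
    (ha : MeasurePreserving a μ ν) (haS : ∀ g, ∀ᵐ x ∂μ, a (T g x) = S g (a x))
    {p R : ℕ} [Fact p.Prime] {J : Type*} [Fintype J] (P : J → X → ZMod (p ^ (R + 1)))
    (hPm : ∀ j, Measurable (P j)) (hPd : ∀ j g, Capt μ a (fun x => P j (T g x) - P j x))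
    (hPp : ∀ j, Capt μ a (fun x => p • P j x)) (c : J → ZMod p)
    (hc : ¬ Capt μ a (fun x => ∑ j, (c j).val • P j x)) (B : Set K) (hB : MeasurableSet B) :
    ∫ x in a ⁻¹' B, (ZMod.stdAddChar (∑ j, c j * td p R (P j x)) : ℂ) ∂μ = 0 := by
  set Q : X → ZMod (p ^ (R + 1)) := fun x => ∑ j, (c j).val • P j x with hQdef
  have hQm : Measurable Q := Finset.measurable_sum _ fun j _ =>
    (measurable_of_countable (fun z : ZMod (p ^ (R + 1)) => (c j).val • z)).comp (hPm j)
  have hQd : ∀ g, Capt μ a (fun x => Q (T g x) - Q x) := by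
    intro g
    have h1 : (∑ j, (c j).val • (fun x => P j (T g x) - P j x)) ∈ st_capt μ a (p ^ (R + 1)) :=
      AddSubgroup.sum_mem _ fun j _ => AddSubgroup.nsmul_mem _ (hPd j g) _
    have h2 : (fun x => Q (T g x) - Q x) = ∑ j, (c j).val • (fun x => P j (T g x) - P j x) := by
      funext x
      simp only [hQdef, Finset.sum_apply, Pi.smul_apply, ← Finset.sum_sub_distrib, smul_sub]
    rw [h2]
    exact h1
  have hzero : ∀ B', MeasurableSet B' → ∫ x in a ⁻¹' B', (ZMod.stdAddChar (Q x) : ℂ) ∂μ = 0 := by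
    intro B' hB'
    by_contra hne
    exact hc (st_capt_of_ne hT hE hS ha haS Q hQm hQd B' hB' hne)
  -- the captured part
  have hL : Capt μ a (fun x => ∑ j, (c j).val • st_low p R (P j x)) := by
    have h1 : (∑ j, (c j).val • (fun x => st_low p R (P j x))) ∈ st_capt μ a (p ^ (R + 1)) :=
      AddSubgroup.sum_mem _ fun j _ => AddSubgroup.nsmul_mem _ (st_low_capt (hPp j)) _
    have h2 : (fun x => ∑ j, (c j).val • st_low p R (P j x)) =
        ∑ j, (c j).val • (fun x => st_low p R (P j x)) := by
      funext x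
      simp only [Finset.sum_apply, Pi.smul_apply]
    rw [h2]
    exact h1
  obtain ⟨f, hf, hfe⟩ := hL
  have hqi : Integrable (fun x => (ZMod.stdAddChar (Q x) : ℂ)) μ := by
    refine Integrable.of_bound (C := 1) ((measurable_of_countable
      (fun z : ZMod (p ^ (R + 1)) => (ZMod.stdAddChar z : ℂ))).comp hQm).aestronglyMeasurable
      (Eventually.of_forall fun x => ?_)
    exact (st_norm_char _).le
  have h1 : ∫ x in a ⁻¹' B, (ZMod.stdAddChar (∑ j, c j * td p R (P j x)) : ℂ) ∂μ =
      ∫ x in a ⁻¹' B, (fun z : ZMod (p ^ (R + 1)) => (ZMod.stdAddChar (-z) : ℂ)) (f (a x)) *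
        (ZMod.stdAddChar (Q x) : ℂ) ∂μ := by
    refine setIntegral_congr_ae (ha.measurable hB) ?_
    filter_upwards [hfe] with x hx _
    have h2 : Q x = f (a x) + st_iota p R (∑ j, c j * td p R (P j x)) := by
      rw [← hx]
      exact st_sum_decomp (fun j => P j x) c
    show (ZMod.stdAddChar (∑ j, c j * td p R (P j x)) : ℂ) =
      (ZMod.stdAddChar (-(f (a x))) : ℂ) * (ZMod.stdAddChar (Q x) : ℂ)
    rw [← AddChar.map_add_eq_mul, h2, neg_add_cancel_left, st_char_iota]
  rw [h1, st_pull μ _ hqi (fun x => f (a x)) (hf.comp ha.measurable)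
    (fun z : ZMod (p ^ (R + 1)) => (ZMod.stdAddChar (-z) : ℂ))]
  refine Finset.sum_eq_zero fun z _ => ?_
  have h3 := hzero (B ∩ f ⁻¹' {z}) (hB.inter (hf (measurableSet_singleton z)))
  have h4 : a ⁻¹' B ∩ (fun x => f (a x)) ⁻¹' {z} = a ⁻¹' (B ∩ f ⁻¹' {z}) := rfl
  rw [h4, h3, mul_zero]

/-- cylinder probabilities -/
lemma st_cyl (ha : MeasurePreserving a μ ν) {p : ℕ} [Fact p.Prime] {I : Type*}
    (V : I → X → ZMod p) (hVm : ∀ i, Measurable (V i)) (s : Finset I)
    (horth : ∀ c : s → ZMod p, c ≠ 0 → ∀ B, MeasurableSet B →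
      ∫ x in a ⁻¹' B, (ZMod.stdAddChar (∑ i : s, c i * V i x) : ℂ) ∂μ = 0)
    (v : I → ZMod p) (B : Set K) (hB : MeasurableSet B) :
    μ (a ⁻¹' B ∩ {x | ∀ i ∈ s, V i x = v i}) = ν B * ((p : ENNReal)⁻¹) ^ s.card := by
  classical
  have hp := (Fact.out : p.Prime)
  have hp0 : (p : ℂ) ≠ 0 := by exact_mod_cast hp.ne_zero
  set C : Set X := {x | ∀ i ∈ s, V i x = v i} with hC
  have hCm : MeasurableSet C := by
    have : C = ⋂ i ∈ s, V i ⁻¹' {v i} := by
      ext x
      simp [hC]
    rw [this]
    exact Finset.measurableSet_biInter s fun i _ => hVm i (measurableSet_singleton _)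
  -- Fourier inversion
  have h1 : ∀ x, C.indicator (fun _ => (1 : ℂ)) x = ((p : ℂ)⁻¹) ^ s.card *
      ∑ c : s → ZMod p, (ZMod.stdAddChar (-∑ i : s, c i * v i) : ℂ) *
        (ZMod.stdAddChar (∑ i : s, c i * V i x) : ℂ) := by
    intro x
    have h2 : ∀ i : s, (if V i x = v i then (1 : ℂ) else 0) =
        (p : ℂ)⁻¹ * ∑ y : ZMod p, (ZMod.stdAddChar (y * (V i x - v i)) : ℂ) := by
      intro i
      rw [AddChar.sum_mulShift _ (ZMod.isPrimitive_stdAddChar p), ZMod.card]
      by_cases h : V i x = v i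
      · rw [if_pos h, if_pos (sub_eq_zero.mpr h), inv_mul_cancel₀ hp0]
      · rw [if_neg h, if_neg (sub_ne_zero.mpr h), Nat.cast_zero, mul_zero]
    have h3 : C.indicator (fun _ => (1 : ℂ)) x = ∏ i : s, (if V i x = v i then (1 : ℂ) else 0) := by
      by_cases h : x ∈ C
      · rw [Set.indicator_of_mem h]
        symm
        refine Finset.prod_eq_one fun i _ => if_pos (h i i.2)
      · rw [Set.indicator_of_notMem h]
        have h' : ∃ i ∈ s, V i x ≠ v i := by
          simpa [hC] using h
        obtain ⟨i, hi, hne⟩ := h'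
        symm
        exact Finset.prod_eq_zero (Finset.mem_univ (⟨i, hi⟩ : s)) (if_neg hne)
    rw [h3]
    simp_rw [h2]
    rw [Finset.prod_mul_distrib, Finset.prod_const, Finset.prod_univ_sum, Fintype.piFinset_univ]
    congr 1
    · simp
    · refine Finset.sum_congr rfl fun c _ => ?_
      rw [← st_char_sum, ← AddChar.map_add_eq_mul]
      congr 1
      simp only [mul_sub, Finset.sum_sub_distrib]
      abel
  have hint : ∀ c : s → ZMod p, Integrable (fun x => (ZMod.stdAddChar (-∑ i : s, c i * v i) : ℂ) *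
        (ZMod.stdAddChar (∑ i : s, c i * V i x) : ℂ)) (μ.restrict (a ⁻¹' B)) := by
    intro c
    refine Integrable.of_bound (C := 1) ?_ (Eventually.of_forall fun x => ?_)
    · refine (Measurable.const_mul ?_ _).aestronglyMeasurable
      refine (measurable_of_countable (fun z : ZMod p => (ZMod.stdAddChar z : ℂ))).comp ?_
      refine Finset.measurable_sum _ fun i _ => ?_
      exact (measurable_of_countable (fun z : ZMod p => c i * z)).comp (hVm i)
    · rw [norm_mul, st_norm_char, st_norm_char, one_mul]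
  have h4 : ∫ x in a ⁻¹' B, C.indicator (fun _ => (1 : ℂ)) x ∂μ =
      ((p : ℂ)⁻¹) ^ s.card * (ν.real B : ℂ) := by
    simp_rw [h1]
    rw [integral_const_mul, integral_finsetSum _ (fun c _ => hint c)]
    congr 1
    rw [Finset.sum_eq_single (0 : s → ZMod p)]
    · simp only [Pi.zero_apply, zero_mul, Finset.sum_const_zero, neg_zero,
        AddChar.map_zero_eq_one, mul_one]
      rw [setIntegral_const]
      simp [Measure.real, ha.measure_preimage hB.nullMeasurableSet]
    · intro c _ hc
      rw [integral_const_mul, horth c hc B hB, mul_zero]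
    · intro h
      exact absurd (Finset.mem_univ _) h
  have h5 : ∫ x in a ⁻¹' B, C.indicator (fun _ => (1 : ℂ)) x ∂μ = (μ.real (a ⁻¹' B ∩ C) : ℂ) := by
    rw [setIntegral_indicator hCm, setIntegral_const]
    simp
  have h6 : μ.real (a ⁻¹' B ∩ C) = ((p : ℝ)⁻¹) ^ s.card * ν.real B := by
    have := h5.symm.trans h4
    apply Complex.ofReal_injective
    push_cast
    exact this
  have h7 : μ (a ⁻¹' B ∩ C) = ENNReal.ofReal (μ.real (a ⁻¹' B ∩ C)) := by
    rw [Measure.real, ENNReal.ofReal_toReal (measure_ne_top _ _)]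
  rw [h7, h6, ENNReal.ofReal_mul (by positivity), Measure.real,
    ENNReal.ofReal_toReal (measure_ne_top _ _), mul_comm, ENNReal.ofReal_pow (by positivity),
    ENNReal.ofReal_inv_of_pos (by exact_mod_cast hp.pos), ENNReal.ofReal_natCast]

/-- finite measures on a product of copies of `ℤ/p` are determined by cylinders -/
lemma st_ext {p : ℕ} [Fact p.Prime] {I : Type*} (m1 m2 : Measure (I → ZMod p))
    [IsFiniteMeasure m1]
    (h : ∀ (s : Finset I) (v : I → ZMod p), m1 {f | ∀ i ∈ s, f i = v i} =
      m2 {f | ∀ i ∈ s, f i = v i}) : m1 = m2 := by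
  classical
  set C : Set (Set (I → ZMod p)) :=
    {A | A = ∅ ∨ ∃ (s : Finset I) (v : I → ZMod p), A = {f | ∀ i ∈ s, f i = v i}} with hC
  have hmem : ∀ (s : Finset I) (v : I → ZMod p), {f : I → ZMod p | ∀ i ∈ s, f i = v i} ∈ C :=
    fun s v => Or.inr ⟨s, v, rfl⟩
  have hgen : (MeasurableSpace.pi : MeasurableSpace (I → ZMod p)) =
      MeasurableSpace.generateFrom C := by
    apply le_antisymm
    · refine iSup_le fun i => ?_
      rw [← measurable_iff_comap_le]
      refine @measurable_to_countable' _ _ _ _ (MeasurableSpace.generateFrom C) _ fun z => ?_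
      refine MeasurableSpace.measurableSet_generateFrom ?_
      have : (fun f : I → ZMod p => f i) ⁻¹' {z} = {f | ∀ j ∈ ({i} : Finset I), f j = (fun _ => z) j} := by
        ext f
        simp
      rw [this]
      exact hmem _ _
    · refine MeasurableSpace.generateFrom_le ?_
      rintro A (rfl | ⟨s, v, rfl⟩)
      · exact MeasurableSet.empty
      · have : {f : I → ZMod p | ∀ i ∈ s, f i = v i} = ⋂ i ∈ s, (fun f => f i) ⁻¹' {v i} := by
          ext f
          simp
        rw [this]
        exact Finset.measurableSet_biInter s fun i _ =>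
          measurable_pi_apply i (measurableSet_singleton _)
  have hpi : IsPiSystem C := by
    rintro A hA A' hA' hne
    rcases hA with rfl | ⟨s, v, rfl⟩
    · simp at hne
    rcases hA' with rfl | ⟨s', v', rfl⟩
    · simp at hne
    obtain ⟨f, hf, hf'⟩ := hne
    have : ({f : I → ZMod p | ∀ i ∈ s, f i = v i} ∩ {f | ∀ i ∈ s', f i = v' i}) =
        {g | ∀ i ∈ s ∪ s', g i = f i} := by
      ext g
      simp only [Set.mem_inter_iff, Set.mem_ofPred_eq, Finset.mem_union] at hf hf' ⊢
      constructor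
      · rintro ⟨h1, h2⟩ i (hi | hi)
        · rw [h1 i hi, hf i hi]
        · rw [h2 i hi, hf' i hi]
      · intro h1
        exact ⟨fun i hi => by rw [h1 i (Or.inl hi), hf i hi],
          fun i hi => by rw [h1 i (Or.inr hi), hf' i hi]⟩
    rw [this]
    exact hmem _ _
  refine ext_of_generate_finite C hgen hpi ?_ ?_
  · rintro A (rfl | ⟨s, v, rfl⟩)
    · simp
    · exact h s v
  · have := h ∅ 0
    simpa using this

end orth

end Pool.Agent.FpTrans
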