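import Pool.Agent.FpTrans.Defs2

/-!
# General facts on `AEPoly` and `IsPoly` (used for the step, package P3)
-/

set_option autoImplicit false
open MeasureTheory Filter Topology
open scoped ENNReal

namespace Pool.Agent.FpTrans

section AE

variable {X ι A : Type*} [MeasurableSpace X] [AddCommGroup A] {μ : Measure X} {T : ι → X → X}

lemma st_congr (hT : ∀ i, Measure.QuasiMeasurePreserving (T i) μ μ) {n : ℕ} {f g : X → A}
    (h : f =ᵐ[μ] g) (hf : AEPoly μ T n f) : AEPoly μ T n g := by
  induction n generalizing f g with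
  | zero => exact h.symm.trans hf
  | succ n ih =>
    intro i
    refine ih ?_ (hf i)
    filter_upwards [h, (hT i).ae h] with x h1 h2
    rw [h1, h2]

lemma st_of_zero (hT : ∀ i, Measure.QuasiMeasurePreserving (T i) μ μ) (n : ℕ) {f : X → A}
    (h : f =ᵐ[μ] 0) : AEPoly μ T n f := by
  induction n generalizing f with
  | zero => exact h
  | succ n ih =>
    intro i
    refine ih ?_
    filter_upwards [h, (hT i).ae h] with x h1 h2
    rw [h1, h2]; simp

lemma st_succ (hT : ∀ i, Measure.QuasiMeasurePreserving (T i) μ μ) {n : ℕ} {f : X → A}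
    (hf : AEPoly μ T n f) : AEPoly μ T (n + 1) f := by
  induction n generalizing f with
  | zero => exact st_of_zero hT 1 hf
  | succ n ih => exact fun i => ih (hf i)

lemma st_mono (hT : ∀ i, Measure.QuasiMeasurePreserving (T i) μ μ) {n m : ℕ} (hnm : n ≤ m)
    {f : X → A} (hf : AEPoly μ T n f) : AEPoly μ T m f := by
  induction hnm with
  | refl => exact hf
  | step _ ih => exact st_succ hT ih

lemma st_add {n : ℕ} {f g : X → A} (hf : AEPoly μ T n f) (hg : AEPoly μ T n g) :
    AEPoly μ T n (fun x => f x + g x) := by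
  induction n generalizing f g with
  | zero => 
    have h1 : f =ᵐ[μ] 0 := hf
    have h2 : g =ᵐ[μ] 0 := hg
    show (fun x => f x + g x) =ᵐ[μ] 0
    filter_upwards [h1, h2] with x h1 h2
    rw [h1, h2]; simp
  | succ n ih =>
    intro i
    have h := ih (hf i) (hg i)
    have e : (fun x => f (T i x) + g (T i x) - (f x + g x)) =
        fun x => (f (T i x) - f x) + (g (T i x) - g x) := by
      funext x; abel
    rw [e]; exact h

lemma st_neg {n : ℕ} {f : X → A} (hf : AEPoly μ T n f) : AEPoly μ T n (fun x => -f x) := by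
  induction n generalizing f with
  | zero =>
    have h1 : f =ᵐ[μ] 0 := hf
    show (fun x => -f x) =ᵐ[μ] 0
    filter_upwards [h1] with x h1
    rw [h1]; simp
  | succ n ih =>
    intro i
    have h := ih (hf i)
    have e : (fun x => -f (T i x) - -f x) = fun x => -(f (T i x) - f x) := by
      funext x; abel
    rw [e]; exact h

lemma st_sub {n : ℕ} {f g : X → A} (hf : AEPoly μ T n f) (hg : AEPoly μ T n g) :
    AEPoly μ T n (fun x => f x - g x) := by
  have := st_add hf (st_neg hg)
  simpa only [sub_eq_add_neg] using this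

lemma st_comp {s : X → X} (hs : Measure.QuasiMeasurePreserving s μ μ)
    (hc : ∀ i x, T i (s x) = s (T i x)) {n : ℕ} {f : X → A} (hf : AEPoly μ T n f) :
    AEPoly μ T n (fun x => f (s x)) := by
  induction n generalizing f with
  | zero => exact hs.ae hf
  | succ n ih =>
    intro i
    have := ih (hf i)
    simpa only [hc] using this

lemma st_mul {A : Type*} [CommRing A] (hT : ∀ i, Measure.QuasiMeasurePreserving (T i) μ μ) :
    ∀ (n a b : ℕ) (_ : a + b = n) (f g : X → A), AEPoly μ T a f → AEPoly μ T b g →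
      AEPoly μ T n (fun x => f x * g x) := by
  intro n
  induction n using Nat.strong_induction_on with
  | _ n ih =>
  intro a b hab f g hf hg
  rcases a with _ | a
  · apply st_of_zero hT
    have h1 : f =ᵐ[μ] 0 := hf
    filter_upwards [h1] with x h1
    rw [h1]; simp
  rcases b with _ | b
  · apply st_of_zero hT
    have h1 : g =ᵐ[μ] 0 := hg
    filter_upwards [h1] with x h1
    rw [h1]; simp
  obtain ⟨n, rfl⟩ : ∃ n', n = n' + 1 := ⟨a + b + 1, by omega⟩
  intro i
  have h1 := ih n (by omega) a (b + 1) (by omega) _ _ (hf i) hg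
  have h2 := ih n (by omega) (a + 1) b (by omega) _ _ hf (hg i)
  have h3 := st_mono hT (show a + b ≤ n by omega)
    (ih (a + b) (by omega) a b rfl _ _ (hf i) (hg i))
  have h := st_add (st_add h1 h2) h3
  have e : (fun x => f (T i x) * g (T i x) - f x * g x) = fun x =>
      ((f (T i x) - f x) * g x + f x * (g (T i x) - g x)) +
        (f (T i x) - f x) * (g (T i x) - g x) := by
    funext x; ring
  rw [e]; exact h

end AE

section Ev

variable {S ι A : Type*} [AddCommGroup A] {t : ι → S → S}

lemma ip_of_zero (n : ℕ) {f : S → A} (h : ∀ s, f s = 0) : IsPoly t n f := by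
  induction n generalizing f with
  | zero => exact h
  | succ n ih => exact fun i => ih fun s => by rw [h, h, sub_zero]

lemma ip_succ {n : ℕ} {f : S → A} (hf : IsPoly t n f) : IsPoly t (n + 1) f := by
  induction n generalizing f with
  | zero => exact ip_of_zero 1 hf
  | succ n ih => exact fun i => ih (hf i)

lemma ip_mono {n m : ℕ} (hnm : n ≤ m) {f : S → A} (hf : IsPoly t n f) : IsPoly t m f := by
  induction hnm with
  | refl => exact hf
  | step _ ih => exact ip_succ ih

lemma ip_add {n : ℕ} {f g : S → A} (hf : IsPoly t n f) (hg : IsPoly t n g) :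
    IsPoly t n (fun x => f x + g x) := by
  induction n generalizing f g with
  | zero => 
    intro s
    show f s + g s = 0
    rw [hf s, hg s, add_zero]
  | succ n ih =>
    intro i
    have h := ih (hf i) (hg i)
    have e : (fun x => f (t i x) + g (t i x) - (f x + g x)) =
        fun x => (f (t i x) - f x) + (g (t i x) - g x) := by
      funext x; abel
    rw [e]; exact h

lemma ip_mul {A : Type*} [CommRing A] :
    ∀ (n a b : ℕ) (_ : a + b = n) (f g : S → A), IsPoly t a f → IsPoly t b g →
      IsPoly t n (fun x => f x * g x) := by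
  intro n
  induction n using Nat.strong_induction_on with
  | _ n ih =>
  intro a b hab f g hf hg
  rcases a with _ | a
  · exact ip_of_zero n fun s => by rw [hf s, zero_mul]
  rcases b with _ | b
  · exact ip_of_zero n fun s => by rw [hg s, mul_zero]
  obtain ⟨n, rfl⟩ : ∃ n', n = n' + 1 := ⟨a + b + 1, by omega⟩
  intro i
  have h1 := ih n (by omega) a (b + 1) (by omega) _ _ (hf i) hg
  have h2 := ih n (by omega) (a + 1) b (by omega) _ _ hf (hg i)
  have h3 := ip_mono (show a + b ≤ n by omega)
    (ih (a + b) (by omega) a b rfl _ _ (hf i) (hg i))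
  have h := ip_add (ip_add h1 h2) h3
  have e : (fun x => f (t i x) * g (t i x) - f x * g x) = fun x =>
      ((f (t i x) - f x) * g x + f x * (g (t i x) - g x)) +
        (f (t i x) - f x) * (g (t i x) - g x) := by
    funext x; ring
  rw [e]; exact h

lemma ip_const (c : A) : IsPoly t 1 (fun _ : S => c) := fun _ _ => sub_self c

/-- everywhere polynomials along a family are a.e. polynomials along a subfamily -/
lemma ip_ae [MeasurableSpace S] (μ : Measure S) {κ : Type*} (T : κ → S → S) (j : κ → ι)
    (hj : ∀ i x, T i x = t (j i) x) {n : ℕ} {f : S → A} (hf : IsPoly t n f) :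
    AEPoly μ T n f := by
  induction n generalizing f with
  | zero => exact Filter.Eventually.of_forall hf
  | succ n ih =>
    intro i
    have := ih (hf (j i))
    simpa only [hj] using this

/-- pull back of a polynomial under a map intertwining the two families -/
lemma ip_pull {S' ι' : Type*} {t' : ι' → S' → S'} (q : S' → S) (j : ι' → ι)
    (hq : ∀ i x, q (t' i x) = t (j i) (q x)) {n : ℕ} {f : S → A} (hf : IsPoly t n f) :
    IsPoly t' n (fun x => f (q x)) := by
  induction n generalizing f with
  | zero => exact fun s => hf _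
  | succ n ih =>
    intro i
    have := ih (hf (j i))
    simpa only [hq] using this

end Ev

/-! ### ergodicity -/

section Erg

variable {X Γ : Type*} [MeasurableSpace X] [AddCommGroup Γ] [Countable Γ] {μ : Measure X}
  [IsProbabilityMeasure μ] {T : Γ → X → X}

omit [Countable Γ] [IsProbabilityMeasure μ] in
lemma st_qmp (hT : IsAction μ T) : ∀ g, Measure.QuasiMeasurePreserving (T g) μ μ :=
  fun g => (hT.mp g).quasiMeasurePreserving

lemma st_const (hT : IsAction μ T) (hE : IsErgodic μ T) {β : Type*} [Countable β]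
    [MeasurableSpace β] [MeasurableSingletonClass β] {f : X → β} (hf : Measurable f)
    (hinv : ∀ g, ∀ᵐ x ∂μ, f (T g x) = f x) : ∃ c, ∀ᵐ x ∂μ, f x = c := by
  obtain ⟨c, hc⟩ : ∃ c, μ (f ⁻¹' {c}) ≠ 0 := by
    by_contra hcon
    push Not at hcon
    have h1 : μ (⋃ c, f ⁻¹' {c}) = 0 := measure_iUnion_null hcon
    have h2 : (⋃ c, f ⁻¹' {c}) = Set.univ := by
      ext x; simp
    rw [h2, measure_univ] at h1
    exact one_ne_zero h1
  refine ⟨c, ?_⟩
  set A := f ⁻¹' {c} with hA
  have hAm : MeasurableSet A := hf (measurableSet_singleton c)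
  set A' := ⋂ g, T g ⁻¹' A with hA'
  have hA'm : MeasurableSet A' := MeasurableSet.iInter fun g => (hT.mp g).measurable hAm
  have hinvA : ∀ h, T h ⁻¹' A' = A' := by
    intro h
    ext x
    simp only [hA', Set.mem_preimage, Set.mem_iInter]
    constructor
    · intro hx g
      have := hx (g - h)
      rwa [← hT.add, sub_add_cancel] at this
    · intro hx g
      rw [← hT.add]; exact hx _
  have hae : ∀ᵐ x ∂μ, ∀ g, f (T g x) = f x := ae_all_iff.2 hinv
  rcases hE A' hA'm hinvA with h0 | h1
  · exfalso
    apply hc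
    have : ∀ᵐ x ∂μ, x ∉ A := by
      have h3 : ∀ᵐ x ∂μ, x ∉ A' := measure_eq_zero_iff_ae_notMem.1 h0
      filter_upwards [hae, h3] with x hx hx' hxA
      apply hx'
      rw [hA', Set.mem_iInter]
      intro g
      show f (T g x) = c
      rw [hx g]; exact hxA
    exact measure_eq_zero_iff_ae_notMem.2 this
  · have h3 : ∀ᵐ x ∂μ, x ∉ A'ᶜ := measure_eq_zero_iff_ae_notMem.1 h1
    filter_upwards [h3] with x hx
    have hx' : x ∈ A' := by simpa using hx
    have := Set.mem_iInter.1 hx' 0
    have h4 : f (T 0 x) = c := this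
    rwa [hT.zero] at h4

variable {A : Type*} [AddCommGroup A] [Countable A] [MeasurableSpace A]
  [MeasurableSingletonClass A] [MeasurableSub₂ A]

omit [MeasurableSub₂ A] in
lemma st_const_zero (hT : IsAction μ T) (hE : IsErgodic μ T) {P : X → A} (hP : Measurable P)
    (h1 : AEPoly μ T 1 P) (hlt : μ {x | P x ≠ 0} < 1) : P =ᵐ[μ] 0 := by
  obtain ⟨c, hc⟩ := st_const hT hE hP (fun g => by
    have : (fun x => P (T g x) - P x) =ᵐ[μ] 0 := h1 g
    filter_upwards [this] with x hx
    exact sub_eq_zero.1 hx)
  by_cases h0 : c = 0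
  · subst h0; exact hc
  · exfalso
    have : μ {x | P x ≠ 0} = 1 := by
      have h2 : ∀ᵐ x ∂μ, x ∈ {x | P x ≠ 0} := by
        filter_upwards [hc] with x hx
        show P x ≠ 0
        rw [hx]; exact h0
      rw [measure_congr (show {x | P x ≠ 0} =ᵐ[μ] (Set.univ : Set X) from
        eventuallyEq_univ.2 h2), measure_univ]
    rw [this] at hlt
    exact lt_irrefl _ hlt

/-- The disagreement lemma. -/
lemma st_disagree (hT : IsAction μ T) (hE : IsErgodic μ T) (l : ℕ) {P : X → A}
    (hP : Measurable P) (h1 : AEPoly μ T l P) (hlt : μ {x | P x ≠ 0} < (1 / 2 : ℝ≥0∞) ^ l) :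
    P =ᵐ[μ] 0 := by
  induction l generalizing P with
  | zero => exact h1
  | succ l ih =>
    have hle : (1 / 2 : ℝ≥0∞) ^ (l + 1) ≤ 1 :=
      pow_le_one₀ (by simp) (by simp)
    apply st_const_zero hT hE hP ?_ (hlt.trans_le hle)
    intro g
    apply ih (((hP.comp (hT.mp g).measurable).sub hP)) (h1 g)
    have hsub : {x | P (T g x) - P x ≠ 0} ⊆ T g ⁻¹' {x | P x ≠ 0} ∪ {x | P x ≠ 0} := by
      intro x hx
      by_contra hcon
      simp only [Set.mem_union, Set.mem_preimage, Set.mem_ofPred_eq, not_or, not_not] at hcon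
      apply hx
      rw [hcon.1, hcon.2, sub_zero]
    have hPm : MeasurableSet {x | P x ≠ 0} := by
      have : {x | P x ≠ 0} = P ⁻¹' {0}ᶜ := by ext x; simp
      rw [this]; exact hP (measurableSet_singleton 0).compl
    calc μ {x | P (T g x) - P x ≠ 0} ≤ μ (T g ⁻¹' {x | P x ≠ 0} ∪ {x | P x ≠ 0}) :=
          measure_mono hsub
      _ ≤ μ (T g ⁻¹' {x | P x ≠ 0}) + μ {x | P x ≠ 0} := measure_union_le _ _
      _ = μ {x | P x ≠ 0} + μ {x | P x ≠ 0} := by
          rw [(hT.mp g).measure_preimage hPm.nullMeasurableSet]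
      _ < (1 / 2 : ℝ≥0∞) ^ (l + 1) + (1 / 2 : ℝ≥0∞) ^ (l + 1) := ENNReal.add_lt_add hlt hlt
      _ = (1 / 2 : ℝ≥0∞) ^ l := by
          rw [pow_succ, ← mul_add, ENNReal.add_halves, mul_one]

end Erg

end Pool.Agent.FpTrans
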