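import Pool.Agent.FpTrans.Step0

/-!
# Vertical translations of a skew product
-/

set_option autoImplicit false
open MeasureTheory Filter Topology
open scoped ENNReal

namespace Pool.Agent.FpTrans

section Vert

variable {K U Γ : Type} [MeasurableSpace K] [MeasurableSpace U] [AddCommGroup U]

/-- vertical translation -/
def tr (u : U) (y : K × U) : K × U := (y.1, y.2 + u)

variable [MeasurableAdd₂ U] {ν : Measure K} [IsProbabilityMeasure ν] {η : Measure U}
  [IsProbabilityMeasure η] [η.IsAddLeftInvariant]

lemma tr_mp (u : U) : MeasurePreserving (tr (K := K) u) (ν.prod η) (ν.prod η) :=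
  (MeasurePreserving.id ν).prod (measurePreserving_add_right η u)

omit [MeasurableSpace K] [MeasurableSpace U] [MeasurableAdd₂ U] in
lemma ext_tr (S : Γ → K → K) (R : Γ → K → U) (g : Γ) (u : U) (y : K × U) :
    ext S R g (tr u y) = tr u (ext S R g y) := by
  simp only [ext, tr, add_right_comm]

variable [AddCommGroup Γ] [Countable Γ] {S : Γ → K → K} {R : Γ → K → U}
variable {A : Type*} [AddCommGroup A] [Countable A] [MeasurableSpace A]
  [MeasurableSingletonClass A] [MeasurableSub₂ A]

/-- differences along vertical translations lower the degree -/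
lemma st_vert (hT : IsAction (ν.prod η) (ext S R)) (hE : IsErgodic (ν.prod η) (ext S R)) (u : U)
    (l : ℕ) {F : K × U → A} (hF : Measurable F) (h : AEPoly (ν.prod η) (ext S R) l F) :
    AEPoly (ν.prod η) (ext S R) (l - 1) (fun y => F (tr u y) - F y) := by
  induction l generalizing F with
  | zero =>
    have h0 : F =ᵐ[ν.prod η] 0 := h
    show (fun y => F (tr u y) - F y) =ᵐ[ν.prod η] 0
    filter_upwards [h0, (tr_mp u).quasiMeasurePreserving.ae h0] with y h1 h2
    rw [h1, h2]; simp
  | succ l ih =>
    rcases l with _ | l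
    · obtain ⟨c, hc⟩ := st_const hT hE hF (fun g => by
        have : (fun x => F (ext S R g x) - F x) =ᵐ[ν.prod η] 0 := h g
        filter_upwards [this] with x hx
        exact sub_eq_zero.1 hx)
      show (fun y => F (tr u y) - F y) =ᵐ[ν.prod η] 0
      filter_upwards [hc, (tr_mp u).quasiMeasurePreserving.ae hc] with y h1 h2
      rw [h1, h2]; simp
    · intro g
      have := ih (F := fun y => F (ext S R g y) - F y)
        ((hF.comp (hT.mp g).measurable).sub hF) (h g)
      refine st_congr (st_qmp hT) (Filter.Eventually.of_forall fun y => ?_) this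
      simp only [ext_tr]
      abel

omit [AddCommGroup Γ] [Countable Γ] [AddCommGroup A] [Countable A] [MeasurableSingletonClass A]
  [MeasurableSub₂ A] in
/-- The base function: a function invariant under all vertical translations is a function of the
first coordinate. -/
lemma st_base [MeasurableSub₂ U] [MeasurableNeg U] [MeasurableEq A] {H : K × U → A}
    (hH : Measurable H)
    (hinv : ∀ u, ∀ᵐ y ∂(ν.prod η), H (tr u y) = H y) :
    ∃ h : K → A, Measurable h ∧ ∀ᵐ y ∂(ν.prod η), H y = h y.1 := by
  have htm : Measurable fun q : U × (K × U) => tr q.1 q.2 := by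
    unfold tr
    fun_prop
  have hs : MeasurableSet {q : U × (K × U) | ¬ H (tr q.1 q.2) = H q.2} :=
    (measurableSet_eq_fun (hH.comp htm) (hH.comp measurable_snd)).compl
  have h1 : (η.prod (ν.prod η)) {q : U × (K × U) | ¬ H (tr q.1 q.2) = H q.2} = 0 := by
    rw [Measure.measure_prod_null hs]
    refine Filter.Eventually.of_forall fun u => ?_
    exact hinv u
  -- change of variables
  have h2 : ∀ᵐ q ∂(η.prod (ν.prod η)), H (tr q.1 q.2) = H q.2 := h1
  have h3 : ∀ᵐ q ∂((ν.prod η).prod η), H (tr q.2 q.1) = H q.1 :=
    (Measure.measurePreserving_swap (μ := ν.prod η) (ν := η)).quasiMeasurePreserving.ae h2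
  have hsk : MeasurePreserving (fun q : (K × U) × U => (q.1, q.2 - q.1.2))
      ((ν.prod η).prod η) ((ν.prod η).prod η) := by
    refine MeasurePreserving.skew_product (g := fun (y : K × U) (u : U) => u - y.2)
      (MeasurePreserving.id _) ?_ (Filter.Eventually.of_forall fun y => ?_)
    · exact (measurable_snd.sub (measurable_snd.comp measurable_fst))
    · exact (measurePreserving_sub_right η y.2).map_eq
  have h4 : ∀ᵐ q ∂((ν.prod η).prod η), H (q.1.1, q.2) = H q.1 := by
    have := hsk.quasiMeasurePreserving.ae h3
    filter_upwards [this] with q hq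
    simpa [tr] using hq
  have h5 : ∀ᵐ q ∂(η.prod (ν.prod η)), H (q.2.1, q.1) = H q.2 :=
    (Measure.measurePreserving_swap (μ := η) (ν := ν.prod η)).quasiMeasurePreserving.ae h4
  obtain ⟨w, hw⟩ := (Measure.ae_ae_of_ae_prod h5).exists
  exact ⟨fun k => H (k, w), hH.comp (by fun_prop), by
    filter_upwards [hw] with y hy
    exact hy.symm⟩

omit [AddCommGroup U] [MeasurableAdd₂ U] [η.IsAddLeftInvariant] [IsProbabilityMeasure ν] in
lemma st_fst_ae {p : K → Prop} (h : ∀ᵐ y ∂(ν.prod η), p y.1) : ∀ᵐ k ∂ν, p k := by
  have := Measure.ae_ae_of_ae_prod h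
  filter_upwards [this] with k hk
  exact hk.exists.choose_spec

omit [MeasurableAdd₂ U] [η.IsAddLeftInvariant] [AddCommGroup Γ] [Countable Γ]
  [MeasurableSub₂ A] [Countable A] [MeasurableSpace A] [MeasurableSingletonClass A]
  [IsProbabilityMeasure ν] in
lemma st_fst {n : ℕ} {h : K → A}
    (hh : AEPoly (ν.prod η) (ext S R) n (fun y => h y.1)) : AEPoly ν S n h := by
  induction n generalizing h with
  | zero => exact st_fst_ae (η := η) (U := U) hh
  | succ n ih => exact fun g => ih (hh g)

end Vert

end Pool.Agent.FpTrans
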