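import Pool.Agent.FpTrans.Step1

/-!
# Newton expansion in the vertical coordinates
-/

set_option autoImplicit false
open MeasureTheory Filter Topology
open scoped ENNReal

namespace Pool.Agent.FpTrans

section Coord

variable {K I Γ : Type} {p : ℕ} {A : Type*} [CommRing A]

/-- vertical difference -/
def dv (u : I → ZMod p) (g : K × (I → ZMod p) → A) : K × (I → ZMod p) → A :=
  fun y => g (tr u y) - g y

lemma dv_iter (u : I → ZMod p) (j : ℕ) (g : K × (I → ZMod p) → A) (k : K) (v : I → ZMod p) :
    (dv u)^[j] g (k, v) = (fwdDiff u)^[j] (fun w => g (k, w)) v := by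
  induction j generalizing g with
  | zero => rfl
  | succ j ih =>
    rw [Function.iterate_succ_apply, Function.iterate_succ_apply, ih]
    rfl

lemma newton_tr (u : I → ZMod p) (n : ℕ) (g : K × (I → ZMod p) → A) (y : K × (I → ZMod p)) :
    g (tr (n • u) y) = ∑ j ∈ Finset.range (n + 1), (n.choose j : A) * (dv u)^[j] g y := by
  obtain ⟨k, v⟩ := y
  have := shift_eq_sum_fwdDiff_iter u (fun w => g (k, w)) n v
  rw [show tr (n • u) (k, v) = (k, v + n • u) from rfl, this]
  refine Finset.sum_congr rfl fun j _ => ?_
  rw [dv_iter, nsmul_eq_mul]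

open Classical in
/-- set the coordinate `i` to zero -/
noncomputable def zc (i : I) (y : K × (I → ZMod p)) : K × (I → ZMod p) :=
  (y.1, Function.update y.2 i 0)

open Classical in
/-- set the coordinates in `J` to zero -/
noncomputable def zs (J : Finset I) (y : K × (I → ZMod p)) : K × (I → ZMod p) :=
  (y.1, fun i => if i ∈ J then 0 else y.2 i)

lemma zs_empty (y : K × (I → ZMod p)) : zs ∅ y = y := by
  simp [zs]

open Classical in
lemma zs_insert (i : I) (J : Finset I) (y : K × (I → ZMod p)) :
    zs (insert i J) y = zc i (zs J y) := by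
  unfold zs zc
  refine Prod.ext rfl ?_
  funext j
  by_cases h : j = i
  · subst h; simp
  · simp [h]

open Classical in
lemma zs_insert' (i : I) (J : Finset I) (y : K × (I → ZMod p)) :
    zs (insert i J) y = zs J (zc i y) := by
  unfold zs zc
  refine Prod.ext rfl ?_
  funext j
  by_cases h : j = i
  · subst h; simp
  · simp [h]

variable [Fact p.Prime]

open Classical in
lemma zc_eq_tr (i : I) (y : K × (I → ZMod p)) :
    zc i y = tr ((-(y.2 i)).val • Pi.single i 1) y := by
  unfold zc tr
  refine Prod.ext rfl ?_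
  funext j
  simp only [Pi.add_apply, Pi.smul_apply]
  by_cases h : j = i
  · subst h
    rw [Function.update_self, Pi.single_eq_same, nsmul_eq_mul, mul_one, ZMod.natCast_zmod_val,
      add_neg_cancel]
  · rw [Function.update_of_ne h, Pi.single_eq_of_ne h, smul_zero, add_zero]

open Classical in
lemma tr_zc (i : I) (y : K × (I → ZMod p)) :
    tr ((y.2 i).val • Pi.single i 1) (zc i y) = y := by
  unfold zc tr
  refine Prod.ext rfl ?_
  funext j
  simp only [Pi.add_apply, Pi.smul_apply]
  by_cases h : j = i
  · subst h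
    rw [Function.update_self, Pi.single_eq_same, nsmul_eq_mul, mul_one, ZMod.natCast_zmod_val,
      zero_add]
  · rw [Function.update_of_ne h, Pi.single_eq_of_ne h, smul_zero, add_zero]

omit [Fact p.Prime] in
lemma sum_range_ext (n : ℕ) (hn : n < p) (a : ℕ → A) :
    ∑ j ∈ Finset.range (n + 1), (n.choose j : A) * a j =
      ∑ j ∈ Finset.range p, (n.choose j : A) * a j := by
  apply Finset.sum_subset
  · intro j hj
    rw [Finset.mem_range] at hj ⊢
    omega
  · intro j _ hj
    rw [Finset.mem_range, not_lt] at hj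
    rw [Nat.choose_eq_zero_of_lt (by omega)]
    simp

open Classical in
lemma newton_back (i : I) (g : K × (I → ZMod p) → A) (y : K × (I → ZMod p)) :
    g (zc i y) = ∑ j ∈ Finset.range p, ((-(y.2 i)).val.choose j : A) *
      (dv (Pi.single i 1))^[j] g y := by
  rw [zc_eq_tr, newton_tr _ _ g, sum_range_ext _ (ZMod.val_lt _)]

open Classical in
lemma newton_fwd (i : I) (g : K × (I → ZMod p) → A) (y : K × (I → ZMod p)) :
    g y = ∑ j ∈ Finset.range p, ((y.2 i).val.choose j : A) *
      (dv (Pi.single i 1))^[j] g (zc i y) := by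
  conv_lhs => rw [← tr_zc i y, newton_tr _ _ g]
  rw [sum_range_ext _ (ZMod.val_lt _)]

/-- products of `m` functions of one vertical coordinate -/
inductive Mon : ℕ → (K × (I → ZMod p) → A) → Prop
  | one : Mon 0 (fun _ => 1)
  | mul (i : I) (φ : ZMod p → A) {m : ℕ} {b : K × (I → ZMod p) → A} :
      Mon m b → Mon (m + 1) (fun y => φ (y.2 i) * b y)

omit [Fact p.Prime] in
lemma Mon.zc (i : I) {m : ℕ} {b : K × (I → ZMod p) → A} (hb : Mon m b) :
    Mon m (fun y => b (zc i y)) := by
  classical
  induction hb with
  | one => exact Mon.one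
  | mul i' φ _ ih =>
    by_cases h : i' = i
    · subst h
      have e : ∀ y : K × (I → ZMod p), (Pool.Agent.FpTrans.zc i' y).2 i' = 0 := by
        intro y; simp [Pool.Agent.FpTrans.zc]
      simp only [e]
      exact Mon.mul i' (fun _ => φ 0) ih
    · have e : ∀ y : K × (I → ZMod p), (Pool.Agent.FpTrans.zc i y).2 i' = y.2 i' := by
        intro y; simp [Pool.Agent.FpTrans.zc, Function.update_of_ne h]
      simp only [e]
      exact Mon.mul i' φ ih

variable [MeasurableSpace K]

/-- sums of products -/
inductive Sp (m : Measure (K × (I → ZMod p))) (G : ℕ → Set (K × (I → ZMod p) → A)) :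
    ℕ → (K × (I → ZMod p) → A) → Prop
  | zero {a : ℕ} {f : K × (I → ZMod p) → A} : f =ᵐ[m] 0 → Sp m G a f
  | add {a : ℕ} {f g : K × (I → ZMod p) → A} : Sp m G a f → Sp m G a g →
      Sp m G a (fun y => f y + g y)
  | term {a m' a' : ℕ} {b g : K × (I → ZMod p) → A} : Mon m' b → g ∈ G a' → m' + a' ≤ a →
      Sp m G a (fun y => b y * g y)

omit [Fact p.Prime] in
lemma Sp.sum {m : Measure (K × (I → ZMod p))} {G : ℕ → Set (K × (I → ZMod p) → A)} {a : ℕ}
    {κ : Type*} (s : Finset κ) (F : κ → K × (I → ZMod p) → A) (h : ∀ j ∈ s, Sp m G a (F j)) :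
    Sp m G a (fun y => ∑ j ∈ s, F j y) := by
  classical
  induction s using Finset.induction_on with
  | empty => exact Sp.zero (Filter.Eventually.of_forall fun y => by simp)
  | insert j s hj ih =>
    have := Sp.add (h j (Finset.mem_insert_self _ _))
      (ih fun j' hj' => h j' (Finset.mem_insert_of_mem hj'))
    simpa only [Finset.sum_insert hj] using this

end Coord

end Pool.Agent.FpTrans
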