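import Pool.Agent.FpTrans.Step2

/-!
# Expansions of a.e. polynomials on a skew product
-/

set_option autoImplicit false
set_option linter.unusedSectionVars false
open MeasureTheory Filter Topology
open scoped ENNReal

namespace Pool.Agent.FpTrans

section Exp

variable {K I Γ : Type} {p : ℕ} [Fact p.Prime] [MeasurableSpace K] [Countable I]
  [AddCommGroup Γ] [Countable Γ]
  {ν : Measure K} [IsProbabilityMeasure ν] {η : Measure (I → ZMod p)} [IsProbabilityMeasure η]
  [η.IsAddLeftInvariant] {S : Γ → K → K} {R : Γ → K → I → ZMod p}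
  {A : Type} [CommRing A] [Countable A] [MeasurableSpace A] [MeasurableSingletonClass A]
  [MeasurableSub₂ A]

omit [AddCommGroup Γ] [Countable Γ] [Countable A] [MeasurableSingletonClass A] in
lemma dv_meas (u : I → ZMod p) {g : K × (I → ZMod p) → A} (hg : Measurable g) :
    Measurable (dv u g) := by
  have : Measurable (tr (K := K) u) := by unfold tr; fun_prop
  exact (hg.comp this).sub hg

omit [AddCommGroup Γ] [Countable Γ] [Countable A] [MeasurableSingletonClass A] in
lemma dv_meas_iter (u : I → ZMod p) (j : ℕ) {g : K × (I → ZMod p) → A} (hg : Measurable g) :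
    Measurable ((dv u)^[j] g) := by
  induction j generalizing g with
  | zero => exact hg
  | succ j ih => rw [Function.iterate_succ_apply]; exact ih (dv_meas u hg)

lemma dv_zero (u : I → ZMod p) {g : K × (I → ZMod p) → A} (hg : g =ᵐ[ν.prod η] 0) :
    dv u g =ᵐ[ν.prod η] 0 := by
  filter_upwards [hg, (tr_mp (K := K) (ν := ν) (η := η) u).quasiMeasurePreserving.ae hg] with y h1 h2
  unfold dv
  rw [h1, h2]; simp

lemma dv_zero_iter (u : I → ZMod p) (j : ℕ) {g : K × (I → ZMod p) → A}
    (hg : g =ᵐ[ν.prod η] 0) : (dv u)^[j] g =ᵐ[ν.prod η] 0 := by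
  induction j generalizing g with
  | zero => exact hg
  | succ j ih => rw [Function.iterate_succ_apply]; exact ih (dv_zero u hg)

lemma dv_poly (_hT : IsAction (ν.prod η) (ext S R)) (u : I → ZMod p) {a : ℕ}
    {g : K × (I → ZMod p) → A} (hg : AEPoly (ν.prod η) (ext S R) a g) :
    AEPoly (ν.prod η) (ext S R) a (dv u g) :=
  st_sub (st_comp (tr_mp u).quasiMeasurePreserving (fun g y => ext_tr S R g u y) hg) hg

lemma dv_poly_iter (hT : IsAction (ν.prod η) (ext S R)) (u : I → ZMod p) {a : ℕ} (j : ℕ)
    {g : K × (I → ZMod p) → A} (hg : AEPoly (ν.prod η) (ext S R) a g) :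
    AEPoly (ν.prod η) (ext S R) a ((dv u)^[j] g) := by
  induction j generalizing g with
  | zero => exact hg
  | succ j ih => rw [Function.iterate_succ_apply]; exact ih (dv_poly hT u hg)

lemma dv_poly_pos (hT : IsAction (ν.prod η) (ext S R)) (hE : IsErgodic (ν.prod η) (ext S R))
    (u : I → ZMod p) {a : ℕ} {j : ℕ} (hj : j ≠ 0) {g : K × (I → ZMod p) → A}
    (hgm : Measurable g) (hg : AEPoly (ν.prod η) (ext S R) a g) :
    AEPoly (ν.prod η) (ext S R) (a - 1) ((dv u)^[j] g) := by
  obtain ⟨j, rfl⟩ := Nat.exists_eq_succ_of_ne_zero hj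
  rw [Function.iterate_succ_apply]
  exact dv_poly_iter hT u j (st_vert hT hE u a hgm hg)

/-- zeroing a coordinate is nonsingular -/
lemma zc_qmp (i : I) : Measure.QuasiMeasurePreserving (zc (K := K) (p := p) i) (ν.prod η)
    (ν.prod η) := by
  classical
  have hm : Measurable (zc (K := K) (p := p) i) := by
    unfold zc
    refine measurable_fst.prodMk ?_
    exact measurable_pi_iff.2 fun j => by
      by_cases h : j = i
      · subst h; simp
      · simp only [Function.update_of_ne h]; fun_prop
  refine ⟨hm, ?_⟩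
  refine Measure.AbsolutelyContinuous.mk fun s hs h0 => ?_
  rw [Measure.map_apply hm hs]
  have h1 : ∀ᵐ y ∂(ν.prod η), ∀ n : ℕ, tr (n • Pi.single i (1 : ZMod p)) y ∉ s := by
    rw [ae_all_iff]
    intro n
    exact (tr_mp (K := K) (ν := ν) (η := η)
      (n • Pi.single i (1 : ZMod p))).quasiMeasurePreserving.ae
      (measure_eq_zero_iff_ae_notMem.1 h0)
  rw [measure_eq_zero_iff_ae_notMem]
  filter_upwards [h1] with y hy
  rw [Set.mem_preimage, zc_eq_tr]
  exact hy _

lemma zs_qmp (J : Finset I) : Measure.QuasiMeasurePreserving (zs (K := K) (p := p) J) (ν.prod η)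
    (ν.prod η) := by
  classical
  induction J using Finset.induction_on with
  | empty =>
    have : (zs (K := K) (p := p) ∅ : K × (I → ZMod p) → _) = id := by
      funext y; exact zs_empty y
    rw [this]; exact Measure.QuasiMeasurePreserving.id _
  | insert i J _ ih =>
    have : (zs (K := K) (p := p) (insert i J)) = zc i ∘ zs J := by
      funext y; exact zs_insert i J y
    rw [this]; exact (zc_qmp i).comp ih

/-- measurable a.e. polynomials -/
def GW (ν : Measure K) (η : Measure (I → ZMod p)) (S : Γ → K → K) (R : Γ → K → I → ZMod p)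
    (A : Type) [CommRing A] [MeasurableSpace A] (a : ℕ) : Set (K × (I → ZMod p) → A) :=
  {g | Measurable g ∧ AEPoly (ν.prod η) (ext S R) a g}

lemma Sp.zc (hT : IsAction (ν.prod η) (ext S R)) (hE : IsErgodic (ν.prod η) (ext S R)) (i : I)
    {a : ℕ} {f : K × (I → ZMod p) → A} (hf : Sp (ν.prod η) (GW ν η S R A) a f) :
    Sp (ν.prod η) (GW ν η S R A) a (fun y => f (zc i y)) := by
  classical
  induction hf with
  | zero h => exact Sp.zero ((zc_qmp i).ae h)
  | add _ _ ih1 ih2 => exact Sp.add ih1 ih2
  | @term m' a' b g hb hg hle =>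
    have e : (fun y => b (Pool.Agent.FpTrans.zc i y) * g (Pool.Agent.FpTrans.zc i y)) = fun y =>
        ∑ j ∈ Finset.range p, (((-(y.2 i)).val.choose j : A) *
          b (Pool.Agent.FpTrans.zc i y)) * (dv (Pi.single i 1))^[j] g y := by
      funext y
      rw [newton_back i g y, Finset.mul_sum]
      refine Finset.sum_congr rfl fun j _ => ?_
      ring
    rw [e]
    refine Sp.sum _ _ fun j _ => ?_
    by_cases hj : j = 0
    · subst hj
      simp only [Nat.choose_zero_right, Nat.cast_one, one_mul, Function.iterate_zero, id_eq]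
      exact Sp.term (hb.zc i) hg hle
    · rcases Nat.eq_zero_or_pos a' with h0 | hpos
      · subst h0
        apply Sp.zero
        filter_upwards [dv_zero_iter (Pi.single i 1) j hg.2] with y hy
        rw [hy]; simp
      · exact Sp.term (Mon.mul i (fun c => ((-c).val.choose j : A)) (hb.zc i))
          ⟨dv_meas_iter _ _ hg.1, dv_poly_pos hT hE _ hj hg.1 hg.2⟩ (by omega)

lemma Sp.zs (hT : IsAction (ν.prod η) (ext S R)) (hE : IsErgodic (ν.prod η) (ext S R))
    (J : Finset I) {a : ℕ} {f : K × (I → ZMod p) → A}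
    (hf : Sp (ν.prod η) (GW ν η S R A) a f) :
    Sp (ν.prod η) (GW ν η S R A) a (fun y => f (zs J y)) := by
  classical
  induction J using Finset.induction_on with
  | empty => simpa only [zs_empty] using hf
  | insert i J _ ih =>
    simp only [zs_insert']
    exact Sp.zc hT hE i ih

lemma Mon.poly {D2 : ℕ} (hT : IsAction (ν.prod η) (ext S R))
    (hφ : ∀ (i : I) (φ : ZMod p → A),
      AEPoly (ν.prod η) (ext S R) D2 (fun y : K × (I → ZMod p) => φ (y.2 i)))
    {m : ℕ} {b : K × (I → ZMod p) → A} (hb : Mon m b) :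
    AEPoly (ν.prod η) (ext S R) (m * D2 + 1) b := by
  induction hb with
  | one =>
    apply st_mono (st_qmp hT) (show 1 ≤ 0 * D2 + 1 by omega)
    intro g
    exact Filter.Eventually.of_forall fun y => by simp
  | @mul i φ m b _ ih =>
    exact st_mul (st_qmp hT) _ D2 (m * D2 + 1) (by ring) _ _ (hφ i φ) ih

/-- everything in the span is an a.e. polynomial of bounded degree -/
lemma Sp.poly {D2 : ℕ} (hT : IsAction (ν.prod η) (ext S R))
    (hφ : ∀ (i : I) (φ : ZMod p → A),
      AEPoly (ν.prod η) (ext S R) D2 (fun y : K × (I → ZMod p) => φ (y.2 i)))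
    {a : ℕ} {f : K × (I → ZMod p) → A} (hf : Sp (ν.prod η) (GW ν η S R A) a f) :
    AEPoly (ν.prod η) (ext S R) (a * D2 + a + 1) f := by
  induction hf with
  | zero h => exact st_of_zero (st_qmp hT) _ h
  | add _ _ ih1 ih2 => exact st_add ih1 ih2
  | @term m' a' b g hb hg hle =>
    have h1 := st_mul (st_qmp hT) _ (m' * D2 + 1) a' rfl _ _ (Mon.poly hT hφ hb) hg.2
    refine st_mono (st_qmp hT) ?_ h1
    have : m' * D2 ≤ a * D2 := Nat.mul_le_mul_right _ (by omega)
    omega

/-- a.e. polynomials invariant under the vertical translations vanishing on `I0`, composed with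
`zs J` -/
def GZ (ν : Measure K) (η : Measure (I → ZMod p)) (S : Γ → K → K) (R : Γ → K → I → ZMod p)
    (A : Type) [CommRing A] [MeasurableSpace A] (I0 J : Finset I) (a : ℕ) :
    Set (K × (I → ZMod p) → A) :=
  {f | ∃ g : K × (I → ZMod p) → A, Measurable g ∧ AEPoly (ν.prod η) (ext S R) a g ∧
    (∀ u : I → ZMod p, (∀ i ∈ I0, u i = 0) → ∀ᵐ y ∂(ν.prod η), g (tr u y) = g y) ∧
    f = fun y => g (zs J y)}

omit [Countable A] [MeasurableSpace A] [MeasurableSingletonClass A] [MeasurableSub₂ A]
  [AddCommGroup Γ] [Countable Γ] in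
lemma dv_inv (w u : I → ZMod p) {g : K × (I → ZMod p) → A}
    (h : ∀ᵐ y ∂(ν.prod η), g (tr u y) = g y) :
    ∀ᵐ y ∂(ν.prod η), dv w g (tr u y) = dv w g y := by
  filter_upwards [h, (tr_mp (K := K) (ν := ν) (η := η) w).quasiMeasurePreserving.ae h] with y h1 h2
  unfold dv
  have : tr w (tr u y) = tr u (tr w y) := by
    simp only [tr, add_right_comm]
  rw [this, h2, h1]

omit [Countable A] [MeasurableSpace A] [MeasurableSingletonClass A] [MeasurableSub₂ A]
  [AddCommGroup Γ] [Countable Γ] in
lemma dv_inv_iter (w u : I → ZMod p) (j : ℕ) {g : K × (I → ZMod p) → A}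
    (h : ∀ᵐ y ∂(ν.prod η), g (tr u y) = g y) :
    ∀ᵐ y ∂(ν.prod η), (dv w)^[j] g (tr u y) = (dv w)^[j] g y := by
  induction j generalizing g with
  | zero => exact h
  | succ j ih => rw [Function.iterate_succ_apply]; exact ih (dv_inv w u h)

lemma expand (hT : IsAction (ν.prod η) (ext S R)) (hE : IsErgodic (ν.prod η) (ext S R))
    (I0 : Finset I) {a : ℕ} {g : K × (I → ZMod p) → A} (hgm : Measurable g)
    (hg : AEPoly (ν.prod η) (ext S R) a g)
    (hinv : ∀ u : I → ZMod p, (∀ i ∈ I0, u i = 0) → ∀ᵐ y ∂(ν.prod η), g (tr u y) = g y)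
    (J : Finset I) : Sp (ν.prod η) (GZ ν η S R A I0 J) a g := by
  classical
  induction J using Finset.induction_on with
  | empty =>
    have : Sp (ν.prod η) (GZ ν η S R A I0 ∅) a (fun y => 1 * g y) :=
      Sp.term Mon.one ⟨g, hgm, hg, hinv, by funext y; rw [zs_empty]⟩ (by omega)
    simpa only [one_mul] using this
  | insert i J hi ih =>
    clear hg hinv hgm
    induction ih with
    | zero h => exact Sp.zero h
    | add _ _ ih1 ih2 => exact Sp.add ih1 ih2
    | @term m' a' b f hb hf hle =>
      obtain ⟨g, hgm, hg, hinv, rfl⟩ := hf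
      have e : (fun y => b y * g (Pool.Agent.FpTrans.zs J y)) = fun y =>
          ∑ j ∈ Finset.range p, (((y.2 i).val.choose j : A) * b y) *
            (dv (Pi.single i 1))^[j] g (Pool.Agent.FpTrans.zs (insert i J) y) := by
        funext y
        have h2 : (Pool.Agent.FpTrans.zs J y).2 i = y.2 i := by
          simp [Pool.Agent.FpTrans.zs, hi]
        rw [newton_fwd i g (Pool.Agent.FpTrans.zs J y), Finset.mul_sum, h2]
        refine Finset.sum_congr rfl fun j _ => ?_
        rw [zs_insert]
        ring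
      rw [e]
      refine Sp.sum _ _ fun j _ => ?_
      by_cases hj : j = 0
      · subst hj
        simp only [Nat.choose_zero_right, Nat.cast_one, one_mul, Function.iterate_zero, id_eq]
        exact Sp.term hb ⟨g, hgm, hg, hinv, rfl⟩ hle
      · rcases Nat.eq_zero_or_pos a' with h0 | hpos
        · subst h0
          apply Sp.zero
          filter_upwards [(zs_qmp (insert i J)).ae (dv_zero_iter (Pi.single i 1) j hg)] with y hy
          rw [hy]; simp
        · exact Sp.term (Mon.mul i (fun c => (c.val.choose j : A)) hb)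
            ⟨_, dv_meas_iter _ _ hgm, dv_poly_pos hT hE _ hj hgm hg,
              fun u hu => dv_inv_iter _ _ _ (hinv u hu), rfl⟩ (by omega)

end Exp

end Pool.Agent.FpTrans
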