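import Pool.Agent.FpTrans.Step3

/-!
# Finite dependence, coordinates, continuity
-/

set_option autoImplicit false
set_option linter.unusedSectionVars false
open MeasureTheory Filter Topology
open scoped ENNReal Pointwise

namespace Pool.Agent.FpTrans

section Fin

variable {K I Γ : Type} {p : ℕ} [Fact p.Prime] [AddCommGroup K] [TopologicalSpace K]
  [IsTopologicalAddGroup K] [CompactSpace K] [T2Space K] [SecondCountableTopology K]
  [MeasurableSpace K] [BorelSpace K] [Countable I]
  [AddCommGroup Γ] [Countable Γ]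
  {ν : Measure K} [IsProbabilityMeasure ν] {η : Measure (I → ZMod p)} [IsProbabilityMeasure η]
  [η.IsAddLeftInvariant] {S : Γ → K → K} {R : Γ → K → I → ZMod p}
  {A : Type} [AddCommGroup A] [Fintype A] [MeasurableSpace A] [MeasurableSingletonClass A]
  [MeasurableSub₂ A]

/-- An a.e. polynomial is invariant under the vertical translations which vanish on a suitable
finite set of coordinates. -/
lemma finite_dep (hT : IsAction (ν.prod η) (ext S R)) (hE : IsErgodic (ν.prod η) (ext S R))
    (l : ℕ) {F : K × (I → ZMod p) → A} (hF : Measurable F)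
    (h : AEPoly (ν.prod η) (ext S R) l F) :
    ∃ I0 : Finset I, ∀ u : I → ZMod p, (∀ i ∈ I0, u i = 0) →
      ∀ᵐ y ∂(ν.prod η), F (tr u y) = F y := by
  classical
  have : (ν.prod η).Regular :=
    Measure.Regular.of_sigmaCompactSpace_of_isLocallyFiniteMeasure _
  set m := ν.prod η with hm
  set δ : ℝ≥0∞ := (1 / 2 : ℝ≥0∞) ^ (l + 1) / (Fintype.card A) with hδ
  have hcard : (Fintype.card A : ℝ≥0∞) ≠ 0 := by
    exact_mod_cast Fintype.card_ne_zero
  have hcard' : (Fintype.card A : ℝ≥0∞) ≠ ⊤ := ENNReal.natCast_ne_top _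
  have hδ0 : δ ≠ 0 := by
    rw [hδ]
    exact ENNReal.div_ne_zero.2 ⟨pow_ne_zero _ (by simp), hcard'⟩
  have hmeas : ∀ c : A, MeasurableSet (F ⁻¹' {c}) := fun c => hF (measurableSet_singleton c)
  have hC : ∀ c : A, ∃ C ⊆ F ⁻¹' {c}, IsCompact C ∧ m ((F ⁻¹' {c}) \ C) < δ := fun c =>
    (hmeas c).exists_isCompact_sdiff_lt (measure_ne_top _ _) hδ0
  choose C hCsub hCc hCm using hC
  have hV : ∀ c : A, ∃ V ∈ 𝓝 (0 : K × (I → ZMod p)), C c + V ⊆ (⋃ c' ∈ ({c}ᶜ : Set A), C c')ᶜ := by
    intro c
    apply compact_open_separated_add_right (hCc c)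
    · rw [isOpen_compl_iff]
      exact (Set.toFinite _).isClosed_biUnion fun c' _ => (hCc c').isClosed
    · intro y hy
      simp only [Set.mem_compl_iff, Set.mem_iUnion, not_exists]
      intro c' hc' hy'
      apply hc'
      have h1 : F y = c := hCsub c hy
      have h2 : F y = c' := hCsub c' hy'
      rw [Set.mem_singleton_iff, ← h1, ← h2]
  choose V hV0 hVsub using hV
  have hW : (⋂ c, V c) ∈ 𝓝 (0 : K × (I → ZMod p)) := (Filter.iInter_mem).2 hV0
  obtain ⟨W1, hW1, W2, hW2, hW12⟩ := mem_nhds_prod_iff.1 hW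
  have hW2' : W2 ∈ Filter.pi fun i : I => 𝓝 ((0 : K × (I → ZMod p)).2 i) := by
    rw [← nhds_pi]; exact hW2
  obtain ⟨I0, hI0, t, ht, htW⟩ := Filter.mem_pi.1 hW2'
  refine ⟨hI0.toFinset, fun u hu => ?_⟩
  have huV : ∀ c, ((0, u) : K × (I → ZMod p)) ∈ V c := by
    intro c
    have : ((0, u) : K × (I → ZMod p)) ∈ W1 ×ˢ W2 := by
      refine ⟨mem_of_mem_nhds hW1, htW fun i hi => ?_⟩
      have h0 : u i = 0 := hu i (by simpa using hi)
      show u i ∈ t i
      rw [h0]
      exact mem_of_mem_nhds (ht i)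
    exact Set.mem_iInter.1 (hW12 this) c
  set B := (⋃ c, C c)ᶜ with hB
  have hBm : MeasurableSet B :=
    (MeasurableSet.iUnion fun c => (hCc c).measurableSet).compl
  have hmB : m B < (1 / 2 : ℝ≥0∞) ^ (l + 1) := by
    have hsub : B ⊆ ⋃ c ∈ (Finset.univ : Finset A), (F ⁻¹' {c}) \ C c := by
      intro y hy
      simp only [Finset.mem_univ, Set.iUnion_true, Set.mem_iUnion]
      refine ⟨F y, rfl, fun hy' => hy ?_⟩
      exact Set.mem_iUnion.2 ⟨F y, hy'⟩
    calc m B ≤ m (⋃ c ∈ (Finset.univ : Finset A), (F ⁻¹' {c}) \ C c) := measure_mono hsub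
      _ ≤ ∑ c ∈ (Finset.univ : Finset A), m ((F ⁻¹' {c}) \ C c) :=
          measure_biUnion_finset_le _ _
      _ < ∑ _c ∈ (Finset.univ : Finset A), δ :=
          ENNReal.sum_lt_sum_of_nonempty ⟨0, Finset.mem_univ _⟩ fun c _ => hCm c
      _ = (1 / 2 : ℝ≥0∞) ^ (l + 1) := by
          rw [Finset.sum_const, Finset.card_univ, nsmul_eq_mul, hδ]
          exact ENNReal.mul_div_cancel hcard hcard'
  have hP : (fun y => F (tr u y) - F y) =ᵐ[m] 0 := by
    have htm : Measurable (tr (K := K) u) := by unfold tr; fun_prop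
    apply st_disagree hT hE l ((hF.comp htm).sub hF)
      (st_sub (st_comp (tr_mp u).quasiMeasurePreserving (fun g y => ext_tr S R g u y) h) h)
    have hsub : {y | F (tr u y) - F y ≠ 0} ⊆ B ∪ tr u ⁻¹' B := by
      intro y hy
      by_contra hcon
      simp only [Set.mem_union, Set.mem_preimage, not_or, hB, Set.mem_compl_iff, not_not,
        Set.mem_iUnion] at hcon
      obtain ⟨⟨c, hc⟩, ⟨c', hc'⟩⟩ := hcon
      apply hy
      have h1 : tr u y ∈ C c + V c := by
        refine ⟨y, hc, (0, u), huV c, ?_⟩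
        simp [tr, Prod.ext_iff]
      have h2 := hVsub c h1
      simp only [Set.mem_compl_iff, Set.mem_iUnion, not_exists, Set.mem_singleton_iff] at h2
      have h3 : c' = c := by
        by_contra hne
        exact h2 c' hne hc'
      subst h3
      have e1 : F y = c' := hCsub c' hc
      have e2 : F (tr u y) = c' := hCsub c' hc'
      rw [e1, e2, sub_self]
    calc m {y | F (tr u y) - F y ≠ 0} ≤ m (B ∪ tr u ⁻¹' B) := measure_mono hsub
      _ ≤ m B + m (tr u ⁻¹' B) := measure_union_le _ _
      _ = m B + m B := by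
          rw [(tr_mp (K := K) (ν := ν) (η := η) u).measure_preimage hBm.nullMeasurableSet]
      _ < (1 / 2 : ℝ≥0∞) ^ (l + 1) + (1 / 2 : ℝ≥0∞) ^ (l + 1) := ENNReal.add_lt_add hmB hmB
      _ = (1 / 2 : ℝ≥0∞) ^ l := by
          rw [pow_succ, ← mul_add, ENNReal.add_halves, mul_one]
  filter_upwards [hP] with y hy
  exact sub_eq_zero.1 hy

end Fin

section Final

variable {K I Γ : Type} {p : ℕ} [Fact p.Prime] [AddCommGroup K] [TopologicalSpace K]
  [IsTopologicalAddGroup K] [CompactSpace K] [T2Space K] [SecondCountableTopology K]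
  [MeasurableSpace K] [BorelSpace K] [Countable I]
  [AddCommGroup Γ] [Countable Γ]
  {ν : Measure K} [IsProbabilityMeasure ν] [ν.IsAddLeftInvariant]
  {η : Measure (I → ZMod p)} [IsProbabilityMeasure η]
  [η.IsAddLeftInvariant] {S : Γ → K → K} {R : Γ → K → I → ZMod p}

omit [CompactSpace K] [T2Space K] [SecondCountableTopology K] [Countable I] [Countable Γ] 
  [AddCommGroup Γ] [MeasurableSpace K] [BorelSpace K] [IsTopologicalAddGroup K]
  [TopologicalSpace K] in
lemma ip_fst {A : Type*} [AddCommGroup A] {n : ℕ} {h : K → A} (hh : IsPoly (tm S) n h) :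
    IsPoly (tm (ext S R)) n (fun y : K × (I → ZMod p) => h y.1) := by
  refine ip_pull (t := tm S) (t' := tm (ext S R)) (fun y : K × (I → ZMod p) => y.1)
    (fun i => match i with
      | .inl a => .inl a.1
      | .inr g => .inr g) ?_ hh
  rintro (a | g) y <;> rfl

lemma ip_hom {S' ι A A' : Type*} [AddCommGroup A] [AddCommGroup A'] {t : ι → S' → S'}
    (σ : A →+ A') {n : ℕ} {f : S' → A} (hf : IsPoly t n f) : IsPoly t n (fun s => σ (f s)) := by
  induction n generalizing f with
  | zero =>
    intro s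
    have h0 : f s = 0 := hf s
    show σ (f s) = 0
    rw [h0, map_zero]
  | succ n ih =>
    intro i
    have := ih (hf i)
    simpa only [map_sub] using this

lemma st_hom {X ι A A' : Type*} [MeasurableSpace X] {μ : Measure X} [AddCommGroup A]
    [AddCommGroup A'] {t : ι → X → X}
    (σ : A →+ A') {n : ℕ} {f : X → A} (hf : AEPoly μ t n f) :
    AEPoly μ t n (fun s => σ (f s)) := by
  induction n generalizing f with
  | zero =>
      have h0 : f =ᵐ[μ] 0 := hf
      show (fun s => σ (f s)) =ᵐ[μ] 0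
      filter_upwards [h0] with s hs
      rw [hs]; simp
  | succ n ih =>
    intro i
    have := ih (hf i)
    simpa only [map_sub] using this

/-- continuous functions with discrete values which agree a.e. agree everywhere -/
lemma cont_eq {A : Type*} [TopologicalSpace A] [DiscreteTopology A] {f g : K → A}
    (hf : Continuous f) (hg : Continuous g) (h : f =ᵐ[ν] g) : f = g := by
  have hopen : IsOpen {k | f k ≠ g k} := by
    have : {k | f k ≠ g k} = (fun k => (f k, g k)) ⁻¹' {q | q.1 ≠ q.2} := rfl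
    rw [this]
    exact (isOpen_discrete _).preimage (hf.prodMk hg)
  have h0 : ν {k | f k ≠ g k} = 0 := h
  rw [hopen.measure_eq_zero_iff ν] at h0
  funext k
  by_contra hne
  have : k ∈ {k | f k ≠ g k} := hne
  rw [h0] at this
  exact this

/-- the vertical coordinates are continuous polynomials -/
lemma coord_poly (B : ℕ → ℕ → ℕ) (hPP : PolyProp p ν S B) (e : ℕ)
    (hT : IsAction (ν.prod η) (ext S R))
    (hR : ∀ g, Continuous (R g))
    (he : ∀ i, AEPoly (ν.prod η) (ext S R) e (fun y : K × (I → ZMod p) => y.2 i)) (i : I) :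
    IsPoly (tm (ext S R)) (B 1 (e - 1) + 2) (fun y : K × (I → ZMod p) => y.2 i) := by
  rintro (a | g)
  · have e1 : (fun s : K × (I → ZMod p) => (tm (ext S R) (Sum.inl a) s).2 i - s.2 i) =
        fun _ => a.2 i := by
      funext s
      simp [tm]
    rw [e1]
    exact ip_mono (by omega) (ip_const (a.2 i))
  · have e1 : (fun s : K × (I → ZMod p) => (tm (ext S R) (Sum.inr g) s).2 i - s.2 i) =
        fun s => R g s.1 i := by
      funext s
      simp [tm, ext]
    rw [e1]
    apply ip_fst (h := fun k => R g k i)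
    -- the cocycle
    have hdiff : AEPoly (ν.prod η) (ext S R) (e - 1)
        (fun y : K × (I → ZMod p) => R g y.1 i) := by
      have e2 : (fun y : K × (I → ZMod p) => R g y.1 i) =
          fun y => (ext S R g y).2 i - y.2 i := by
        funext s
        simp [ext]
      rw [e2]
      rcases e with _ | e
      · have h0 : (fun y : K × (I → ZMod p) => y.2 i) =ᵐ[ν.prod η] 0 := he i
        show (fun y : K × (I → ZMod p) => (ext S R g y).2 i - y.2 i) =ᵐ[ν.prod η] 0
        filter_upwards [h0, (st_qmp hT g).ae h0] with y h1 h2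
        rw [h1, h2]; simp
      · exact he i g
    have hK : AEPoly ν S (e - 1) (fun k => R g k i) := st_fst (η := η) hdiff
    let σ : ZMod p ≃+* ZMod (p ^ 1) := ZMod.ringEquivCongr (pow_one p).symm
    have hcR : Continuous fun k => R g k i := (continuous_apply i).comp (hR g)
    have hcσ : Continuous fun k => σ (R g k i) :=
      (continuous_of_discreteTopology (f := σ)).comp hcR
    obtain ⟨f, hf, hfR, hfp⟩ := hPP 1 (e - 1) (fun k => σ (R g k i)) hcσ.measurable
      (st_hom (σ : ZMod p →+ ZMod (p ^ 1)) hK)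
    have hfe : f = fun k => σ (R g k i) := cont_eq (ν := ν) hf hcσ hfR
    have h2 : IsPoly (tm S) (B 1 (e - 1)) (fun k => σ.symm (f k)) :=
      ip_hom (σ.symm : ZMod (p ^ 1) →+ ZMod p) hfp
    rw [hfe] at h2
    simp only [RingEquiv.symm_apply_apply] at h2
    exact ip_succ h2

end Final

end Pool.Agent.FpTrans
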