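import Pool.Agent.FpTrans.Step4

/-!
# The step, from the composition theorem
-/

set_option autoImplicit false
set_option linter.unusedSectionVars false
open MeasureTheory Filter Topology
open scoped ENNReal

namespace Pool.Agent.FpTrans

section Main

variable {K I Γ : Type} {p : ℕ} [Fact p.Prime] [AddCommGroup K] [TopologicalSpace K]
  [IsTopologicalAddGroup K] [CompactSpace K] [T2Space K] [SecondCountableTopology K]
  [MeasurableSpace K] [BorelSpace K] [Countable I]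
  [AddCommGroup Γ] [Countable Γ]
  {ν : Measure K} [IsProbabilityMeasure ν] [ν.IsAddLeftInvariant]
  {η : Measure (I → ZMod p)} [IsProbabilityMeasure η]
  [η.IsAddLeftInvariant] {S : Γ → K → K} {R : Γ → K → I → ZMod p}

lemma Mon.cont {A : Type} [CommRing A] [TopologicalSpace A] [IsTopologicalRing A] {m : ℕ}
    {b : K × (I → ZMod p) → A} (hb : Mon m b) : Continuous b := by
  induction hb with
  | one => exact continuous_const
  | mul i φ _ ih =>
    exact ((continuous_of_discreteTopology (f := φ)).comp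
      ((continuous_apply i).comp continuous_snd)).mul ih

lemma Mon.ip {A : Type} [CommRing A] {D2 : ℕ}
    (hφ : ∀ (i : I) (φ : ZMod p → A),
      IsPoly (tm (ext S R)) D2 (fun y : K × (I → ZMod p) => φ (y.2 i)))
    {m : ℕ} {b : K × (I → ZMod p) → A} (hb : Mon m b) :
    IsPoly (tm (ext S R)) (m * D2 + 1) b := by
  induction hb with
  | one => exact ip_mono (by omega) (ip_const _)
  | @mul i φ m b _ ih =>
    exact ip_mul _ D2 (m * D2 + 1) (by ring) _ _ (hφ i φ) ih

/-- the invariant functions composed with `zs I0` are continuous polynomials -/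
lemma gz_poly {N D2 : ℕ} (B : ℕ → ℕ → ℕ) (hPP : PolyProp p ν S B)
    (hT : IsAction (ν.prod η) (ext S R)) (hE : IsErgodic (ν.prod η) (ext S R))
    (hφ : ∀ (i : I) (φ : ZMod p → ZMod (p ^ N)),
      IsPoly (tm (ext S R)) D2 (fun y : K × (I → ZMod p) => φ (y.2 i)))
    (I0 : Finset I) {a : ℕ} {f : K × (I → ZMod p) → ZMod (p ^ N)}
    (hf : f ∈ GZ ν η S R (ZMod (p ^ N)) I0 I0 a) :
    ∃ h : K × (I → ZMod p) → ZMod (p ^ N), Continuous h ∧ h =ᵐ[ν.prod η] f ∧
      IsPoly (tm (ext S R)) (B N (a * D2 + a + 1)) h := by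
  classical
  obtain ⟨g, hgm, hg, hinv, rfl⟩ := hf
  have hφ' : ∀ (i : I) (φ : ZMod p → ZMod (p ^ N)),
      AEPoly (ν.prod η) (ext S R) D2 (fun y : K × (I → ZMod p) => φ (y.2 i)) := fun i φ =>
    ip_ae (ν.prod η) (ext S R) Sum.inr (fun _ _ => rfl) (hφ i φ)
  -- the composition is an a.e. polynomial
  have hW : Sp (ν.prod η) (GW ν η S R (ZMod (p ^ N))) a g := by
    have : Sp (ν.prod η) (GW ν η S R (ZMod (p ^ N))) a (fun y => 1 * g y) :=
      Sp.term Mon.one ⟨hgm, hg⟩ (by omega)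
    simpa only [one_mul] using this
  have hpoly := Sp.poly hT hφ' (Sp.zs hT hE I0 hW)
  have hzm : Measurable (zs (K := K) (p := p) I0) :=
    (zs_qmp (K := K) (ν := ν) (η := η) I0).measurable
  -- invariance
  have hinv' : ∀ u, ∀ᵐ y ∂(ν.prod η), g (zs I0 (tr u y)) = g (zs I0 y) := by
    intro u
    have h1 := (zs_qmp (K := K) (ν := ν) (η := η) I0).ae
      (hinv (fun i => if i ∈ I0 then 0 else u i) (fun i hi => by simp [hi]))
    filter_upwards [h1] with y hy
    rw [← hy]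
    congr 1
    refine Prod.ext rfl ?_
    funext i
    by_cases hi : i ∈ I0 <;> simp [zs, tr, hi]
  obtain ⟨h, hhm, hh⟩ := st_base (ν := ν) (η := η) (hgm.comp hzm) hinv'
  have hhe : (fun y => g (zs I0 y)) =ᵐ[ν.prod η] fun y => h y.1 := hh
  have hK : AEPoly ν S (a * D2 + a + 1) h :=
    st_fst (η := η) (st_congr (st_qmp hT) hhe hpoly)
  obtain ⟨q, hqc, hqh, hqp⟩ := hPP N _ h hhm hK
  refine ⟨fun y => q y.1, hqc.comp continuous_fst, ?_, ip_fst hqp⟩
  have h2 : ∀ᵐ y ∂(ν.prod η), q y.1 = h y.1 :=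
    Measure.quasiMeasurePreserving_fst.ae hqh
  filter_upwards [h2, hh] with y h2 h3
  rw [h2]; exact h3.symm

lemma sp_final {N D2 : ℕ} (B : ℕ → ℕ → ℕ) (hPP : PolyProp p ν S B)
    (hT : IsAction (ν.prod η) (ext S R)) (hE : IsErgodic (ν.prod η) (ext S R))
    (hφ : ∀ (i : I) (φ : ZMod p → ZMod (p ^ N)),
      IsPoly (tm (ext S R)) D2 (fun y : K × (I → ZMod p) => φ (y.2 i)))
    (I0 : Finset I) {a : ℕ} {f : K × (I → ZMod p) → ZMod (p ^ N)}
    (hf : Sp (ν.prod η) (GZ ν η S R (ZMod (p ^ N)) I0 I0) a f) :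
    ∃ h : K × (I → ZMod p) → ZMod (p ^ N), Continuous h ∧ h =ᵐ[ν.prod η] f ∧
      IsPoly (tm (ext S R))
        (a * D2 + 1 + ∑ a' ∈ Finset.range (a + 1), B N (a' * D2 + a' + 1)) h := by
  induction hf with
  | zero h => exact ⟨fun _ => 0, continuous_const, h.symm, ip_of_zero _ fun _ => rfl⟩
  | add _ _ ih1 ih2 =>
    obtain ⟨h1, c1, e1, p1⟩ := ih1
    obtain ⟨h2, c2, e2, p2⟩ := ih2
    exact ⟨fun y => h1 y + h2 y, c1.add c2, e1.add e2, ip_add p1 p2⟩
  | @term m' a' b g hb hg hle =>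
    obtain ⟨h, hc, he, hp⟩ := gz_poly B hPP hT hE hφ I0 hg
    refine ⟨fun y => b y * h y, (Mon.cont hb).mul hc, ?_, ?_⟩
    · filter_upwards [he] with y hy
      rw [hy]
    · have h1 := ip_mul _ (m' * D2 + 1) _ rfl _ _ (Mon.ip hφ hb) hp
      refine ip_mono ?_ h1
      have h2 : m' * D2 ≤ a * D2 := Nat.mul_le_mul_right _ (by omega)
      have h3 : B N (a' * D2 + a' + 1) ≤
          ∑ a' ∈ Finset.range (a + 1), B N (a' * D2 + a' + 1) :=
        Finset.single_le_sum (f := fun a' => B N (a' * D2 + a' + 1))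
          (fun _ _ => Nat.zero_le _) (Finset.mem_range.2 (by omega))
      omega

end Main

theorem polyProp_step_of (p : ℕ) [Fact p.Prime]
    (hcomp : ∀ N l : ℕ, ∃ D : ℕ,
      ∀ (S : Type) (ι : Type) (t : ι → S → S) (f : S → ZMod (p ^ 1)), IsPoly t l f →
        ∀ Φ : ZMod (p ^ 1) → ZMod (p ^ N), IsPoly t D (fun s => Φ (f s)))
    (e : ℕ) (B : ℕ → ℕ → ℕ) : ∃ B' : ℕ → ℕ → ℕ,
    ∀ (Γ : Type) [AddCommGroup Γ] [Countable Γ] (K : Type) [AddCommGroup K] [TopologicalSpace K]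
      [IsTopologicalAddGroup K] [CompactSpace K] [T2Space K] [SecondCountableTopology K]
      [MeasurableSpace K] [BorelSpace K] (ν : Measure K)
      [IsProbabilityMeasure ν] [ν.IsAddLeftInvariant] (S : Γ → K → K),
      PolyProp p ν S B →
      ∀ (I : Type) [Countable I] (η : Measure (I → ZMod p)) [IsProbabilityMeasure η]
        [η.IsAddLeftInvariant] (R : Γ → K → I → ZMod p), (∀ g, Continuous (R g)) →
        IsAction (ν.prod η) (ext S R) → IsErgodic (ν.prod η) (ext S R) →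
        (∀ i, AEPoly (ν.prod η) (ext S R) e (fun y : K × (I → ZMod p) => y.2 i)) →
        PolyProp p (ν.prod η) (ext S R) B' := by
  choose D hD using hcomp
  refine ⟨fun N l => l * D N (B 1 (e - 1) + 2) + 1 +
    ∑ a ∈ Finset.range (l + 1), B N (a * D N (B 1 (e - 1) + 2) + a + 1), ?_⟩
  intro Γ _ _ K _ _ _ _ _ _ _ _ ν _ _ S hPP I _ η _ _ R hR hT hE he N l F hF hFp
  have hφ : ∀ (i : I) (φ : ZMod p → ZMod (p ^ N)),
      IsPoly (tm (ext S R)) (D N (B 1 (e - 1) + 2))
        (fun y : K × (I → ZMod p) => φ (y.2 i)) := by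
    intro i φ
    let σ : ZMod p ≃+* ZMod (p ^ 1) := ZMod.ringEquivCongr (pow_one p).symm
    have h1 := coord_poly B hPP e hT hR he i
    have h2 := ip_hom (σ : ZMod p →+ ZMod (p ^ 1)) h1
    have h3 := hD N (B 1 (e - 1) + 2) _ _ _ _ h2 (fun c => φ (σ.symm c))
    simpa using h3
  obtain ⟨I0, hI0⟩ := finite_dep hT hE l hF hFp
  exact sp_final B hPP hT hE hφ I0 (expand hT hE I0 hF hFp hI0 I0)

end Pool.Agent.FpTrans
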